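import Pool.Agent.SNC.T1

/-! SNC-ALG: Boolean operations on clopen and approximable sets. -/

set_option autoImplicit false
set_option linter.unusedVariables false

open scoped Classical ENNReal MeasureTheory
open Filter CofSN

noncomputable section

namespace Pool.Agent.SNC

namespace ALG_

variable {K : Type} {T : K → Type} {S : Set K}

theorem cl_compl {a : Set (Pt T)} (h : Cl S a) : Cl S aᶜ := by
  obtain ⟨F, hF, h1⟩ := h
  refine ⟨F, hF, fun z w hzw => ?_⟩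
  rw [Set.mem_compl_iff, Set.mem_compl_iff, h1 z w hzw]

theorem cl_union {a b : Set (Pt T)} (ha : Cl S a) (hb : Cl S b) : Cl S (a ∪ b) := by
  obtain ⟨F, hF, h1⟩ := ha
  obtain ⟨G, hG, h2⟩ := hb
  refine ⟨F ∪ G, ?_, fun z w hzw => ?_⟩
  · rw [Finset.coe_union]
    exact Set.union_subset hF hG
  · rw [Set.mem_union, Set.mem_union, h1 z w fun k hk => hzw k (Finset.mem_union_left _ hk),
      h2 z w fun k hk => hzw k (Finset.mem_union_right _ hk)]

theorem cl_inter {a b : Set (Pt T)} (ha : Cl S a) (hb : Cl S b) : Cl S (a ∩ b) := by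
  have h : a ∩ b = (aᶜ ∪ bᶜ)ᶜ := by
    rw [Set.compl_union, compl_compl, compl_compl]
  rw [h]
  exact cl_compl (cl_union (cl_compl ha) (cl_compl hb))

theorem cl_diff {a b : Set (Pt T)} (ha : Cl S a) (hb : Cl S b) : Cl S (a \ b) := by
  rw [Set.sdiff_eq]
  exact cl_inter ha (cl_compl hb)

theorem ms_compl {ν : Set (Pt T) → ℝ} {E : Set (Pt T)} (h : Ms ν S E) : Ms ν S Eᶜ := by
  intro ε hε
  obtain ⟨a, ha, h1⟩ := h ε hε
  refine ⟨aᶜ, cl_compl ha, ?_⟩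
  rw [compl_symmDiff_compl]
  exact h1

theorem ms_union {ν : Set (Pt T) → ℝ} {E F : Set (Pt T)} (hE : Ms ν S E) (hF : Ms ν S F) :
    Ms ν S (E ∪ F) := by
  intro ε hε
  have h2 : 0 < ε / 2 := ENNReal.half_pos hε.ne'
  obtain ⟨a, ha, h1⟩ := hE (ε / 2) h2
  obtain ⟨b, hb, h3⟩ := hF (ε / 2) h2
  refine ⟨a ∪ b, cl_union ha hb, ?_⟩
  have hsub : symmDiff (E ∪ F) (a ∪ b) ⊆ symmDiff E a ∪ symmDiff F b := by
    intro z hz
    simp only [Set.mem_symmDiff, Set.mem_union] at hz ⊢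
    tauto
  calc mu ν (symmDiff (E ∪ F) (a ∪ b)) ≤ mu ν (symmDiff E a ∪ symmDiff F b) :=
        MeasureTheory.measure_mono hsub
    _ ≤ mu ν (symmDiff E a) + mu ν (symmDiff F b) := MeasureTheory.measure_union_le _ _
    _ ≤ ε / 2 + ε / 2 := add_le_add h1 h3
    _ = ε := ENNReal.add_halves ε

theorem ms_inter {ν : Set (Pt T) → ℝ} {E F : Set (Pt T)} (hE : Ms ν S E) (hF : Ms ν S F) :
    Ms ν S (E ∩ F) := by
  have h : E ∩ F = (Eᶜ ∪ Fᶜ)ᶜ := by
    rw [Set.compl_union, compl_compl, compl_compl]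
  rw [h]
  exact ms_compl (ms_union (ms_compl hE) (ms_compl hF))

theorem ms_diff {ν : Set (Pt T) → ℝ} {E F : Set (Pt T)} (hE : Ms ν S E) (hF : Ms ν S F) :
    Ms ν S (E \ F) := by
  rw [Set.sdiff_eq]
  exact ms_inter hE (ms_compl hF)

end ALG_

theorem p_ALG : T_ALG := by
  intro K T S
  refine ⟨⟨⟨∅, by simp, fun z w _ => Iff.rfl⟩, ⟨∅, by simp, fun z w _ => by simp⟩⟩, ?_, ?_, ?_, ?_,
    ?_, ?_, ?_, ?_⟩
  · intro a ha
    exact ALG_.cl_compl ha
  · intro a b ha hb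
    exact ⟨ALG_.cl_union ha hb, ALG_.cl_inter ha hb, ALG_.cl_diff ha hb⟩
  · rintro S' a hS ⟨F, hF, h⟩
    exact ⟨F, hF.trans hS, h⟩
  · intro k hk t
    refine ⟨{k}, ?_, fun z w hzw => ?_⟩
    · rw [Finset.coe_singleton]
      exact Set.singleton_subset_iff.2 hk
    · rw [Set.mem_ofPred_eq, Set.mem_ofPred_eq, hzw k (Finset.mem_singleton_self k)]
  · rintro ν S' E hS h ε hε
    obtain ⟨a, ⟨F, hF, h1⟩, h2⟩ := h ε hε
    exact ⟨a, ⟨F, hF.trans hS, h1⟩, h2⟩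
  · intro ν a ha ε hε
    refine ⟨a, ha, ?_⟩
    rw [symmDiff_self]
    have : mu ν (⊥ : Set (Pt T)) = 0 := MeasureTheory.measure_empty
    rw [this]
    exact bot_le
  · intro ν E h
    exact ALG_.ms_compl h
  · intro ν E F hE hF
    exact ⟨ALG_.ms_union hE hF, ALG_.ms_inter hE hF, ALG_.ms_diff hE hF⟩

end Pool.Agent.SNC
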