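import Pool.Agent.SNC.T1

/-!
# Measurable approximation by clopen sets
-/

set_option autoImplicit false
set_option linter.unusedVariables false

open scoped Classical ENNReal MeasureTheory
open Filter CofSN

noncomputable section

namespace Pool.Agent.SNC

namespace APX_

section

variable {X : Type} [MeasurableSpace X] {α β : Type}

/-- functions with countably many values, with measurable fibres -/
def SF (a : X → α) : Prop := (Set.range a).Countable ∧ ∀ b, MeasurableSet {x | a x = b}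

theorem SF.pred {a : X → α} (h : SF a) (p : α → Prop) : MeasurableSet {x | p (a x)} := by
  have e : {x | p (a x)} = ⋃ b ∈ Set.range a, {x | a x = b ∧ p b} := by
    ext x
    constructor
    · intro hx
      exact Set.mem_biUnion (⟨x, rfl⟩ : a x ∈ Set.range a) ⟨rfl, hx⟩
    · intro hx
      obtain ⟨b, -, hb⟩ := Set.mem_iUnion₂.1 hx
      have hb' : a x = b ∧ p b := hb
      show p (a x)
      rw [hb'.1]
      exact hb'.2
  rw [e]
  refine MeasurableSet.biUnion h.1 fun b _ => ?_
  by_cases hb : p b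
  · have e1 : {x | a x = b ∧ p b} = {x | a x = b} := by
      ext x
      exact ⟨fun h => h.1, fun h => ⟨h, hb⟩⟩
    rw [e1]
    exact h.2 b
  · have e1 : {x | a x = b ∧ p b} = ∅ := by
      ext x
      exact ⟨fun h => (hb h.2).elim, fun h => h.elim⟩
    rw [e1]
    exact MeasurableSet.empty

theorem SF.pair {a : X → α} {b : X → β} (ha : SF a) (hb : SF b) :
    SF (fun x => (a x, b x)) := by
  constructor
  · refine (ha.1.prod hb.1).mono ?_
    rintro _ ⟨x, rfl⟩
    exact ⟨⟨x, rfl⟩, ⟨x, rfl⟩⟩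
  · rintro ⟨u, v⟩
    have e : {x | (a x, b x) = (u, v)} = {x | a x = u} ∩ {x | b x = v} := by
      ext x
      exact ⟨fun h => ⟨(Prod.mk.inj h).1, (Prod.mk.inj h).2⟩, fun h => Prod.ext h.1 h.2⟩
    rw [e]
    exact (ha.2 u).inter (hb.2 v)

theorem SF.comp {a : X → α} (ha : SF a) (g : α → β) : SF (fun x => g (a x)) := by
  constructor
  · refine (ha.1.image g).mono ?_
    rintro _ ⟨x, rfl⟩
    exact ⟨a x, ⟨x, rfl⟩, rfl⟩
  · intro b
    exact ha.pred fun u => g u = b

theorem SF.const (c : α) : SF (fun _ : X => c) := by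
  constructor
  · refine (Set.countable_singleton c).mono ?_
    rintro _ ⟨x, rfl⟩
    rfl
  · intro b
    exact MeasurableSet.const _

theorem SF.sel {a : ℕ → X → α} (ha : ∀ n, SF (a n)) {N : X → ℕ} (hN : Measurable N) :
    SF (fun x => a (N x) x) := by
  constructor
  · refine (Set.countable_iUnion fun n => (ha n).1).mono ?_
    rintro _ ⟨x, rfl⟩
    exact Set.mem_iUnion.2 ⟨N x, ⟨x, rfl⟩⟩
  · intro b
    have e : {x | a (N x) x = b} = ⋃ n, (N ⁻¹' {n}) ∩ {x | a n x = b} := by
      ext x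
      constructor
      · intro h
        exact Set.mem_iUnion.2 ⟨N x, rfl, h⟩
      · intro h
        obtain ⟨n, h1, h2⟩ := Set.mem_iUnion.1 h
        have h1' : N x = n := h1
        have h2' : a n x = b := h2
        show a (N x) x = b
        rw [h1']
        exact h2'
    rw [e]
    exact MeasurableSet.iUnion fun n => (hN (measurableSet_singleton n)).inter ((ha n).2 b)

end

section

variable {X : Type} [MeasurableSpace X] {K : Type} {T : K → Type}

/-- the statement proved by induction -/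
def Good (f : Filter X) (ν : Set (Pt T) → ℝ) (S : Set K) (E : Set (Om X T)) : Prop :=
  ∀ ε : ℝ≥0∞, 0 < ε → ∃ a : X → Set (Pt T), SF a ∧ (∀ x, Cl S (a x)) ∧
    ∀ᶠ x in f, mu ν (symmDiff (sec E x) (a x)) ≤ ε

theorem sd_union (A B a b : Set (Pt T)) :
    symmDiff (A ∪ B) (a ∪ b) ⊆ symmDiff A a ∪ symmDiff B b := by
  intro z hz
  rw [Set.mem_union, Set.mem_symmDiff, Set.mem_symmDiff]
  rw [Set.mem_symmDiff, Set.mem_union, Set.mem_union] at hz
  tauto

theorem good_union (hALG : T_ALG) {f : Filter X} {ν : Set (Pt T) → ℝ} {S : Set K}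
    {E F : Set (Om X T)} (hE : Good f ν S E) (hF : Good f ν S F) : Good f ν S (E ∪ F) := by
  intro ε hε
  have h2 : 0 < ε / 2 := ENNReal.half_pos hε.ne'
  obtain ⟨a, ha1, ha2, ha3⟩ := hE _ h2
  obtain ⟨b, hb1, hb2, hb3⟩ := hF _ h2
  refine ⟨fun x => a x ∪ b x, (ha1.pair hb1).comp fun p => p.1 ∪ p.2, fun x =>
    ((hALG K T S).2.2.1 _ _ (ha2 x) (hb2 x)).1, ?_⟩
  filter_upwards [ha3, hb3] with x h3 h4
  have e : sec (E ∪ F) x = sec E x ∪ sec F x := rfl
  rw [e]
  calc mu ν (symmDiff (sec E x ∪ sec F x) (a x ∪ b x))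
      ≤ mu ν (symmDiff (sec E x) (a x) ∪ symmDiff (sec F x) (b x)) :=
        MeasureTheory.measure_mono (sd_union _ _ _ _)
    _ ≤ mu ν (symmDiff (sec E x) (a x)) + mu ν (symmDiff (sec F x) (b x)) :=
        MeasureTheory.measure_union_le _ _
    _ ≤ ε / 2 + ε / 2 := add_le_add h3 h4
    _ = ε := ENNReal.add_halves ε

theorem good_empty (hALG : T_ALG) {f : Filter X} {ν : Set (Pt T) → ℝ} {S : Set K} :
    Good f ν S (∅ : Set (Om X T)) := by
  intro ε hε
  refine ⟨fun _ => ∅, SF.const _, fun _ => (hALG K T S).1.1, Eventually.of_forall fun x => ?_⟩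
  have e : sec (∅ : Set (Om X T)) x = ∅ := rfl
  rw [e, symmDiff_self]
  exact (MeasureTheory.measure_empty (μ := mu ν)).le.trans zero_le

theorem good_ms {f : Filter X} [CountableInterFilter f] {ν : Set (Pt T) → ℝ} {S : Set K}
    {E : Set (Om X T)} (hE : Good f ν S E) : ∀ᶠ x in f, Ms ν S (sec E x) := by
  have h : ∀ n : ℕ, ∀ᶠ x in f, ∃ a, Cl S a ∧
      mu ν (symmDiff (sec E x) a) ≤ ((n : ℝ≥0∞) + 1)⁻¹ := by
    intro n
    have hn : (0 : ℝ≥0∞) < ((n : ℝ≥0∞) + 1)⁻¹ :=
      ENNReal.inv_pos.2 (ENNReal.add_ne_top.2 ⟨ENNReal.natCast_ne_top n, ENNReal.one_ne_top⟩)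
    obtain ⟨a, -, ha2, ha3⟩ := hE _ hn
    filter_upwards [ha3] with x hx
    exact ⟨a x, ha2 x, hx⟩
  filter_upwards [eventually_countable_forall.2 h] with x hx ε hε
  obtain ⟨n, hn⟩ := ENNReal.exists_inv_nat_lt hε.ne'
  obtain ⟨a, ha1, ha2⟩ := hx n
  refine ⟨a, ha1, ha2.trans ?_⟩
  refine le_trans (ENNReal.inv_le_inv.2 ?_) hn.le
  exact le_self_add

theorem good_iUnion (hCON : T_CON) (hALG : T_ALG) (hMUC : T_MUC) [∀ k, Fintype (T k)]
    {f : Filter X} (hf : CS X f) {ν : Set (Pt T) → ℝ} (hν : SubM T ν) {S : Set K}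
    {E : ℕ → Set (Om X T)} (hE : ∀ n, Good f ν S (E n)) : Good f ν S (⋃ n, E n) := by
  have := hf.ci
  intro ε hε
  obtain ⟨alg1, alg2, alg3, alg4, -, alg6, -, -, alg9⟩ := hALG K T S
  -- the small number
  obtain ⟨δ, hδ0, hδt, hδε⟩ : ∃ δ : ℝ≥0∞, 0 < δ ∧ δ ≠ ⊤ ∧ δ + (3 * δ + δ + δ) ≤ ε := by
    refine ⟨min (ε / 6) 1, lt_min (ENNReal.div_pos hε.ne' (by norm_num)) one_pos,
      (lt_of_le_of_lt (min_le_right _ _) ENNReal.one_lt_top).ne, ?_⟩
    have h6 : min (ε / 6) 1 + (3 * min (ε / 6) 1 + min (ε / 6) 1 + min (ε / 6) 1) =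
        6 * min (ε / 6) 1 := by ring
    rw [h6]
    calc 6 * min (ε / 6) 1 ≤ 6 * (ε / 6) := by gcongr; exact min_le_left _ _
      _ = ε := ENNReal.mul_div_cancel (by norm_num) (by norm_num)
  -- finite unions
  set F : ℕ → Set (Om X T) := fun N => ⋃ n ∈ Finset.range N, E n with hFdef
  have hFmono : Monotone F := by
    intro M N h
    refine Set.iUnion₂_subset fun n hn => ?_
    exact Set.subset_biUnion_of_mem (u := fun n => E n)
      (Finset.mem_coe.2 (Finset.range_mono h hn))
  have hFgood : ∀ N, Good f ν S (F N) := by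
    intro N
    induction N with
    | zero =>
      have e : F 0 = ∅ := by simp [hFdef]
      rw [e]
      exact good_empty hALG
    | succ N ih =>
      have e : F (N + 1) = E N ∪ F N := by
        simp only [hFdef]
        rw [Finset.range_add_one, Finset.set_biUnion_insert]
      rw [e]
      exact good_union hALG (hE N) ih
  have hFU : (⋃ n, E n) = ⋃ N, F N := by
    apply Set.Subset.antisymm
    · refine Set.iUnion_subset fun n => ?_
      refine Set.Subset.trans ?_ (Set.subset_iUnion F (n + 1))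
      exact Set.subset_biUnion_of_mem (u := fun n => E n)
        (Finset.mem_coe.2 (Finset.self_mem_range_succ n))
    · refine Set.iUnion_subset fun N => Set.iUnion₂_subset fun n _ => ?_
      exact Set.subset_iUnion E n
  choose a ha1 ha2 ha3 using fun N => hFgood N δ hδ0
  have hms : ∀ᶠ x in f, ∀ N, Ms ν Set.univ (sec (F N) x) := by
    rw [eventually_countable_forall]
    intro N
    filter_upwards [good_ms (hFgood N)] with x hx
    exact alg6 ν Set.univ _ (Set.subset_univ S) hx
  have hap : ∀ᶠ x in f, ∀ N, mu ν (symmDiff (sec (F N) x) (a N x)) ≤ δ :=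
    eventually_countable_forall.2 ha3
  -- the choice of the number
  let Q : X → ℕ → Prop := fun x n => ∀ M, n ≤ M → ν (a M x \ a n x) ≤ 3 * δ.toReal
  have hQm : ∀ n, MeasurableSet {x | Q x n} := by
    intro n
    have e : {x | Q x n} = ⋂ M, {x | n ≤ M → ν (a M x \ a n x) ≤ 3 * δ.toReal} := by
      ext x
      exact ⟨fun h => Set.mem_iInter.2 h, fun h => Set.mem_iInter.1 h⟩
    rw [e]
    refine MeasurableSet.iInter fun M => ?_
    exact ((ha1 M).pair (ha1 n)).pred fun p => n ≤ M → ν (p.1 \ p.2) ≤ 3 * δ.toReal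
  let R : X → ℕ → Prop := fun x n => Q x n ∨ ∀ m, ¬ Q x m
  have hR : ∀ x, ∃ n, R x n := by
    intro x
    by_cases h : ∃ n, Q x n
    · obtain ⟨n, hn⟩ := h
      exact ⟨n, Or.inl hn⟩
    · exact ⟨0, Or.inr (not_exists.1 h)⟩
  have hRm : ∀ n, MeasurableSet {x | R x n} := by
    intro n
    have e : {x | R x n} = {x | Q x n} ∪ ⋂ m, {x | Q x m}ᶜ := by
      ext x
      constructor
      · rintro (h | h)
        · exact Or.inl h
        · exact Or.inr (Set.mem_iInter.2 h)
      · rintro (h | h)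
        · exact Or.inl h
        · exact Or.inr (Set.mem_iInter.1 h)
    rw [e]
    exact (hQm n).union (MeasurableSet.iInter fun m => (hQm m).compl)
  have hNm : Measurable fun x => Nat.find (hR x) := measurable_find hR hRm
  refine ⟨fun x => a (Nat.find (hR x)) x, SF.sel ha1 hNm, fun x => ha2 _ x, ?_⟩
  filter_upwards [hms, hap] with x hx1 hx2
  have hG : Monotone fun N => sec (F N) x := fun M N h z hz => hFmono h hz
  obtain ⟨hc1, -⟩ := hCON K T ν hν (fun N => sec (F N) x) hG hx1
  have hex : ∃ n, Q x n := by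
    obtain ⟨n, hn⟩ := hc1 δ hδ0
    refine ⟨n, fun M hM => ?_⟩
    have hcl : Cl Set.univ (a M x \ a n x) :=
      alg4 Set.univ _ (Set.subset_univ S) (alg3 _ _ (ha2 M x) (ha2 n x)).2.2
    have hsub : a M x \ a n x ⊆ ((⋃ N, sec (F N) x) \ sec (F n) x) ∪
        symmDiff (sec (F M) x) (a M x) ∪ symmDiff (sec (F n) x) (a n x) := by
      rintro z ⟨hz1, hz2⟩
      by_cases h1 : z ∈ sec (F M) x
      · by_cases h2 : z ∈ sec (F n) x
        · exact Or.inr (Or.inl ⟨h2, hz2⟩)
        · exact Or.inl (Or.inl ⟨Set.mem_iUnion.2 ⟨M, h1⟩, h2⟩)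
      · exact Or.inl (Or.inr (Or.inr ⟨hz1, h1⟩))
    have hle : mu ν (a M x \ a n x) ≤ 3 * δ := by
      calc mu ν (a M x \ a n x)
          ≤ mu ν (((⋃ N, sec (F N) x) \ sec (F n) x) ∪
            symmDiff (sec (F M) x) (a M x) ∪ symmDiff (sec (F n) x) (a n x)) :=
            MeasureTheory.measure_mono hsub
        _ ≤ mu ν ((⋃ N, sec (F N) x) \ sec (F n) x) +
            mu ν (symmDiff (sec (F M) x) (a M x)) + mu ν (symmDiff (sec (F n) x) (a n x)) :=
            (MeasureTheory.measure_union_le _ _).trans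
              (add_le_add (MeasureTheory.measure_union_le _ _) le_rfl)
        _ ≤ δ + δ + δ := add_le_add (add_le_add hn (hx2 M)) (hx2 n)
        _ = 3 * δ := by ring
    rw [hMUC K T ν hν _ hcl, ENNReal.ofReal_le_iff_le_toReal
      (ENNReal.mul_ne_top (by norm_num) hδt), ENNReal.toReal_mul] at hle
    simpa using hle
  have hQ : Q x (Nat.find (hR x)) := by
    rcases Nat.find_spec (hR x) with h | h
    · exact h
    · obtain ⟨n, hn⟩ := hex
      exact (h n hn).elim
  set n := Nat.find (hR x) with hn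
  -- the difference
  have hD : ∀ M, mu ν (sec (F M) x \ sec (F n) x) ≤ 3 * δ + δ + δ := by
    intro M
    rcases le_total n M with hM | hM
    · have hcl : Cl Set.univ (a M x \ a n x) :=
        alg4 Set.univ _ (Set.subset_univ S) (alg3 _ _ (ha2 M x) (ha2 n x)).2.2
      have h1 : mu ν (a M x \ a n x) ≤ 3 * δ := by
        rw [hMUC K T ν hν _ hcl, ENNReal.ofReal_le_iff_le_toReal
          (ENNReal.mul_ne_top (by norm_num) hδt), ENNReal.toReal_mul]
        simpa using hQ M hM
      have hsub : sec (F M) x \ sec (F n) x ⊆ (a M x \ a n x) ∪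
          symmDiff (sec (F M) x) (a M x) ∪ symmDiff (sec (F n) x) (a n x) := by
        rintro z ⟨hz1, hz2⟩
        by_cases h1 : z ∈ a M x
        · by_cases h2 : z ∈ a n x
          · exact Or.inr (Or.inr ⟨h2, hz2⟩)
          · exact Or.inl (Or.inl ⟨h1, h2⟩)
        · exact Or.inl (Or.inr (Or.inl ⟨hz1, h1⟩))
      calc mu ν (sec (F M) x \ sec (F n) x)
          ≤ mu ν ((a M x \ a n x) ∪
            symmDiff (sec (F M) x) (a M x) ∪ symmDiff (sec (F n) x) (a n x)) :=
            MeasureTheory.measure_mono hsub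
        _ ≤ mu ν (a M x \ a n x) +
            mu ν (symmDiff (sec (F M) x) (a M x)) + mu ν (symmDiff (sec (F n) x) (a n x)) :=
            (MeasureTheory.measure_union_le _ _).trans
              (add_le_add (MeasureTheory.measure_union_le _ _) le_rfl)
        _ ≤ 3 * δ + δ + δ := add_le_add (add_le_add h1 (hx2 M)) (hx2 n)
    · have e : sec (F M) x \ sec (F n) x = ∅ :=
        Set.sdiff_eq_empty.2 fun z hz => hFmono hM hz
      rw [e]
      exact (MeasureTheory.measure_empty (μ := mu ν)).le.trans zero_le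
  have hGm : Monotone fun M => sec (F M) x \ sec (F n) x :=
    fun M N h => Set.sdiff_subset_sdiff_left (hG h)
  obtain ⟨-, hc2⟩ := hCON K T ν hν (fun M => sec (F M) x \ sec (F n) x) hGm fun M =>
    ((hALG K T Set.univ).2.2.2.2.2.2.2.2 ν _ _ (hx1 M) (hx1 n)).2.2
  have h5 := hc2 _ hD
  have hsub : symmDiff (sec (⋃ N, E N) x) (a n x) ⊆ symmDiff (sec (F n) x) (a n x) ∪
      ⋃ M, (sec (F M) x \ sec (F n) x) := by
    rw [hFU]
    rintro z (⟨hz1, hz2⟩ | ⟨hz1, hz2⟩)
    · obtain ⟨M, hM⟩ := Set.mem_iUnion.1 (show ((x, z) : Om X T) ∈ ⋃ N, F N from hz1)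
      by_cases h2 : z ∈ sec (F n) x
      · exact Or.inl (Or.inl ⟨h2, hz2⟩)
      · exact Or.inr (Set.mem_iUnion.2 ⟨M, hM, h2⟩)
    · refine Or.inl (Or.inr ⟨hz1, fun h => hz2 ?_⟩)
      exact Set.mem_iUnion.2 ⟨n, h⟩
  calc mu ν (symmDiff (sec (⋃ N, E N) x) (a n x))
      ≤ mu ν (symmDiff (sec (F n) x) (a n x) ∪ ⋃ M, (sec (F M) x \ sec (F n) x)) :=
        MeasureTheory.measure_mono hsub
    _ ≤ mu ν (symmDiff (sec (F n) x) (a n x)) + mu ν (⋃ M, (sec (F M) x \ sec (F n) x)) :=
        MeasureTheory.measure_union_le _ _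
    _ ≤ δ + (3 * δ + δ + δ) := add_le_add (hx2 n) h5
    _ ≤ ε := hδε

end

end APX_

open APX_ in
theorem p_APX (hCON : T_CON) (hALG : T_ALG) (hMUC : T_MUC) : T_APX := by
  intro X _ f hf K T _ ν hν S E hE
  have hgood : Good f ν S E := by
    refine MeasurableSpace.generateFrom_induction _ (fun E _ => Good f ν S E) ?_ ?_ ?_ ?_ E hE
    · rintro E (⟨A, hA, rfl⟩ | ⟨k, hk, t, rfl⟩) _ ε hε
      · refine ⟨fun x => if x ∈ A then Set.univ else ∅, ⟨?_, ?_⟩, ?_, ?_⟩
        · refine ((Set.countable_singleton (∅ : Set (Pt T))).insert Set.univ).mono ?_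
          rintro _ ⟨x, rfl⟩
          show (if x ∈ A then Set.univ else ∅) ∈ ({Set.univ, ∅} : Set (Set (Pt T)))
          split_ifs
          · exact Or.inl rfl
          · exact Or.inr rfl
        · intro b
          have e : {x | (if x ∈ A then (Set.univ : Set (Pt T)) else ∅) = b} =
              (A ∩ {x | (Set.univ : Set (Pt T)) = b}) ∪ (Aᶜ ∩ {x | (∅ : Set (Pt T)) = b}) := by
            ext x
            by_cases hx : x ∈ A
            · simp [hx]
            · simp [hx]
          rw [e]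
          exact (hA.inter (MeasurableSet.const _)).union
            (hA.compl.inter (MeasurableSet.const _))
        · intro x
          show Cl S (if x ∈ A then Set.univ else ∅)
          split_ifs
          · exact (hALG K T S).1.2
          · exact (hALG K T S).1.1
        · refine Eventually.of_forall fun x => ?_
          have e : sec ({p : Om X T | p.1 ∈ A}) x = if x ∈ A then Set.univ else ∅ := by
            ext z
            by_cases hx : x ∈ A
            · rw [if_pos hx]
              exact ⟨fun _ => trivial, fun _ => hx⟩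
            · rw [if_neg hx]
              exact ⟨fun h => (hx h).elim, fun h => h.elim⟩
          rw [e, symmDiff_self]
          exact (MeasureTheory.measure_empty (μ := mu ν)).le.trans zero_le
      · refine ⟨fun _ => {z : Pt T | z k = t}, SF.const _,
          fun _ => (hALG K T S).2.2.2.2.1 k hk t, Eventually.of_forall fun x => ?_⟩
        have e : sec ({p : Om X T | p.2 k = t}) x = {z : Pt T | z k = t} := rfl
        rw [e, symmDiff_self]
        exact (MeasureTheory.measure_empty (μ := mu ν)).le.trans zero_le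
    · exact good_empty hALG
    · intro E _ hE' ε hε
      obtain ⟨a, ha1, ha2, ha3⟩ := hE' ε hε
      refine ⟨fun x => (a x)ᶜ, ha1.comp fun u => uᶜ, fun x => (hALG K T S).2.1 _ (ha2 x), ?_⟩
      filter_upwards [ha3] with x hx
      have e : sec Eᶜ x = (sec E x)ᶜ := rfl
      rw [e, compl_symmDiff_compl]
      exact hx
    · intro E _ hE'
      exact good_iUnion hCON hALG hMUC hf hν hE'
  intro ε hε
  obtain ⟨a, ha1, ha2, ha3⟩ := hgood ε hε
  exact ⟨a, ha1.1, ha2, ha1.2, ha3⟩

end Pool.Agent.SNC
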