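import Pool.Agent.SNC.T1

/-!
# MP_3e8648_lc, case b, Part II: measurable sets depend on countably many coordinates
-/

set_option autoImplicit false

open scoped Classical ENNReal MeasureTheory
open Filter CofSN

namespace Pool.Agent.SNC

namespace CNT_

theorem sig_mono {X : Type} [MeasurableSpace X] {K : Type} {T : K → Type} {S S' : Set K}
    (h : S ⊆ S') : sig X T S ≤ sig X T S' := by
  apply MeasurableSpace.generateFrom_mono
  rintro E (hE | ⟨k, hk, t, hE⟩)
  · exact Or.inl hE
  · exact Or.inr ⟨k, h hk, t, hE⟩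

theorem exists_countable {X : Type} [MeasurableSpace X] {K : Type} {T : K → Type} (S : Set K)
    (E : Set (Om X T)) (hE : MeasurableSet[sig X T S] E) :
    ∃ C ⊆ S, C.Countable ∧ MeasurableSet[sig X T C] E := by
  induction E, hE using MeasurableSpace.generateFrom_induction with
  | hC E hE _ =>
    rcases hE with ⟨A, hA, h⟩ | ⟨k, hk, t, h⟩
    · exact ⟨∅, Set.empty_subset _, Set.countable_empty,
        MeasurableSpace.measurableSet_generateFrom (Or.inl ⟨A, hA, h⟩)⟩
    · exact ⟨{k}, Set.singleton_subset_iff.2 hk, Set.countable_singleton k,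
        MeasurableSpace.measurableSet_generateFrom (Or.inr ⟨k, rfl, t, h⟩)⟩
  | empty => exact ⟨∅, Set.empty_subset _, Set.countable_empty, @MeasurableSet.empty _ (sig X T ∅)⟩
  | compl E _ ih =>
    obtain ⟨C, h1, h2, h3⟩ := ih
    exact ⟨C, h1, h2, @MeasurableSet.compl _ _ (sig X T C) h3⟩
  | iUnion s _ ih =>
    choose C h1 h2 h3 using ih
    exact ⟨⋃ n, C n, Set.iUnion_subset h1, Set.countable_iUnion h2,
      @MeasurableSet.iUnion _ _ (sig X T (⋃ n, C n)) _ _
        fun n => sig_mono (Set.subset_iUnion C n) _ (h3 n)⟩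

end CNT_

/-- Measurable sets depend on countably many coordinates. -/
theorem p_CNT : T_CNT := by
  intro X _ K T
  exact ⟨fun S S' h => CNT_.sig_mono h, fun S E hE => CNT_.exists_countable S E hE⟩

end Pool.Agent.SNC
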