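import Pool.Agent.SNC.T1

/-!
# MP_3e8648_lc, case b, Part II: continuity of the outer measure
-/

set_option autoImplicit false

open scoped ENNReal
open Filter

noncomputable section

namespace Pool.Agent.SNC

namespace CON_

variable {K : Type} {T : K → Type} [∀ k, Fintype (T k)] {ν : Set (Pt T) → ℝ}

/-- the differences are eventually small -/
theorem cauchy (h_MEX : T_MEX) (h_ALG : T_ALG) (hν : SubM T ν) {F : ℕ → Set (Pt T)}
    (hF : Monotone F) (hM : ∀ i, Ms ν Set.univ (F i)) {η : ℝ≥0∞} (hη : 0 < η) :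
    ∃ N, ∀ M ≥ N, mu ν (F M \ F N) ≤ η := by
  by_contra hno
  push Not at hno
  choose φ hφ1 hφ2 using hno
  let n : ℕ → ℕ := fun i => Nat.rec 0 (fun _ x => φ x) i
  have hn : ∀ i, n (i + 1) = φ (n i) := fun i => rfl
  have hmono : Monotone n := monotone_nat_of_le_succ fun i => by
    rw [hn]
    exact hφ1 _
  have hd : ∀ i j, i < j → (F (n (i + 1)) \ F (n i)) ∩ (F (n (j + 1)) \ F (n j)) = ∅ := by
    intro i j hij
    refine Set.eq_empty_of_forall_notMem fun z hz => ?_
    exact hz.2.2 (hF (hmono (Nat.succ_le_of_lt hij)) hz.1.1)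
  obtain ⟨i₀, hi₀⟩ := h_MEX K T ν hν (fun i => F (n (i + 1)) \ F (n i))
    (fun i => ((h_ALG K T Set.univ).2.2.2.2.2.2.2.2 ν _ _ (hM _) (hM _)).2.2)
    (fun i j hij => by
      rcases lt_or_gt_of_ne hij with h | h
      · rw [hd i j h]
        exact MeasureTheory.measure_empty
      · rw [Set.inter_comm, hd j i h]
        exact MeasureTheory.measure_empty) η hη
  have h1 := hi₀ i₀ le_rfl
  have h2 := hφ2 (n i₀)
  rw [← hn] at h2
  exact absurd h1 (not_le.2 h2)

end CON_

open CON_ in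
/-- CON -/
theorem p_CON (h_MEX : T_MEX) (h_ALG : T_ALG) : T_CON := by
  intro K T _ ν hν F hF hM
  have ha : ∀ ε : ℝ≥0∞, 0 < ε → ∃ N, mu ν ((⋃ n, F n) \ F N) ≤ ε := by
    intro ε hε
    obtain ⟨η, hη, hsum⟩ := ENNReal.exists_pos_sum_of_countable' hε.ne' ℕ
    have h1 := fun j => cauchy h_MEX h_ALG hν hF hM (hη j)
    choose N hN using h1
    let M : ℕ → ℕ := fun j => j + ∑ i ∈ Finset.range (j + 1), N i
    have hNM : ∀ j, N j ≤ M j := fun j =>
      (Finset.single_le_sum (f := N) (fun _ _ => Nat.zero_le _)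
        (Finset.self_mem_range_succ j)).trans (Nat.le_add_left _ _)
    have hMs : ∀ j, M j ≤ M (j + 1) := fun j => by
      have h2 : ∑ i ∈ Finset.range (j + 1 + 1), N i =
        ∑ i ∈ Finset.range (j + 1), N i + N (j + 1) := Finset.sum_range_succ _ _
      show j + ∑ i ∈ Finset.range (j + 1), N i ≤ (j + 1) + ∑ i ∈ Finset.range (j + 1 + 1), N i
      omega
    refine ⟨M 0, ?_⟩
    have hsub : (⋃ n, F n) \ F (M 0) ⊆ ⋃ j, (F (M (j + 1)) \ F (M j)) := by
      rintro z ⟨hz, hz0⟩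
      obtain ⟨n, hn⟩ := Set.mem_iUnion.1 hz
      have hex : ∃ j, z ∈ F (M j) := ⟨n, hF (Nat.le_add_right _ _) hn⟩
      classical
      have h3 : Nat.find hex ≠ 0 := by
        intro h0
        have h4 := Nat.find_spec hex
        rw [h0] at h4
        exact hz0 h4
      obtain ⟨j, hj⟩ := Nat.exists_eq_succ_of_ne_zero h3
      refine Set.mem_iUnion.2 ⟨j, ?_, ?_⟩
      · have h4 := Nat.find_spec hex
        rw [hj] at h4
        exact h4
      · exact Nat.find_min hex (by omega)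
    calc mu ν ((⋃ n, F n) \ F (M 0)) ≤ mu ν (⋃ j, (F (M (j + 1)) \ F (M j))) :=
          MeasureTheory.measure_mono hsub
      _ ≤ ∑' j, mu ν (F (M (j + 1)) \ F (M j)) := MeasureTheory.measure_iUnion_le _
      _ ≤ ∑' j, η j := by
          refine ENNReal.tsum_le_tsum fun j => ?_
          refine le_trans (MeasureTheory.measure_mono ?_)
            (hN j (M (j + 1)) ((hNM j).trans (hMs j)))
          exact Set.sdiff_subset_sdiff_right (hF (hNM j))
      _ ≤ ε := hsum.le
  refine ⟨ha, fun c hc => ?_⟩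
  refine ENNReal.le_of_forall_pos_le_add fun ε hε _ => ?_
  obtain ⟨N, hN⟩ := ha ε (by exact_mod_cast hε)
  have h1 : (⋃ n, F n) ⊆ F N ∪ ((⋃ n, F n) \ F N) := by
    intro z hz
    by_cases h : z ∈ F N
    · exact Or.inl h
    · exact Or.inr ⟨hz, h⟩
  calc mu ν (⋃ n, F n) ≤ mu ν (F N ∪ ((⋃ n, F n) \ F N)) := MeasureTheory.measure_mono h1
    _ ≤ mu ν (F N) + mu ν ((⋃ n, F n) \ F N) := MeasureTheory.measure_union_le _ _
    _ ≤ c + ε := add_le_add (hc N) hN

end Pool.Agent.SNC
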