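import Pool.Agent.SNC.T1

/-!
# SNC-CPC: compactness of the product
-/

set_option autoImplicit false

open scoped ENNReal

namespace Pool.Agent.SNC

theorem CPC_.isOpen (K : Type) (T : K → Type) [∀ k, TopologicalSpace (T k)]
    [∀ k, DiscreteTopology (T k)] (X : Set (Pt T)) (h : Cl Set.univ X) : IsOpen X := by
  obtain ⟨F, -, hF⟩ := h
  rw [isOpen_iff_forall_mem_open]
  intro z hz
  refine ⟨{w : Pt T | ∀ k ∈ F, w k = z k}, ?_, ?_, fun k _ => rfl⟩
  · intro w hw
    exact (hF z w fun k hk => (hw k hk).symm).1 hz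
  · have h1 : {w : Pt T | ∀ k ∈ F, w k = z k} = ⋂ k ∈ F, (fun w : Pt T => w k) ⁻¹' {z k} := by
      ext w
      simp
    rw [h1]
    exact isOpen_biInter_finset fun k _ => (isOpen_discrete _).preimage (continuous_apply k)

theorem CPC_.compl (K : Type) (T : K → Type) (X : Set (Pt T)) (h : Cl Set.univ X) :
    Cl Set.univ Xᶜ := by
  obtain ⟨F, h1, hF⟩ := h
  exact ⟨F, h1, fun z w hzw => not_congr (hF z w hzw)⟩

/-- `T_CPC` -/
theorem p_CPC : T_CPC := by
  intro K T _ a b ha hb hab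
  let _ : ∀ k, TopologicalSpace (T k) := fun _ => ⊥
  have : ∀ k, DiscreteTopology (T k) := fun _ => ⟨rfl⟩
  have hc : IsCompact a := by
    have h1 : IsClosed a := ⟨CPC_.isOpen K T _ (CPC_.compl K T a ha)⟩
    exact h1.isCompact
  obtain ⟨t, ht⟩ := hc.elim_finite_subcover b (fun n => CPC_.isOpen K T _ (hb n)) hab
  refine ⟨t.sup id + 1, ht.trans ?_⟩
  intro z hz
  simp only [Set.mem_iUnion] at hz ⊢
  obtain ⟨n, hn, hz⟩ := hz
  refine ⟨n, ?_, hz⟩
  rw [Finset.mem_range]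
  have : n ≤ t.sup id := Finset.le_sup (f := id) hn
  omega

end Pool.Agent.SNC
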