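import Pool.Agent.SNC.T1

/-!
# SNC-CSO: the space of the model is ccc
-/

set_option autoImplicit false
set_option linter.unusedVariables false

open scoped Classical ENNReal MeasureTheory
open Filter CofSN

noncomputable section

namespace Pool.Agent.SNC

namespace CSO_

lemma cl_univ {K : Type} {T : K → Type} : Cl Set.univ (Set.univ : Set (Pt T)) :=
  ⟨∅, by simp, fun _ _ _ => Iff.rfl⟩

lemma ar1 {η u v : ℝ≥0∞} (h0 : η ≠ 0) (ht : η ≠ ⊤) (h1 : 8 * η < u) (h2 : u ≤ v + 2 * η) :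
    4 * η ≤ v := by
  by_contra h
  rw [not_le] at h
  have ht2 : 2 * η ≠ ⊤ := ENNReal.mul_ne_top (by norm_num) ht
  have h3 : v + 2 * η < 4 * η + 2 * η := ENNReal.add_lt_add_right ht2 h
  have h4 : 4 * η + 2 * η ≤ 8 * η := by
    rw [← add_mul]
    refine mul_le_mul_left ?_ η
    norm_num
  exact absurd (h1.trans_le (h2.trans (h3.le.trans h4))) (lt_irrefl _)

lemma ar2 {η u v : ℝ≥0∞} (h0 : η ≠ 0) (ht : η ≠ ⊤) (h1 : 4 * η ≤ v) (h2 : v ≤ u + 2 * η)
    (h3 : u ≤ η) : False := by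
  have h4 : (4 : ℝ≥0∞) * η ≤ 3 * η := by
    refine h1.trans (h2.trans ?_)
    have h5 : (3 : ℝ≥0∞) * η = η + 2 * η := by ring
    rw [h5]
    exact add_le_add_left h3 _
  lift η to NNReal using ht
  have h0' : η ≠ 0 := by exact_mod_cast h0
  have h6 : (4 : NNReal) * η ≤ 3 * η := by exact_mod_cast h4
  have h7 : (0 : ℝ) < η := by
    have := pos_iff_ne_zero.2 h0'
    exact_mod_cast this
  have h8 : (4 : ℝ) * η ≤ 3 * η := by exact_mod_cast h6
  linarith

end CSO_

open CSO_ in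
/-- SNC-CSO -/
theorem p_CSO (hINF : T_INF) (hAPX : T_APX) (hSMS : T_SMS) (hMEX : T_MEX) (hMUC : T_MUC) :
    T_CSO := by
  intro X _ f hX K T _ ν hν
  have := hX.nb
  have := hX.ci
  refine ⟨?_, ?_, ?_⟩
  · -- not bottom
    refine ⟨fun h => ?_⟩
    have h1 : (∅ : Set (Om X T)) ∈ NN f ν := by rw [h]; exact Filter.mem_bot
    have h2 : ∀ᶠ x in f, mu ν (sec (∅ : Set (Om X T)) x)ᶜ = 0 := h1
    obtain ⟨x, hx⟩ := h2.exists
    have h3 : (sec (∅ : Set (Om X T)) x)ᶜ = Set.univ := by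
      rw [Set.compl_univ_iff]
      ext z
      exact Iff.rfl
    rw [h3, hMUC K T ν hν Set.univ cl_univ, ENNReal.ofReal_eq_zero] at hx
    linarith [hν.one]
  · -- countable intersections
    refine ⟨fun S hS hSm => ?_⟩
    have h1 : ∀ᶠ x in f, ∀ s ∈ S, mu ν (sec s x)ᶜ = 0 :=
      (eventually_countable_ball hS).2 fun s hs => hSm s hs
    show ∀ᶠ x in f, mu ν (sec (⋂₀ S) x)ᶜ = 0
    refine h1.mono fun x hx => ?_
    have h2 : (sec (⋂₀ S) x)ᶜ ⊆ ⋃ s ∈ S, (sec s x)ᶜ := by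
      intro z hz
      have h3 : ¬ ∀ s ∈ S, ((x, z) : Om X T) ∈ s := hz
      push Not at h3
      obtain ⟨s, hs, h4⟩ := h3
      exact Set.mem_iUnion₂.2 ⟨s, hs, h4⟩
    exact MeasureTheory.measure_mono_null h2 ((MeasureTheory.measure_biUnion_null_iff hS).2 hx)
  · -- ccc
    intro ι E hE hd hf
    by_contra hι
    -- the size of the sets
    have h1 : ∀ i, ∃ m : ℕ, ∃ᶠ x in f, (2⁻¹ : ℝ≥0∞) ^ m < mu ν (sec (E i) x) := by
      intro i
      by_contra hcon
      push Not at hcon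
      have h2 : ∀ᶠ x in f, ∀ m : ℕ, ¬ (2⁻¹ : ℝ≥0∞) ^ m < mu ν (sec (E i) x) := by
        rw [eventually_countable_forall]
        intro m
        exact (hcon m).mono fun x hx => not_lt.2 hx
      refine hf i ?_
      show ∀ᶠ ω in NN f ν, ¬ ω ∈ E i
      rw [mem_NN]
      refine h2.mono fun x hx => ?_
      have h4 : Tendsto (fun m : ℕ => (2⁻¹ : ℝ≥0∞) ^ m) atTop (nhds 0) :=
        ENNReal.tendsto_pow_atTop_nhds_zero_of_lt_one (by norm_num)
      have h5 : mu ν (sec (E i) x) = 0 :=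
        le_antisymm (ge_of_tendsto' h4 fun m => not_lt.1 (hx m)) zero_le
      exact MeasureTheory.measure_mono_null (fun z hz => not_not.1 hz) h5
    choose m hm using h1
    obtain ⟨m₀, hm₀⟩ : ∃ m₀ : ℕ, ¬ {i | m i = m₀}.Countable := by
      by_contra hcon
      push Not at hcon
      refine hι ?_
      rw [← Set.countable_univ_iff]
      have h2 : (Set.univ : Set ι) = ⋃ m₀ : ℕ, {i | m i = m₀} := by
        ext i
        simp
      rw [h2]
      exact Set.countable_iUnion hcon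
    set η : ℝ≥0∞ := (2⁻¹ : ℝ≥0∞) ^ (m₀ + 3) with hη
    have hη0 : η ≠ 0 := pow_ne_zero _ (by norm_num)
    have hηt : η ≠ ⊤ := ENNReal.pow_ne_top (by norm_num)
    have hη8 : 8 * η = (2⁻¹ : ℝ≥0∞) ^ m₀ := by
      have h8 : (8 : ℝ≥0∞) * (2⁻¹ : ℝ≥0∞) ^ 3 = 1 := by
        have : (8 : ℝ≥0∞) = 2 ^ 3 := by norm_num
        rw [this, ← mul_pow, ENNReal.mul_inv_cancel (by norm_num) (by norm_num), one_pow]
      rw [hη, pow_add, mul_comm ((2⁻¹ : ℝ≥0∞) ^ m₀), ← mul_assoc, h8, one_mul]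
    have hε : (0 : ℝ≥0∞) < 2 * η := by
      rw [pos_iff_ne_zero]
      exact mul_ne_zero (by norm_num) hη0
    have hap := fun i => hAPX X f hX K T ν hν Set.univ (E i) (hE i) (2 * η) hε
    choose a ha1 ha2 ha3 ha4 using hap
    let b : {i // m i = m₀} → Set X := fun i => {x | 4 * η ≤ mu ν (a i.1 x)}
    have hbm : ∀ i, MeasurableSet (b i) := by
      intro i
      have h2 : b i = ⋃ c ∈ {c | c ∈ Set.range (a i.1) ∧ 4 * η ≤ mu ν c}, {x | a i.1 x = c} := by
        ext x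
        rw [Set.mem_iUnion₂]
        constructor
        · intro hx
          exact ⟨a i.1 x, ⟨⟨x, rfl⟩, hx⟩, rfl⟩
        · rintro ⟨c, ⟨_, hc⟩, hx⟩
          have h3 : a i.1 x = c := hx
          show 4 * η ≤ mu ν (a i.1 x)
          rw [h3]
          exact hc
      rw [h2]
      refine MeasurableSet.biUnion ?_ fun c _ => ha3 i.1 c
      exact (ha1 i.1).mono fun c hc => hc.1
    have hsub : ∀ (A B : Set (Pt T)), mu ν A ≤ mu ν B + mu ν (symmDiff A B) := by
      intro A B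
      refine (MeasureTheory.measure_mono (fun z hz => ?_)).trans
        (MeasureTheory.measure_union_le B (symmDiff A B))
      by_cases h : z ∈ B
      · exact Or.inl h
      · exact Or.inr (Or.inl ⟨hz, h⟩)
    have hbf : ∀ i, ∃ᶠ x in f, x ∈ b i := by
      intro i
      have h2 := hm i.1
      rw [i.2] at h2
      refine (h2.and_eventually (ha4 i.1)).mono fun x hx => ?_
      have h3 := hx.1
      rw [← hη8] at h3
      refine ar1 hη0 hηt h3 ((hsub _ (a i.1 x)).trans ?_)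
      exact add_le_add_right hx.2 _
    obtain ⟨J, hJ, hJf⟩ := hINF X f hX {i // m i = m₀} b (fun h => hm₀ h) hbm hbf
    have e1 : ∀ᶠ x in f, ∀ i ∈ J, mu ν (symmDiff (sec (E i.1) x) (a i.1 x)) ≤ 2 * η :=
      (eventually_countable_ball hJ).2 fun i _ => ha4 i.1
    have e2 : ∀ᶠ x in f, ∀ i ∈ J, Ms ν Set.univ (sec (E i.1) x) :=
      (eventually_countable_ball hJ).2 fun i _ => hSMS X f hX K T ν hν Set.univ (E i.1) (hE i.1)
    have e3 : ∀ᶠ x in f, ∀ i ∈ J, ∀ j ∈ J, i ≠ j →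
        mu ν (sec (E i.1) x ∩ sec (E j.1) x) = 0 := by
      refine (eventually_countable_ball hJ).2 fun i _ => (eventually_countable_ball hJ).2 fun j _ => ?_
      by_cases hij : i = j
      · exact Eventually.of_forall fun x h => absurd hij h
      · have h2 := hd i.1 j.1 (fun h => hij (Subtype.ext h))
        rw [mem_NN] at h2
        refine h2.mono fun x hx _ => ?_
        exact MeasureTheory.measure_mono_null (fun z hz => not_not.2 ⟨hz.1, hz.2⟩) hx
    obtain ⟨x, hinf, hx1, hx2, hx3⟩ := (hJf.and_eventually (e1.and (e2.and e3))).exists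
    let g := hinf.natEmbedding
    obtain ⟨i₀, hi₀⟩ := hMEX K T ν hν (fun n => sec (E (g n).1.1) x)
      (fun n => hx2 _ (g n).2.1)
      (fun n k hnk => hx3 _ (g n).2.1 _ (g k).2.1 (fun h => hnk (g.injective (Subtype.ext h))))
      η (pos_iff_ne_zero.2 hη0)
    have h5 := hi₀ i₀ le_rfl
    have h6 : 4 * η ≤ mu ν (a (g i₀).1.1 x) := (g i₀).2.2
    refine ar2 hη0 hηt h6 ((hsub _ (sec (E (g i₀).1.1) x)).trans ?_) h5
    rw [symmDiff_comm]
    exact add_le_add_right (hx1 _ (g i₀).2.1) _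

end Pool.Agent.SNC
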