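import Pool.Agent.SNC.T1

/-!
# SNC: DOM, functions of the extension are bounded by functions of the ground space
-/

set_option autoImplicit false
set_option linter.unusedVariables false

open scoped Classical ENNReal MeasureTheory
open Filter CofSN

noncomputable section

namespace Pool.Agent.SNC

namespace DOM_

/-- the precisions -/
def ee (n : ℕ) : ℝ≥0∞ := (2 : ℝ≥0∞)⁻¹ * (2 : ℝ≥0∞)⁻¹ ^ n

theorem ee_pos (n : ℕ) : 0 < ee n := by
  unfold ee
  have h : (0 : ℝ≥0∞) < (2 : ℝ≥0∞)⁻¹ := by simp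
  exact ENNReal.mul_pos h.ne' (ENNReal.pow_pos h n).ne'

theorem tsum_ee : ∑' n, (3 : ℝ≥0∞) * ee n ≠ ∞ := by
  unfold ee
  rw [ENNReal.tsum_mul_left, ENNReal.tsum_mul_left, ENNReal.tsum_geometric]
  have h1 : (1 - (2 : ℝ≥0∞)⁻¹)⁻¹ ≠ ∞ := by
    rw [ENNReal.one_sub_inv_two, inv_inv]
    simp
  exact ENNReal.mul_ne_top (by simp) (ENNReal.mul_ne_top (by simp) h1)

theorem meas_pred {X β : Type} [MeasurableSpace X] (a : X → β) (hr : (Set.range a).Countable)
    (hm : ∀ b, MeasurableSet {x | a x = b}) (P : β → Prop) : MeasurableSet {x | P (a x)} := by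
  have e : {x | P (a x)} = ⋃ b ∈ (Set.range a ∩ {b | P b}), {x | a x = b} := by
    ext x
    simp only [Set.mem_ofPred_eq, Set.mem_iUnion, Set.mem_inter_iff, Set.mem_range, exists_prop]
    constructor
    · intro h
      exact ⟨a x, ⟨⟨x, rfl⟩, h⟩, rfl⟩
    · rintro ⟨b, ⟨-, h⟩, rfl⟩
      exact h
  rw [e]
  exact MeasurableSet.biUnion (hr.mono Set.inter_subset_left) fun b _ => hm b

/-- the least number with the property, or zero -/
def lst (Q : ℕ → Prop) : ℕ := if h : ∃ M, Q M then Nat.find h else 0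

theorem lst_spec {Q : ℕ → Prop} (h : ∃ M, Q M) : Q (lst Q) := by
  unfold lst
  rw [dif_pos h]
  exact Nat.find_spec h

theorem lst_eq_iff (Q : ℕ → Prop) (b : ℕ) :
    lst Q = b ↔ (Q b ∧ ∀ M < b, ¬ Q M) ∨ (b = 0 ∧ ∀ M, ¬ Q M) := by
  unfold lst
  by_cases h : ∃ M, Q M
  · rw [dif_pos h, Nat.find_eq_iff]
    constructor
    · intro h1
      exact Or.inl h1
    · rintro (h1 | ⟨-, h1⟩)
      · exact h1
      · obtain ⟨M, hM⟩ := h
        exact absurd hM (h1 M)
  · rw [dif_neg h]
    constructor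
    · intro h1
      exact Or.inr ⟨h1.symm, fun M hM => h ⟨M, hM⟩⟩
    · rintro (h1 | ⟨h1, -⟩)
      · exact absurd ⟨b, h1.1⟩ h
      · exact h1.symm

theorem meas_lst {X : Type} [MeasurableSpace X] (Q : ℕ → X → Prop)
    (hQ : ∀ M, MeasurableSet {x | Q M x}) (b : ℕ) :
    MeasurableSet {x | lst (fun M => Q M x) = b} := by
  have e : {x | lst (fun M => Q M x) = b} =
      ({x | Q b x} ∩ ⋂ M : ℕ, ⋂ _ : M < b, {x | Q M x}ᶜ) ∪
        ({x | b = 0} ∩ ⋂ M : ℕ, {x | Q M x}ᶜ) := by
    ext x
    simp only [Set.mem_ofPred_eq, lst_eq_iff, Set.mem_union, Set.mem_inter_iff, Set.mem_iInter,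
      Set.mem_compl_iff]
  rw [e]
  refine MeasurableSet.union (MeasurableSet.inter (hQ b) ?_) (MeasurableSet.inter ?_ ?_)
  · exact MeasurableSet.iInter fun M => MeasurableSet.iInter fun _ => (hQ M).compl
  · exact MeasurableSet.const _
  · exact MeasurableSet.iInter fun M => (hQ M).compl

end DOM_

open DOM_ in
theorem p_DOM (hAPX : T_APX) (hCON : T_CON) (hSMS : T_SMS) : T_DOM := by
  intro X _ f hf K T _ ν hν F hF
  have := hf.ci
  -- the sets
  set E : ℕ → ℕ → Set (Om X T) := fun n M => {ω | M < F ω n} with hE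
  have hEm : ∀ n M, MeasurableSet[sig X T Set.univ] (E n M) := by
    intro n M
    have e : E n M = ⋃ a : ℕ, ⋃ _ : M < a, {ω | F ω n = a} := by
      ext ω
      simp only [hE, Set.mem_ofPred_eq, Set.mem_iUnion, exists_prop]
      constructor
      · intro h
        exact ⟨_, h, rfl⟩
      · rintro ⟨a, h, rfl⟩
        exact h
    rw [e]
    exact MeasurableSet.iUnion fun a => MeasurableSet.iUnion fun _ => hF n a
  have hEc : ∀ n M, MeasurableSet[sig X T Set.univ] (E n M)ᶜ := fun n M => (hEm n M).compl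
  choose a ha1 ha2 ha3 ha4 using fun n M =>
    hAPX X f hf K T ν hν Set.univ (E n M) (hEm n M) (ee n) (ee_pos n)
  refine ⟨fun x n => lst fun M => mu ν (a n M x) ≤ 2 * ee n, ?_, ?_⟩
  · intro n b
    exact meas_lst (fun M x => mu ν (a n M x) ≤ 2 * ee n)
      (fun M => meas_pred (a n M) (ha1 n M) (ha3 n M) fun c => mu ν c ≤ 2 * ee n) b
  · rw [mem_NN]
    have h1 : ∀ᶠ x in f, ∀ n M, mu ν (symmDiff (sec (E n M) x) (a n M x)) ≤ ee n :=
      eventually_countable_forall.2 fun n => eventually_countable_forall.2 fun M => ha4 n M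
    have h2 : ∀ᶠ x in f, ∀ n M, Ms ν Set.univ (sec (E n M)ᶜ x) :=
      eventually_countable_forall.2 fun n => eventually_countable_forall.2 fun M =>
        hSMS X f hf K T ν hν Set.univ _ (hEc n M)
    filter_upwards [h1, h2] with x hx1 hx2
    -- some `M` has the property
    have h3 : ∀ n, ∃ M, mu ν (a n M x) ≤ 2 * ee n := by
      intro n
      have hmono : Monotone fun M => sec (E n M)ᶜ x := by
        intro M M' hMM z hz h
        apply hz
        exact lt_of_le_of_lt hMM h
      obtain ⟨N, hN⟩ := (hCON K T ν hν (fun M => sec (E n M)ᶜ x) hmono fun M => hx2 n M).1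
        (ee n) (ee_pos n)
      refine ⟨N, ?_⟩
      have h4 : mu ν (sec (E n N) x) ≤ ee n := by
        refine le_trans (MeasureTheory.measure_mono ?_) hN
        intro z hz
        refine ⟨?_, fun h => h hz⟩
        rw [Set.mem_iUnion]
        refine ⟨F ((x, z) : Om X T) n, ?_⟩
        intro h
        have h' : F ((x, z) : Om X T) n < F ((x, z) : Om X T) n := h
        exact lt_irrefl _ h'
      have h5 : a n N x ⊆ sec (E n N) x ∪ symmDiff (sec (E n N) x) (a n N x) := by
        intro z hz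
        by_cases h : z ∈ sec (E n N) x
        · exact Or.inl h
        · exact Or.inr (Or.inr ⟨hz, h⟩)
      calc mu ν (a n N x) ≤ mu ν (sec (E n N) x ∪ symmDiff (sec (E n N) x) (a n N x)) :=
            MeasureTheory.measure_mono h5
        _ ≤ mu ν (sec (E n N) x) + mu ν (symmDiff (sec (E n N) x) (a n N x)) :=
            MeasureTheory.measure_union_le _ _
        _ ≤ ee n + ee n := add_le_add h4 (hx1 n N)
        _ = 2 * ee n := (two_mul _).symm
    -- the bound for the sections
    have h6 : ∀ n, mu ν {z : Pt T | (lst fun M => mu ν (a n M x) ≤ 2 * ee n) <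
        F ((x, z) : Om X T) n} ≤ 3 * ee n := by
      intro n
      set M := lst fun M => mu ν (a n M x) ≤ 2 * ee n with hM
      have h7 : mu ν (a n M x) ≤ 2 * ee n := lst_spec (h3 n)
      have h8 : {z : Pt T | M < F ((x, z) : Om X T) n} ⊆
          a n M x ∪ symmDiff (sec (E n M) x) (a n M x) := by
        intro z hz
        by_cases h : z ∈ a n M x
        · exact Or.inl h
        · exact Or.inr (Or.inl ⟨hz, h⟩)
      calc mu ν {z : Pt T | M < F ((x, z) : Om X T) n}
          ≤ mu ν (a n M x ∪ symmDiff (sec (E n M) x) (a n M x)) :=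
            MeasureTheory.measure_mono h8
        _ ≤ mu ν (a n M x) + mu ν (symmDiff (sec (E n M) x) (a n M x)) :=
            MeasureTheory.measure_union_le _ _
        _ ≤ 2 * ee n + ee n := add_le_add h7 (hx1 n M)
        _ = 3 * ee n := by ring
    have h9 : ∑' n, mu ν {z : Pt T | (lst fun M => mu ν (a n M x) ≤ 2 * ee n) <
        F ((x, z) : Om X T) n} ≠ ∞ :=
      ne_top_of_le_ne_top tsum_ee (ENNReal.tsum_le_tsum h6)
    have h10 := MeasureTheory.measure_setOfPred_frequently_eq_zero h9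
    refine MeasureTheory.measure_mono_null ?_ h10
    intro z hz
    rw [Set.mem_ofPred_eq, Filter.not_eventually] at hz
    rw [Set.mem_ofPred_eq]
    exact hz.mono fun n hn => not_le.1 hn

end Pool.Agent.SNC
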