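import Pool.Agent.SNC.T1

/-!
# MP_3e8648_lc, case b, Part II: EME, the map `em` on measurable sets (helper14)
-/

set_option autoImplicit false

open scoped Classical ENNReal MeasureTheory
open Filter CofSN

noncomputable section

namespace Pool.Agent.SNC

namespace EME_

variable {Ω : Type} [MeasurableSpace Ω] {f : Filter Ω}

/-- the part of a condition in a measurable set -/
def cut (F : Po f) (E : Set Ω) (hE : MeasurableSet E) (h : ∃ᶠ ω in f, ω ∈ F.1 ∧ ω ∈ E) : Po f :=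
  ⟨F.1 ∩ E, F.2.1.inter hE, h⟩

lemma cut_le (F : Po f) (E : Set Ω) (hE : MeasurableSet E)
    (h : ∃ᶠ ω in f, ω ∈ F.1 ∧ ω ∈ E) : cut F E hE h ≤ F :=
  Eventually.of_forall fun _ h' => h'.1

lemma mem_em {E : Set Ω} (hE : MeasurableSet E) (F : Po f) :
    F ∈ em f E ↔ ∀ᶠ ω in f, ω ∈ F.1 → ω ∈ E := by
  constructor
  · intro h
    by_contra hc
    have hc' : ∃ᶠ ω in f, ω ∈ F.1 ∧ ω ∈ Eᶜ := by
      rw [not_eventually] at hc
      refine hc.mono fun ω h' => ?_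
      rw [Classical.not_imp] at h'
      exact h'
    obtain ⟨r, hr, s, hs, hrs⟩ := (RO.mem_gen.1 h) (cut F Eᶜ hE.compl hc') (cut_le F Eᶜ _ hc')
    have hs' : ∀ᶠ ω in f, ω ∈ s.1 → ω ∈ E := hs
    have hr' : ∀ᶠ ω in f, ω ∈ r.1 → ω ∈ F.1 ∩ Eᶜ := hr
    have hrs' : ∀ᶠ ω in f, ω ∈ r.1 → ω ∈ s.1 := hrs
    refine r.2.2 (((hs'.and hr').and hrs').mono fun ω h' hω => ?_)
    exact (h'.1.2 hω).2 (h'.1.1 (h'.2 hω))
  · intro h
    refine RO.mem_gen.2 fun q hq => ⟨q, le_rfl, q, ?_, le_rfl⟩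
    have hq' : ∀ᶠ ω in f, ω ∈ q.1 → ω ∈ F.1 := hq
    exact (hq'.and h).mono fun ω h' hω => h'.2 (h'.1 hω)

lemma em_compl {E : Set Ω} (hE : MeasurableSet E) : (em f E)ᶜ = em f Eᶜ := by
  refine RO.ext_mem fun p => ?_
  rw [RO.mem_compl, mem_em hE.compl]
  constructor
  · intro h
    by_contra hc
    have hc' : ∃ᶠ ω in f, ω ∈ p.1 ∧ ω ∈ E := by
      rw [not_eventually] at hc
      refine hc.mono fun ω h' => ?_
      rw [Classical.not_imp] at h'
      exact ⟨h'.1, Set.notMem_compl_iff.1 h'.2⟩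
    refine h (cut p E hE hc') (cut_le p E _ hc') ((mem_em hE _).2 ?_)
    exact Eventually.of_forall fun ω h' => h'.2
  · intro h q hq hqE
    have hq' : ∀ᶠ ω in f, ω ∈ q.1 → ω ∈ p.1 := hq
    rw [mem_em hE] at hqE
    refine q.2.2 (((h.and hq').and hqE).mono fun ω h' hω => ?_)
    exact h'.1.1 (h'.1.2 hω) (h'.2 hω)

lemma em_le {E F : Set Ω} (hE : MeasurableSet E) (hF : MeasurableSet F) :
    em f E ≤ em f F ↔ ∀ᶠ ω in f, ω ∈ E → ω ∈ F := by
  constructor
  · intro h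
    by_contra hc
    have hc' : ∃ᶠ ω in f, ω ∈ E ∩ Fᶜ := by
      rw [not_eventually] at hc
      refine hc.mono fun ω h' => ?_
      rw [Classical.not_imp] at h'
      exact h'
    have h1 := (mem_em hF _).1 (RO.le_def.1 h (⟨E ∩ Fᶜ, hE.inter hF.compl, hc'⟩ : Po f)
      ((mem_em hE _).2 (Eventually.of_forall fun ω h' => h'.1)))
    exact hc' (h1.mono fun ω h' hω => hω.2 (h' hω))
  · intro h
    refine RO.le_def.2 fun p hp => ?_
    rw [mem_em hE] at hp
    rw [mem_em hF]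
    exact (h.and hp).mono fun ω h' hω => h'.1 (h'.2 hω)

lemma em_iSup (hci : CountableInterFilter f) {ι : Type} [Countable ι] {E : ι → Set Ω}
    (hE : ∀ i, MeasurableSet (E i)) : ⨆ i, em f (E i) = em f (⋃ i, E i) := by
  refine RO.ext_mem fun p => ?_
  rw [RO.mem_iSup, mem_em (MeasurableSet.iUnion hE)]
  constructor
  · intro h
    by_contra hc
    have hc' : ∃ᶠ ω in f, ω ∈ p.1 ∧ ω ∈ (⋃ i, E i)ᶜ := by
      rw [not_eventually] at hc
      refine hc.mono fun ω h' => ?_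
      rw [Classical.not_imp] at h'
      exact h'
    obtain ⟨r, hr, i, hri⟩ := h (cut p _ (MeasurableSet.iUnion hE).compl hc') (cut_le p _ _ hc')
    have hr' : ∀ᶠ ω in f, ω ∈ r.1 → ω ∈ p.1 ∩ (⋃ i, E i)ᶜ := hr
    rw [mem_em (hE i)] at hri
    exact r.2.2 ((hr'.and hri).mono fun ω h' hω =>
      (h'.1 hω).2 (Set.mem_iUnion.2 ⟨i, h'.2 hω⟩))
  · intro h q hq
    have hq' : ∀ᶠ ω in f, ω ∈ q.1 → ω ∈ p.1 := hq
    have hex : ∃ i, ∃ᶠ ω in f, ω ∈ q.1 ∧ ω ∈ E i := by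
      by_contra hc
      push Not at hc
      have h1 : ∀ᶠ ω in f, ∀ i, ω ∈ q.1 → ω ∉ E i := eventually_countable_forall.2 hc
      refine q.2.2 (((h1.and hq').and h).mono fun ω h' hω => ?_)
      obtain ⟨i, hi⟩ := Set.mem_iUnion.1 (h'.2 (h'.1.2 hω))
      exact h'.1.1 i hω hi
    obtain ⟨i, hi⟩ := hex
    exact ⟨cut q (E i) (hE i) hi, cut_le q _ _ hi, i,
      (mem_em (hE i) _).2 (Eventually.of_forall fun ω h' => h'.2)⟩

lemma em_iInf (hci : CountableInterFilter f) {ι : Type} [Countable ι] {E : ι → Set Ω}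
    (hE : ∀ i, MeasurableSet (E i)) : ⨅ i, em f (E i) = em f (⋂ i, E i) := by
  refine RO.ext_mem fun p => ?_
  rw [RO.mem_iInf, mem_em (MeasurableSet.iInter hE)]
  constructor
  · intro h
    have h1 : ∀ᶠ ω in f, ∀ i, ω ∈ p.1 → ω ∈ E i :=
      eventually_countable_forall.2 fun i => (mem_em (hE i) p).1 (h i)
    exact h1.mono fun ω h' hω => Set.mem_iInter.2 fun i => h' i hω
  · intro h i
    exact (mem_em (hE i) p).2 (h.mono fun ω h' hω => Set.mem_iInter.1 (h' hω) i)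

lemma em_inf {E F : Set Ω} (hE : MeasurableSet E) (hF : MeasurableSet F) :
    em f E ⊓ em f F = em f (E ∩ F) := by
  refine RO.ext_mem fun p => ?_
  rw [RO.mem_inf, mem_em hE, mem_em hF, mem_em (hE.inter hF)]
  constructor
  · intro h
    exact (h.1.and h.2).mono fun ω h' hω => ⟨h'.1 hω, h'.2 hω⟩
  · intro h
    exact ⟨h.mono fun ω h' hω => (h' hω).1, h.mono fun ω h' hω => (h' hω).2⟩

lemma em_univ : em f (Set.univ : Set Ω) = ⊤ :=
  RO.eq_top_iff'.2 fun p => (mem_em MeasurableSet.univ p).2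
    (Eventually.of_forall fun _ _ => trivial)

lemma em_empty : em f (∅ : Set Ω) = ⊥ := by
  refine RO.ext_mem fun p => ?_
  rw [mem_em MeasurableSet.empty]
  constructor
  · intro h
    exact absurd (h.mono fun ω h' hω => h' hω) p.2.2
  · intro h
    exact absurd h (RO.notMem_bot p)

lemma em_eq_top {E : Set Ω} (hE : MeasurableSet E) : em f E = ⊤ ↔ ∀ᶠ ω in f, ω ∈ E := by
  rw [← top_le_iff, ← em_univ (f := f), em_le MeasurableSet.univ hE]
  simp

lemma em_eq_bot {E : Set Ω} (hE : MeasurableSet E) : em f E = ⊥ ↔ ∀ᶠ ω in f, ω ∉ E := by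
  rw [← le_bot_iff, ← em_empty (f := f), em_le hE MeasurableSet.empty]
  simp

end EME_

/-- EME -/
theorem p_EME : T_EME := by
  intro Ω _ f hf
  have hci := hf.ci
  have hnb := hf.nb
  refine ⟨fun E hE F => EME_.mem_em hE F, fun E hE => EME_.em_compl hE,
    fun E F hE hF => EME_.em_le hE hF, fun ι _ E hE => EME_.em_iSup hci hE,
    fun ι _ E hE => EME_.em_iInf hci hE, fun E F hE hF => EME_.em_inf hE hF, EME_.em_univ,
    EME_.em_empty, fun E hE => EME_.em_eq_top hE, fun E hE => EME_.em_eq_bot hE, fun h => ?_⟩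
  have h1 : em f (∅ : Set Ω) = ⊤ := by rw [EME_.em_empty, h]
  rw [EME_.em_eq_top MeasurableSet.empty] at h1
  have h2 : ∃ᶠ ω in f, ω ∈ (∅ : Set Ω) := h1.frequently
  exact h2 (Eventually.of_forall fun ω h' => h')

end Pool.Agent.SNC
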