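import Pool.Agent.SNC.T1

/-!
# MP_3e8648_lc, case b, Part II: EMS, countable subfamilies (ccc)
-/

set_option autoImplicit false
set_option linter.unusedVariables false

open scoped Classical ENNReal MeasureTheory
open Filter CofSN

noncomputable section

namespace Pool.Agent.SNC

namespace EMS_

/-- the admissible families -/
def Adm {Ω : Type} [MeasurableSpace Ω] (f : Filter Ω) (F : Set (Set Ω)) : Set (Set (Set Ω)) :=
  {M | (∀ E ∈ M, MeasurableSet E ∧ (∃ᶠ ω in f, ω ∈ E) ∧ ∃ G ∈ F, E ⊆ G) ∧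
    ∀ E ∈ M, ∀ E' ∈ M, E ≠ E' → ∀ᶠ ω in f, ¬ (ω ∈ E ∧ ω ∈ E')}

theorem exists_max {Ω : Type} [MeasurableSpace Ω] (f : Filter Ω) (F : Set (Set Ω)) :
    ∃ M, Maximal (fun M => M ∈ Adm f F) M := by
  apply zorn_subset
  intro c hc hchain
  refine ⟨⋃₀ c, ⟨?_, ?_⟩, fun s hs => Set.subset_sUnion_of_mem hs⟩
  · rintro E ⟨M, hM, hE⟩
    exact (hc hM).1 E hE
  · rintro E ⟨M, hM, hE⟩ E' ⟨M', hM', hE'⟩ hne
    rcases hchain.total hM hM' with h | h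
    · exact (hc hM').2 E (h hE) E' hE' hne
    · exact (hc hM).2 E hE E' (h hE') hne

theorem ess {Ω : Type} [MeasurableSpace Ω] {f : Filter Ω} (hf : CS Ω f) (F : Set (Set Ω))
    (hF : ∀ E ∈ F, MeasurableSet E) :
    ∃ G ⊆ F, G.Countable ∧ ∀ E ∈ F, ∀ᶠ ω in f, ω ∈ E → ω ∈ ⋃₀ G := by
  obtain ⟨M, hM, hmax⟩ := exists_max f F
  have hc : Countable M := by
    refine hf.ccc M (fun E => E.1) (fun E => (hM.1 E.1 E.2).1) ?_ (fun E => (hM.1 E.1 E.2).2.1)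
    intro E E' hne
    exact hM.2 E.1 E.2 E'.1 E'.2 fun h => hne (Subtype.ext h)
  have hg : ∀ E : M, ∃ G ∈ F, E.1 ⊆ G := fun E => (hM.1 E.1 E.2).2.2
  choose g hgF hgs using hg
  refine ⟨Set.range g, ?_, Set.countable_range g, ?_⟩
  · rintro _ ⟨E, rfl⟩
    exact hgF E
  · intro E hE
    by_contra hcon
    have hfr : ∃ᶠ ω in f, ω ∈ E \ ⋃₀ Set.range g := by
      intro h
      apply hcon
      filter_upwards [h] with ω h1 h2
      by_contra h3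
      exact h1 ⟨h2, h3⟩
    have hmeas : MeasurableSet (E \ ⋃₀ Set.range g) := by
      refine (hF E hE).diff (MeasurableSet.sUnion (Set.countable_range g) ?_)
      rintro _ ⟨E', rfl⟩
      exact hF _ (hgF E')
    have hin : insert (E \ ⋃₀ Set.range g) M ∈ Adm f F := by
      refine ⟨?_, ?_⟩
      · rintro E' (rfl | hE')
        · exact ⟨hmeas, hfr, E, hE, Set.sdiff_subset⟩
        · exact hM.1 E' hE'
      · have key : ∀ E' ∈ M, ∀ ω, ω ∈ E \ ⋃₀ Set.range g → ω ∉ E' := by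
          intro E' hE' ω h1 h2
          exact h1.2 ⟨g ⟨E', hE'⟩, ⟨_, rfl⟩, hgs ⟨E', hE'⟩ h2⟩
        rintro E1 (rfl | hE1) E2 (rfl | hE2) hne
        · exact absurd rfl hne
        · exact Eventually.of_forall fun ω h => key E2 hE2 ω h.1 h.2
        · exact Eventually.of_forall fun ω h => key E1 hE1 ω h.2 h.1
        · exact hM.2 E1 hE1 E2 hE2 hne
    have hmem : (E \ ⋃₀ Set.range g) ∈ M :=
      hmax hin (Set.subset_insert _ _) (Set.mem_insert _ _)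
    obtain ⟨ω, hω⟩ := hfr.exists
    exact hω.2 ⟨g ⟨_, hmem⟩, ⟨_, rfl⟩, hgs ⟨_, hmem⟩ hω⟩

end EMS_

theorem p_EMS (h_EME : T_EME) : T_EMS := by
  intro Ω _ f hf
  obtain ⟨h1, -, h3, h4, -⟩ := h_EME Ω f hf
  have hA : ∀ 𝓕 : Set (Set Ω), (∀ E ∈ 𝓕, MeasurableSet E) → ∃ 𝓖 ⊆ 𝓕, 𝓖.Countable ∧
      sSup (em f '' 𝓕) = em f (⋃₀ 𝓖) := by
    intro F hF
    obtain ⟨G, hGF, hGc, hG⟩ := EMS_.ess hf F hF
    have hGm : MeasurableSet (⋃₀ G) := MeasurableSet.sUnion hGc fun E hE => hF E (hGF hE)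
    refine ⟨G, hGF, hGc, le_antisymm ?_ ?_⟩
    · apply sSup_le
      rintro _ ⟨E, hE, rfl⟩
      exact (h3 E (⋃₀ G) (hF E hE) hGm).2 (hG E hE)
    · have : Countable G := hGc.to_subtype
      rw [Set.sUnion_eq_iUnion, ← h4 G (fun i => i.1) fun i => hF i.1 (hGF i.2)]
      exact iSup_le fun i => le_sSup ⟨i.1, hGF i.2, rfl⟩
  refine ⟨hA, fun U => ?_⟩
  obtain ⟨G, hGF, hGc, hG⟩ := hA {E | ∃ F : Po f, F ∈ U ∧ E = F.1} (by
    rintro E ⟨F, -, rfl⟩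
    exact F.2.1)
  refine ⟨⋃₀ G, MeasurableSet.sUnion hGc fun E hE => ?_, ?_⟩
  · obtain ⟨F, -, rfl⟩ := hGF hE
    exact F.2.1
  · rw [← hG]
    apply le_antisymm
    · intro F hFU
      have h5 : F ∈ em f F.1 := (h1 F.1 F.2.1 F).2 (Eventually.of_forall fun _ h => h)
      have h6 : em f F.1 ≤ sSup (em f '' {E | ∃ F : Po f, F ∈ U ∧ E = F.1}) :=
        le_sSup ⟨F.1, ⟨F, hFU, rfl⟩, rfl⟩
      exact h6 F h5
    · apply sSup_le
      rintro _ ⟨_, ⟨F, hFU, rfl⟩, rfl⟩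
      intro E hE
      exact RO.mem_down hFU ((h1 F.1 F.2.1 E).1 hE)

end Pool.Agent.SNC
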