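import Pool.Agent.SNC.T1

/-!
# MP_3e8648_lc, case b, Part II: Boolean values of countable formulas are computed pointwise
-/

set_option autoImplicit false
set_option linter.unusedVariables false

open scoped Classical ENNReal MeasureTheory
open Filter CofSN

noncomputable section

namespace Pool.Agent.SNC

namespace EVL_

variable {Ω : Type} [MeasurableSpace Ω] {f : Filter Ω}

/-- `U` is the Boolean value of the pointwise statement `p` -/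
def Gd (f : Filter Ω) (p : Ω → Prop) (U : RO (Po f)) : Prop :=
  MeasurableSet {ω | p ω} ∧ U = em f {ω | p ω}

theorem Gd.of_iff {p q : Ω → Prop} {U : RO (Po f)} (h : Gd f p U) (hpq : ∀ ω, p ω ↔ q ω) :
    Gd f q U := by
  have : p = q := funext fun ω => propext (hpq ω)
  rw [← this]; exact h

theorem Gd.sup (hE : T_EME) (hf : CS Ω f) {ι : Type} [Countable ι] {p : ι → Ω → Prop}
    {U : ι → RO (Po f)} (h : ∀ i, Gd f (p i) (U i)) :
    Gd f (fun ω => ∃ i, p i ω) (⨆ i, U i) := by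
  obtain ⟨-, -, -, h4, -⟩ := hE Ω f hf
  have e : {ω | ∃ i, p i ω} = ⋃ i, {ω | p i ω} := by ext ω; simp
  refine ⟨?_, ?_⟩
  · rw [e]; exact MeasurableSet.iUnion fun i => (h i).1
  · rw [e, ← h4 ι _ fun i => (h i).1]
    exact iSup_congr fun i => (h i).2

theorem Gd.inf (hE : T_EME) (hf : CS Ω f) {ι : Type} [Countable ι] {p : ι → Ω → Prop}
    {U : ι → RO (Po f)} (h : ∀ i, Gd f (p i) (U i)) :
    Gd f (fun ω => ∀ i, p i ω) (⨅ i, U i) := by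
  obtain ⟨-, -, -, -, h5, -⟩ := hE Ω f hf
  have e : {ω | ∀ i, p i ω} = ⋂ i, {ω | p i ω} := by ext ω; simp
  refine ⟨?_, ?_⟩
  · rw [e]; exact MeasurableSet.iInter fun i => (h i).1
  · rw [e, ← h5 ι _ fun i => (h i).1]
    exact iInf_congr fun i => (h i).2

theorem Gd.and (hE : T_EME) (hf : CS Ω f) {p q : Ω → Prop} {U V : RO (Po f)} (h : Gd f p U)
    (h' : Gd f q V) : Gd f (fun ω => p ω ∧ q ω) (U ⊓ V) := by
  obtain ⟨-, -, -, -, -, h6, -⟩ := hE Ω f hf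
  have e : {ω | p ω ∧ q ω} = {ω | p ω} ∩ {ω | q ω} := rfl
  refine ⟨?_, ?_⟩
  · rw [e]; exact h.1.inter h'.1
  · rw [e, ← h6 _ _ h.1 h'.1, ← h.2, ← h'.2]

theorem Gd.psup (hE : T_EME) (hf : CS Ω f) {P : Prop} {p : Ω → Prop} {U : RO (Po f)}
    (h : P → Gd f p U) : Gd f (fun ω => P ∧ p ω) (⨆ (_ : P), U) := by
  obtain ⟨-, -, -, -, -, -, -, h8, -⟩ := hE Ω f hf
  by_cases hP : P
  · have e : {ω | P ∧ p ω} = {ω | p ω} := by ext ω; simp [hP]
    refine ⟨?_, ?_⟩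
    · rw [e]; exact (h hP).1
    · rw [e, iSup_pos hP]; exact (h hP).2
  · have e : {ω | P ∧ p ω} = ∅ := by ext ω; simp [hP]
    refine ⟨?_, ?_⟩
    · rw [e]; exact MeasurableSet.empty
    · rw [e, iSup_neg hP, h8]

theorem Gd.pinf (hE : T_EME) (hf : CS Ω f) {P : Prop} {p : Ω → Prop} {U : RO (Po f)}
    (h : P → Gd f p U) : Gd f (fun ω => P → p ω) (⨅ (_ : P), U) := by
  obtain ⟨-, -, -, -, -, -, h7, -⟩ := hE Ω f hf
  by_cases hP : P
  · have e : {ω | P → p ω} = {ω | p ω} := by ext ω; simp [hP]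
    refine ⟨?_, ?_⟩
    · rw [e]; exact (h hP).1
    · rw [e, iInf_pos hP]; exact (h hP).2
  · have e : {ω | P → p ω} = Set.univ := by ext ω; simp [hP]
    refine ⟨?_, ?_⟩
    · rw [e]; exact MeasurableSet.univ
    · rw [e, iInf_neg hP, h7]

theorem gd_v {α : Type} {x : Nm (RO (Po f)) α} {X : Ω → ℕ → α} (hX : Mf inferInstance X)
    (hx : Rep x X) (n : ℕ) (a : α) : Gd f (fun ω => X ω n = a) (x.v n a) :=
  ⟨hX n a, hx n a⟩

theorem gd_rel (hE : T_EME) (hf : CS Ω f) {α β : Type} [Countable α] [Countable β]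
    (R : α → β → Prop) {x : Nm (RO (Po f)) α} {y : Nm (RO (Po f)) β} {X : Ω → ℕ → α}
    {Y : Ω → ℕ → β} (hX : Mf inferInstance X) (hY : Mf inferInstance Y) (hx : Rep x X)
    (hy : Rep y Y) (n m : ℕ) :
    Gd f (fun ω => R (X ω n) (Y ω m)) (Nm.rel R x y n m) := by
  have h1 : ∀ a b, Gd f (fun ω => X ω n = a ∧ Y ω m = b) (x.v n a ⊓ y.v m b) :=
    fun a b => (gd_v hX hx n a).and hE hf (gd_v hY hy m b)
  have h2 : ∀ a b, Gd f (fun ω => R a b ∧ X ω n = a ∧ Y ω m = b)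
      (⨆ (_ : R a b), x.v n a ⊓ y.v m b) := fun a b => Gd.psup hE hf fun _ => h1 a b
  have h3 : ∀ a, Gd f (fun ω => ∃ b, R a b ∧ X ω n = a ∧ Y ω m = b)
      (⨆ b, ⨆ (_ : R a b), x.v n a ⊓ y.v m b) := fun a => Gd.sup hE hf (h2 a)
  have h4 : Gd f (fun ω => ∃ a, ∃ b, R a b ∧ X ω n = a ∧ Y ω m = b)
      (⨆ a, ⨆ b, ⨆ (_ : R a b), x.v n a ⊓ y.v m b) := Gd.sup hE hf h3
  refine Gd.of_iff (q := fun ω => R (X ω n) (Y ω m)) h4 fun ω => ?_
  constructor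
  · rintro ⟨a, b, hR, rfl, rfl⟩
    exact hR
  · intro hR
    exact ⟨_, _, hR, rfl, rfl⟩

theorem gd_cyl (hE : T_EME) (hf : CS Ω f) {σ : Nm (RO (Po f)) (List Bool)}
    {x : Nm (RO (Po f)) Bool} {S : Ω → ℕ → List Bool} {X : Ω → ℕ → Bool}
    (hS : Mf inferInstance S) (hX : Mf inferInstance X) (hs : Rep σ S) (hx : Rep x X) (n : ℕ) :
    Gd f (fun ω => Pre (S ω n) (X ω)) (cyl σ n x) := by
  have h1 : ∀ s : List Bool, Gd f (fun ω => ∀ j : Fin s.length, X ω j = s.get j) (ini s x) :=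
    fun s => Gd.inf hE hf fun j => gd_v hX hx j (s.get j)
  have h2 : ∀ s : List Bool, Gd f (fun ω => S ω n = s ∧ ∀ j : Fin s.length, X ω j = s.get j)
      (σ.v n s ⊓ ini s x) := fun s => (gd_v hS hs n s).and hE hf (h1 s)
  have h3 : Gd f (fun ω => ∃ s : List Bool, S ω n = s ∧ ∀ j : Fin s.length, X ω j = s.get j)
      (⨆ s, σ.v n s ⊓ ini s x) := Gd.sup hE hf h2
  refine Gd.of_iff (q := fun ω => Pre (S ω n) (X ω)) h3 fun ω => ?_
  constructor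
  · rintro ⟨s, rfl, h⟩ j hj
    exact h ⟨j, hj⟩
  · intro h
    exact ⟨_, rfl, fun j => h j.1 j.2⟩

theorem gd_ev (hE : T_EME) (hf : CS Ω f) {p : ℕ → Ω → Prop} {U : ℕ → RO (Po f)}
    (h : ∀ n, Gd f (p n) (U n)) :
    Gd f (fun ω => ∃ m, ∀ n, m ≤ n → p n ω) (⨆ m, ⨅ n, ⨅ (_ : m ≤ n), U n) := by
  have h1 : ∀ m n : ℕ, Gd f (fun ω => m ≤ n → p n ω) (⨅ (_ : m ≤ n), U n) :=
    fun m n => Gd.pinf hE hf fun _ => h n
  have h2 : ∀ m : ℕ, Gd f (fun ω => ∀ n, m ≤ n → p n ω) (⨅ n, ⨅ (_ : m ≤ n), U n) :=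
    fun m => Gd.inf hE hf (h1 m)
  exact Gd.sup hE hf h2

theorem gd_fr (hE : T_EME) (hf : CS Ω f) {p : ℕ → Ω → Prop} {U : ℕ → RO (Po f)}
    (h : ∀ n, Gd f (p n) (U n)) :
    Gd f (fun ω => ∀ m, ∃ n, m ≤ n ∧ p n ω) (⨅ m, ⨆ n, ⨆ (_ : m ≤ n), U n) := by
  have h1 : ∀ m n : ℕ, Gd f (fun ω => m ≤ n ∧ p n ω) (⨆ (_ : m ≤ n), U n) :=
    fun m n => Gd.psup hE hf fun _ => h n
  have h2 : ∀ m : ℕ, Gd f (fun ω => ∃ n, m ≤ n ∧ p n ω) (⨆ n, ⨆ (_ : m ≤ n), U n) :=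
    fun m => Gd.sup hE hf (h1 m)
  exact Gd.inf hE hf h2

end EVL_

open EVL_

theorem p_EVL (hE : T_EME) : T_EVL := by
  intro Ω _ f hf
  refine ⟨?_, ?_, ?_, ?_⟩
  · intro α β _ _ R x y X Y hX hY hx hy n m
    exact (gd_rel hE hf R hX hY hx hy n m).2
  · intro x y X Y hX hY hx hy
    have h1 : ∀ n, Gd f (fun ω => X ω n ≤ Y ω n) (Nm.rel (fun a b => a ≤ b) x y n n) :=
      fun n => gd_rel hE hf (fun a b => a ≤ b) hX hY hx hy n n
    have h2 := Gd.of_iff (gd_ev hE hf h1) (q := fun ω => ∀ᶠ n in atTop, X ω n ≤ Y ω n)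
      fun ω => (eventually_atTop (α := ℕ)).symm
    exact h2.2
  · intro x σ X S hX hS hx hs
    have h1 : ∀ n, Gd f (fun ω => X ω n ≤ (S ω n).length)
        (Nm.rel (fun (k : ℕ) (s : List Bool) => k ≤ s.length) x σ n n) :=
      fun n => gd_rel hE hf (fun (k : ℕ) (s : List Bool) => k ≤ s.length) hX hS hx hs n n
    refine ⟨?_, ?_⟩
    · exact (Gd.inf hE hf h1).2
    · have h2 := Gd.of_iff (gd_ev hE hf h1)
        (q := fun ω => ∀ᶠ n in atTop, X ω n ≤ (S ω n).length)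
        fun ω => (eventually_atTop (α := ℕ)).symm
      exact h2.2
  · intro σ x S X hS hX hs hx
    have h1 : ∀ n, Gd f (fun ω => Pre (S ω n) (X ω)) (cyl σ n x) :=
      fun n => gd_cyl hE hf hS hX hs hx n
    have h2 := Gd.of_iff (gd_fr hE hf h1) (q := fun ω => ∃ᶠ n in atTop, Pre (S ω n) (X ω))
      fun ω => (frequently_atTop (α := ℕ)).symm
    exact h2.2

end Pool.Agent.SNC
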