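import Pool.Agent.SNC.T1

/-!
# MP_3e8648_lc, case b, Part II: the final model
-/

set_option autoImplicit false
set_option linter.unusedVariables false

open scoped Classical ENNReal MeasureTheory
open Filter CofSN

noncomputable section

namespace Pool.Agent.SNC

theorem p_FIB (h_MOD : T_MOD) (h_GRD : T_GRD) (h_SUBM : T_SUBM) (h_BZ : CofSN2.T_BZ)
    (h_WOR : CofSN.T_WOR) : T_FIB := by
  obtain ⟨L, iL, iB, iS, iM, iW, hinf, hcnt, hbd⟩ := h_WOR
  have : Nonempty L := ⟨⊥⟩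
  obtain ⟨P, iP, hP, hccc, hdom⟩ := h_BZ L
  have := hP
  obtain ⟨X, iX, f, hG⟩ := h_GRD L P hccc hdom
  obtain ⟨ν, N, hν, hN⟩ := h_SUBM (KK L) (TW L)
  obtain ⟨h1, h2, h3⟩ := h_MOD L hbd X f hG ν N hν hN
  exact ⟨RO (Po (NN f ν)), inferInstance, L, h1, h2, h3⟩

end Pool.Agent.SNC
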