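import Pool.Agent.SNC.T1

/-!
# GRD: the ground space of a poset
-/

set_option autoImplicit false
set_option linter.unusedVariables false

open scoped Classical ENNReal MeasureTheory
open Filter CofSN

noncomputable section

namespace Pool.Agent.SNC

namespace GRD_

variable {P : Type} [Preorder P]

lemma exists_mem {U : RO P} (h : U ≠ ⊥) : ∃ p, p ∈ U := by
  by_contra hc
  push Not at hc
  exact h (RO.ext_mem fun p => ⟨fun hp => absurd hp (hc p), fun hp => absurd hp (RO.notMem_bot p)⟩)

/-- the sets given by regular sets, almost everywhere -/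
def Ms (E : Set (St0 P)) : Prop := ∃ U : RO P, ∀ᶠ x in gF P, (x ∈ E ↔ U ∈ x.c)

/-- the σ-algebra -/
@[reducible] def sp (P : Type) [Preorder P] (hc : CountableInterFilter (gF P))
    (h3 : ∀ (x : St0 P) (U : RO P), Uᶜ ∈ x.c ↔ U ∉ x.c)
    (h4 : ∀ 𝓤 : Set (RO P), ∀ᶠ x in gF P, (sSup 𝓤 ∈ x.c ↔ ∃ U ∈ 𝓤, U ∈ x.c)) :
    MeasurableSpace (St0 P) where
  MeasurableSet' := Ms
  measurableSet_empty := ⟨⊥, Eventually.of_forall fun x =>
    ⟨fun h => absurd h (Set.notMem_empty x), fun h => absurd h x.bot⟩⟩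
  measurableSet_compl := by
    rintro E ⟨U, hU⟩
    exact ⟨Uᶜ, hU.mono fun x hx => by rw [Set.mem_compl_iff, hx, h3]⟩
  measurableSet_iUnion := by
    intro E hE
    choose U hU using hE
    refine ⟨sSup (Set.range U), ?_⟩
    filter_upwards [eventually_countable_forall.2 hU, h4 (Set.range U)] with x h1 h2
    rw [h2, Set.mem_iUnion]
    constructor
    · rintro ⟨i, hi⟩
      exact ⟨U i, ⟨i, rfl⟩, (h1 i).1 hi⟩
    · rintro ⟨_, ⟨i, rfl⟩, hi⟩
      exact ⟨i, (h1 i).2 hi⟩

end GRD_

open GRD_ in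
/-- GRD (from STC).  The ground space of a poset. -/
theorem p_GRD (hS : T_STC) : T_GRD := by
  intro L P _ _ hccc hb
  obtain ⟨h1, h2, h3, h4⟩ := hS P
  have h2' : ∀ U : RO P, (∀ᶠ x in gF P, U ∉ x.c) → U = ⊥ := by
    intro U hU
    by_contra h
    exact h2 U h hU
  let mS : MeasurableSpace (St0 P) := sp P h1 h3 h4
  refine ⟨St0 P, mS, gF P, ?_⟩
  refine { cs := { nb := ?_, ci := h1, ccc := ?_ }, bnd := ?_ }
  · refine ⟨fun h => ?_⟩
    have h5 := h2 ⊤ (fun h => by
      obtain ⟨p⟩ := ‹Nonempty P›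
      exact RO.notMem_bot p (h ▸ RO.mem_top p))
    rw [h] at h5
    exact h5 (by simp)
  · intro ι E hE hd hf
    choose U hU using hE
    have hne : ∀ i, U i ≠ ⊥ := by
      intro i h
      refine hf i ((hU i).mono fun x hx hx' => ?_)
      have h5 := hx.1 hx'
      rw [h] at h5
      exact x.bot h5
    choose p hp using fun i => exists_mem (hne i)
    refine hccc ι p fun i j hij => ?_
    rintro ⟨r, hr1, hr2⟩
    have h5 : U i ⊓ U j = ⊥ := by
      refine h2' _ ?_
      filter_upwards [hU i, hU j, hd i j hij] with x hi hj hij' hx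
      exact hij' ⟨hi.2 (x.up _ _ hx inf_le_left), hj.2 (x.up _ _ hx inf_le_right)⟩
    have h6 : r ∈ U i ⊓ U j := ⟨RO.mem_down (hp i) hr1, RO.mem_down (hp j) hr2⟩
    rw [h5] at h6
    exact RO.notMem_bot r h6
  · intro F hF
    have hF' : ∀ i n a, ∃ U : RO P, ∀ᶠ x in gF P, (F i x n = a ↔ U ∈ x.c) := fun i n a =>
      hF i n a
    choose U hU using hF'
    let g : L → Nm (RO P) ℕ := fun i =>
      { v := fun n a => U i n a
        disj := by
          intro n a b hab
          refine h2' _ ?_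
          filter_upwards [hU i n a, hU i n b] with x ha hb' hx
          exact hab ((ha.2 (x.up _ _ hx inf_le_left)).symm.trans
            (hb'.2 (x.up _ _ hx inf_le_right)))
        tot := by
          intro n
          rw [← compl_eq_bot]
          refine h2' _ ?_
          filter_upwards [eventually_countable_forall.2 fun a => hU i n a] with x hx hc
          exact (h3 x _).1 hc (x.up _ _ ((hx (F i x n)).1 rfl) (le_iSup (fun a => U i n a) _)) }
    obtain ⟨h, hh⟩ := hb g
    let G : St0 P → ℕ → ℕ := fun x n =>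
      if hx : ∃ a, h.v n a ∈ x.c then Classical.choose hx else 0
    have hG : ∀ n, ∀ᶠ x in gF P, ∀ a, (G x n = a ↔ h.v n a ∈ x.c) := by
      intro n
      filter_upwards [h4 (Set.range (h.v n))] with x hx a
      have h5 : sSup (Set.range (h.v n)) ∈ x.c := by
        have := h.tot n
        rw [iSup] at this
        rw [this]
        exact x.top
      obtain ⟨_, ⟨b, rfl⟩, hb'⟩ := hx.1 h5
      have h6 : ∃ a, h.v n a ∈ x.c := ⟨b, hb'⟩
      have h7 : h.v n (G x n) ∈ x.c := by
        show h.v n (if hx : ∃ a, h.v n a ∈ x.c then Classical.choose hx else 0) ∈ x.c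
        rw [dif_pos h6]
        exact Classical.choose_spec h6
      constructor
      · rintro rfl
        exact h7
      · intro ha
        by_contra hne
        have h8 := x.inf _ _ h7 ha
        rw [h.disj n _ _ hne] at h8
        exact x.bot h8
    refine ⟨G, fun n a => ⟨h.v n a, (hG n).mono fun x hx => hx a⟩, fun i => ?_⟩
    filter_upwards [eventually_countable_forall.2 hG,
      eventually_countable_forall.2 fun n => eventually_countable_forall.2 fun a => hU i n a,
      h4 (Set.range fun m => ⨅ n, ⨅ (_ : m ≤ n), Nm.rel (· ≤ ·) (g i) h n n)] with x hx1 hx2 hx3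
    have h5 : sSup (Set.range fun m => ⨅ n, ⨅ (_ : m ≤ n), Nm.rel (· ≤ ·) (g i) h n n) ∈ x.c := by
      have := hh i
      unfold Nm.leS at this
      rw [iSup] at this
      rw [this]
      exact x.top
    obtain ⟨_, ⟨m, rfl⟩, hm⟩ := hx3.1 h5
    refine eventually_atTop.2 ⟨m, fun n hn => ?_⟩
    have h6 : Nm.rel (· ≤ ·) (g i) h n n ∈ x.c :=
      x.up _ _ hm ((iInf_le _ n).trans (iInf_le _ hn))
    have h7 : (g i).v n (F i x n) ∈ x.c := (hx2 n _).1 rfl
    have h8 : h.v n (G x n) ∈ x.c := (hx1 n _).1 rfl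
    have h9 := x.inf _ _ h6 (x.inf _ _ h7 h8)
    obtain ⟨q, hq⟩ := exists_mem fun hbot => x.bot (hbot ▸ h9)
    exact Nm.mem_rel.1 hq.1 q le_rfl _ _ hq.2.1 hq.2.2

end Pool.Agent.SNC
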