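import Pool.Agent.SNC.T1

/-!
# Project SNC, HTG: the hitting property of the generic words (helper84)
-/

set_option autoImplicit false
set_option linter.unusedVariables false

open scoped Classical ENNReal MeasureTheory
open Filter CofSN

noncomputable section

namespace Pool.Agent.SNC

namespace HTG_

variable {L : Type}

/-- the length of the words at the coordinate `k` -/
abbrev len (k : KK L) : ℕ := (ofLex (ofLex k).2).2

/-- a selector -/
def sel {α : Type} [Inhabited α] (P : α → Prop) : α :=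
  if h : ∃ w, P w then h.choose else default

theorem sel_spec {α : Type} [Inhabited α] {P : α → Prop} (h : ∃ w, P w) : P (sel P) := by
  unfold sel
  rw [dif_pos h]
  exact h.choose_spec

theorem cl_sel {T : KK L → Type} {S : Set (KK L)} {α : Type} [Inhabited α] [Fintype α]
    {a : α → Set (Pt T)} (ha : ∀ w, Cl S (a w)) (t : α) :
    Cl S {z | sel (fun w => z ∈ a w) = t} := by
  choose F hF1 hF2 using ha
  refine ⟨Finset.univ.biUnion F, ?_, ?_⟩
  · intro k hk
    have hk' := Finset.mem_coe.1 hk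
    obtain ⟨w, _, hw⟩ := Finset.mem_biUnion.1 hk'
    exact hF1 w (Finset.mem_coe.2 hw)
  · intro z w h
    have h1 : (fun v => z ∈ a v) = fun v => w ∈ a v := by
      funext v
      exact propext (hF2 v z w fun k hk => h k (Finset.mem_biUnion.2 ⟨v, Finset.mem_univ _, hk⟩))
    show sel (fun v => z ∈ a v) = t ↔ sel (fun v => w ∈ a v) = t
    rw [h1]

theorem cl_hit {T : KK L → Type} {I : Finset (KK L)} {τ : (k : KK L) → Pt T → T k}
    (h : ∀ k ∈ I, ∀ t, Cl Set.univ {z | τ k z = t}) [∀ k, Fintype (T k)] :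
    Cl Set.univ {z : Pt T | ∀ k ∈ I, z k ≠ τ k z} := by
  have h' : ∀ k, ∃ F : Finset (KK L), k ∈ I → ∀ z w : Pt T, (∀ l ∈ F, z l = w l) →
      τ k z = τ k w := by
    intro k
    by_cases hk : k ∈ I
    · choose F hF1 hF2 using h k hk
      refine ⟨Finset.univ.biUnion F, fun _ z w hzw => ?_⟩
      have := (hF2 (τ k w) z w fun l hl => hzw l
        (Finset.mem_biUnion.2 ⟨τ k w, Finset.mem_univ _, hl⟩)).2 rfl
      exact this
    · exact ⟨∅, fun h => absurd h hk⟩
  choose F hF using h'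
  refine ⟨I ∪ I.biUnion F, fun _ _ => trivial, ?_⟩
  have key : ∀ z w : Pt T, (∀ k ∈ I ∪ I.biUnion F, z k = w k) →
      (∀ k ∈ I, z k ≠ τ k z) → ∀ k ∈ I, w k ≠ τ k w := by
    intro z w hzw hz k hk
    rw [← hzw k (Finset.mem_union_left _ hk), ← hF k hk z w fun l hl => hzw l
      (Finset.mem_union_right _ (Finset.mem_biUnion.2 ⟨k, hk, hl⟩))]
    exact hz k hk
  intro z w hzw
  exact ⟨key z w hzw, key w z fun k hk => (hzw k hk).symm⟩

theorem bound (hMUC : T_MUC) [LinearOrder L] (ν : Set (Pt (TW L)) → ℝ) (N : ℕ → ℕ)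
    (hν : SubM (TW L) ν) (hHit : Hit (TW L) ν N) (i : L) (j : ℕ) (I : Finset (KK L))
    (hI : N j ≤ I.card) (hI' : ∀ k ∈ I, (ofLex k).1 = i) (G : Pt (TW L) → List Bool)
    (hG : ∀ (m : ℕ) (w : List Bool), Ms ν (SL i) {z | (G z).take m = w}) :
    mu ν {z | ∀ k ∈ I, len k ≤ (G z).length ∧ List.ofFn (z k) ≠ (G z).take (len k)} ≤
      2 * ENNReal.ofReal ((1 / 2) ^ j) := by
  set M : ℕ := ∑ k ∈ I, Fintype.card (TW L k) with hM
  set ε : ℝ≥0∞ := ENNReal.ofReal ((1 / 2) ^ j / (M + 1)) with hε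
  have hε0 : 0 < ε := by
    rw [hε, ENNReal.ofReal_pos]
    positivity
  have h1 : ∀ (k : KK L) (w : TW L k), ∃ a : Set (Pt (TW L)), Cl (SL i) a ∧
      mu ν (symmDiff {z | (G z).take (len k) = List.ofFn w} a) ≤ ε := fun k w =>
    hG (len k) (List.ofFn w) ε hε0
  choose a ha1 ha2 using h1
  let τ : (k : KK L) → Pt (TW L) → TW L k := fun k z => sel fun w => z ∈ a k w
  have hτ : ∀ k ∈ I, ∀ t, Cl {l | l < k} {z | τ k z = t} := by
    intro k hk t
    obtain ⟨F, hF1, hF2⟩ := cl_sel (fun w => ha1 k w) t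
    refine ⟨F, fun l hl => ?_, hF2⟩
    have h2 : (ofLex l).1 < i := hF1 hl
    rw [← hI' k hk] at h2
    show l < k
    rw [Prod.Lex.lt_iff]
    exact Or.inl h2
  have hcl : Cl Set.univ {z : Pt (TW L) | ∀ k ∈ I, z k ≠ τ k z} := by
    refine cl_hit fun k hk t => ?_
    obtain ⟨F, _, hF2⟩ := hτ k hk t
    exact ⟨F, fun _ _ => trivial, hF2⟩
  have hH : mu ν {z : Pt (TW L) | ∀ k ∈ I, z k ≠ τ k z} ≤ ENNReal.ofReal ((1 / 2) ^ j) := by
    rw [hMUC (KK L) (TW L) ν hν _ hcl]
    exact ENNReal.ofReal_le_ofReal (hHit j I hI τ hτ)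
  have hsub : {z | ∀ k ∈ I, len k ≤ (G z).length ∧ List.ofFn (z k) ≠ (G z).take (len k)} ⊆
      {z : Pt (TW L) | ∀ k ∈ I, z k ≠ τ k z} ∪ ⋃ k ∈ I, ⋃ w ∈ (Finset.univ : Finset (TW L k)),
        symmDiff {z | (G z).take (len k) = List.ofFn w} (a k w) := by
    intro z hz
    by_contra hcon
    rw [Set.mem_union, not_or] at hcon
    obtain ⟨hc1, hc2⟩ := hcon
    have hc3 : ∀ k ∈ I, ∀ w : TW L k, (G z).take (len k) = List.ofFn w ↔ z ∈ a k w := by
      intro k hk w
      by_contra hne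
      apply hc2
      simp only [Set.mem_iUnion]
      refine ⟨k, hk, w, Finset.mem_univ _, ?_⟩
      rw [Set.mem_symmDiff]
      by_cases hw : z ∈ a k w
      · exact Or.inr ⟨hw, fun h3 => hne ⟨fun _ => hw, fun _ => h3⟩⟩
      · refine Or.inl ⟨?_, hw⟩
        by_contra h3
        exact hne ⟨fun h4 => absurd h4 h3, fun h4 => absurd h4 hw⟩
    simp only [Set.mem_ofPred_eq, not_forall, not_not] at hc1
    obtain ⟨k, hk, hzk⟩ := hc1
    obtain ⟨hl, hne⟩ := hz k hk
    -- the word of length `len k`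
    have hlen : ((G z).take (len k)).length = len k := by
      rw [List.length_take]
      exact min_eq_left hl
    obtain ⟨w0, hw0⟩ : ∃ w0 : TW L k, (G z).take (len k) = List.ofFn w0 := by
      refine ⟨fun n => ((G z).take (len k))[n.1]'(by rw [hlen]; exact n.2), ?_⟩
      apply List.ext_getElem
      · rw [List.length_ofFn, hlen]
      · intro n h3 h4
        rw [List.getElem_ofFn]
    have h5 : z ∈ a k (τ k z) := sel_spec (P := fun w => z ∈ a k w) ⟨w0, (hc3 k hk w0).1 hw0⟩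
    have h6 := (hc3 k hk (τ k z)).2 h5
    apply hne
    rw [hzk, h6]
  have hbd : mu ν (⋃ k ∈ I, ⋃ w ∈ (Finset.univ : Finset (TW L k)),
      symmDiff {z | (G z).take (len k) = List.ofFn w} (a k w)) ≤ ENNReal.ofReal ((1 / 2) ^ j) := by
    calc mu ν (⋃ k ∈ I, ⋃ w ∈ (Finset.univ : Finset (TW L k)),
          symmDiff {z | (G z).take (len k) = List.ofFn w} (a k w))
        ≤ ∑ k ∈ I, mu ν (⋃ w ∈ (Finset.univ : Finset (TW L k)),
          symmDiff {z | (G z).take (len k) = List.ofFn w} (a k w)) :=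
          MeasureTheory.measure_biUnion_finset_le _ _
      _ ≤ ∑ k ∈ I, ∑ w ∈ (Finset.univ : Finset (TW L k)),
          mu ν (symmDiff {z | (G z).take (len k) = List.ofFn w} (a k w)) :=
          Finset.sum_le_sum fun k _ => MeasureTheory.measure_biUnion_finset_le _ _
      _ ≤ ∑ k ∈ I, ∑ w ∈ (Finset.univ : Finset (TW L k)), ε :=
          Finset.sum_le_sum fun k _ => Finset.sum_le_sum fun w _ => ha2 k w
      _ = (M : ℝ≥0∞) * ε := by
          simp only [Finset.sum_const, nsmul_eq_mul, Finset.card_univ]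
          rw [← Finset.sum_mul, hM, Nat.cast_sum]
      _ ≤ ENNReal.ofReal ((1 / 2) ^ j) := by
          rw [hε, ← ENNReal.ofReal_natCast M, ← ENNReal.ofReal_mul (by positivity)]
          apply ENNReal.ofReal_le_ofReal
          have h7 : (0 : ℝ) < M + 1 := by positivity
          have h8 : (0 : ℝ) < (1 / 2) ^ j := by positivity
          rw [mul_div_assoc', div_le_iff₀ h7]
          nlinarith
  calc mu ν {z | ∀ k ∈ I, len k ≤ (G z).length ∧ List.ofFn (z k) ≠ (G z).take (len k)}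
      ≤ _ := MeasureTheory.measure_mono hsub
    _ ≤ _ := MeasureTheory.measure_union_le _ _
    _ ≤ ENNReal.ofReal ((1 / 2) ^ j) + ENNReal.ofReal ((1 / 2) ^ j) := add_le_add hH hbd
    _ = 2 * ENNReal.ofReal ((1 / 2) ^ j) := (two_mul _).symm

theorem kk_inj [LinearOrder L] (i : L) (F : ℕ → ℕ) :
    Function.Injective fun n => (kk i n (F n) : KK L) := by
  intro n m h
  have h1 := congrArg (fun k : KK L => (ofLex (ofLex k).2).1) h
  exact h1

end HTG_

namespace HTG_

variable {L : Type}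

theorem msall (hSMS : T_SMS) [LinearOrder L] (X : Type) [MeasurableSpace X]
    (f : Filter X) (hf : CS X f) (ν : Set (Pt (TW L)) → ℝ) (hν : SubM (TW L) ν) (i : L)
    (S : Om X (TW L) → ℕ → List Bool) (hS : Mf (sig X (TW L) (SL i)) S) (j m : ℕ)
    (w : List Bool) :
    ∀ᶠ x in f, Ms ν (SL i) (sec {ω : Om X (TW L) | (S ω j).take m = w} x) := by
  have hE : MeasurableSet[sig X (TW L) (SL i)] {ω : Om X (TW L) | (S ω j).take m = w} := by
    have h1 : {ω : Om X (TW L) | (S ω j).take m = w} =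
        ⋃ v : {v : List Bool // v.take m = w}, {ω | S ω j = v.1} := by
      ext ω
      simp
    rw [h1]
    exact MeasurableSet.iUnion fun v => hS j v.1
  exact hSMS X f hf (KK L) (TW L) ν hν (SL i) _ hE

/-- the bad event at `x` -/
def bad [LinearOrder L] {X : Type} (i : L) (F : X → ℕ → ℕ) (S : Om X (TW L) → ℕ → List Bool)
    (I : ℕ → Finset ℕ) (x : X) (j : ℕ) : Set (Pt (TW L)) :=
  {z | (∀ n ∈ I j, F x n ≤ (S ((x, z) : Om X (TW L)) j).length) ∧
      ∀ n ∈ I j, Zf i F ((x, z) : Om X (TW L)) n ≠ (S ((x, z) : Om X (TW L)) j).take (F x n)}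

theorem badle (hMUC : T_MUC) [LinearOrder L] {X : Type} (ν : Set (Pt (TW L)) → ℝ) (N : ℕ → ℕ)
    (hν : SubM (TW L) ν) (hHit : Hit (TW L) ν N) (i : L) (F : X → ℕ → ℕ)
    (S : Om X (TW L) → ℕ → List Bool) (I : ℕ → Finset ℕ) (hI : ∀ j, N j ≤ (I j).card) (x : X)
    (hx : ∀ (j m : ℕ) (w : List Bool),
      Ms ν (SL i) (sec {ω : Om X (TW L) | (S ω j).take m = w} x)) (j : ℕ) :
    mu ν (bad i F S I x j) ≤ 2 * ENNReal.ofReal ((1 / 2) ^ j) := by
  have h1 := bound hMUC ν N hν hHit i j ((I j).image fun n => (kk i n (F x n) : KK L))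
    (by rw [Finset.card_image_of_injective _ (kk_inj i (F x))]; exact hI j)
    (by
      intro k hk
      obtain ⟨n, _, rfl⟩ := Finset.mem_image.1 hk
      rfl)
    (fun z => S ((x, z) : Om X (TW L)) j) (fun m w => hx j m w)
  refine (MeasureTheory.measure_mono ?_).trans h1
  rintro z ⟨hz1, hz2⟩ k hk
  obtain ⟨n, hn, rfl⟩ := Finset.mem_image.1 hk
  exact ⟨hz1 n hn, hz2 n hn⟩

theorem badnull [LinearOrder L] (ν : Set (Pt (TW L)) → ℝ) {X : Type} (i : L) (F : X → ℕ → ℕ)
    (S : Om X (TW L) → ℕ → List Bool) (I : ℕ → Finset ℕ) (x : X)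
    (hb : ∀ j, mu ν (bad i F S I x j) ≤ 2 * ENNReal.ofReal ((1 / 2) ^ j)) :
    mu ν {z | ∃ᶠ j in atTop, z ∈ bad i F S I x j} = 0 := by
  have hsum : ∑' j, mu ν (bad i F S I x j) ≠ ∞ := by
    refine ne_top_of_le_ne_top ?_ (ENNReal.tsum_le_tsum hb)
    rw [ENNReal.tsum_mul_left, ← ENNReal.ofReal_tsum_of_nonneg (fun n => by positivity)
      (summable_geometric_of_lt_one (by norm_num) (by norm_num))]
    exact ENNReal.mul_ne_top (by norm_num) ENNReal.ofReal_ne_top
  exact MeasureTheory.measure_setOfPred_frequently_eq_zero hsum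

end HTG_

open HTG_ in
theorem p_HTG (hSMS : T_SMS) (hMUC : T_MUC) : T_HTG := by
  intro L _ X _ f hf ν N hν hHit i F hF S hS I hI
  have hci : CountableInterFilter f := hf.ci
  have hms : ∀ᶠ x in f, ∀ (j m : ℕ) (w : List Bool),
      Ms ν (SL i) (sec {ω : Om X (TW L) | (S ω j).take m = w} x) := by
    rw [eventually_countable_forall]
    intro j
    rw [eventually_countable_forall]
    intro m
    rw [eventually_countable_forall]
    intro w
    exact msall hSMS X f hf ν hν i S hS j m w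
  refine mem_NN.2 (hms.mono fun x hx => ?_)
  refine MeasureTheory.measure_mono_null ?_
    (badnull ν i F S I x (badle hMUC ν N hν hHit i F S I hI x hx))
  intro z hz
  rw [Set.mem_ofPred_eq, not_eventually] at hz
  refine hz.mono fun j hj => ?_
  rw [Classical.not_imp] at hj
  exact ⟨hj.1, fun n hn h => hj.2 ⟨n, hn, h⟩⟩

end Pool.Agent.SNC
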