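import Pool.Agent.SNC.P_EMS

/-!
# MP_3e8648_lc, case b, Part II: INF, uncountably many non null sets in a ccc space
-/

set_option autoImplicit false
set_option linter.unusedVariables false

open scoped Classical ENNReal MeasureTheory
open Filter CofSN

noncomputable section

namespace Pool.Agent.SNC

namespace INF_

/-- countable subfamilies, for indexed families -/
theorem idx {X : Type} [MeasurableSpace X] {f : Filter X} (hf : CS X f) {ι : Type}
    (b : ι → Set X) (hb : ∀ i, MeasurableSet (b i)) (I : Set ι) :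
    ∃ I' ⊆ I, I'.Countable ∧ ∀ i ∈ I, ∀ᶠ x in f, x ∈ b i → ∃ j ∈ I', x ∈ b j := by
  obtain ⟨G, hG, hGc, h⟩ := EMS_.ess hf (b '' I) (by
    rintro E ⟨i, -, rfl⟩
    exact hb i)
  have h1 : ∀ g : G, ∃ i ∈ I, b i = g.1 := fun g => hG g.2
  choose c hcI hcb using h1
  have : Countable G := hGc
  refine ⟨Set.range c, ?_, Set.countable_range c, fun i hi => ?_⟩
  · rintro _ ⟨g, rfl⟩
    exact hcI g
  · filter_upwards [h (b i) ⟨i, hi, rfl⟩] with x hx hxi
    obtain ⟨g, hg, hxg⟩ := hx hxi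
    exact ⟨c ⟨g, hg⟩, ⟨⟨g, hg⟩, rfl⟩, by rw [hcb]; exact hxg⟩

/-- `T_INF`, with a choice of countable subfamilies -/
theorem main {X : Type} [MeasurableSpace X] {f : Filter X} (hf : CS X f) {ι : Type}
    (b : ι → Set X) (hι : ¬ Countable ι) (hb : ∀ i, MeasurableSet (b i))
    (hpos : ∀ i, ∃ᶠ x in f, x ∈ b i) :
    ∃ J : Set ι, J.Countable ∧ ∃ᶠ x in f, {i | i ∈ J ∧ x ∈ b i}.Infinite := by
  have := hf.nb
  have := hf.ci
  choose g hg1 hg2 hg3 using fun J : Set ι => idx hf b hb Jᶜ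
  -- the essential supremum outside of `J`
  let s : Set ι → Set X := fun J => {x | ∃ j ∈ g J, x ∈ b j}
  have hs : ∀ J, MeasurableSet (s J) := by
    intro J
    have : s J = ⋃ j ∈ g J, b j := by
      ext x
      simp [s]
    rw [this]
    exact MeasurableSet.biUnion (hg2 J) fun j _ => hb j
  have mono : ∀ J J' : Set ι, J ⊆ J' → ∀ᶠ x in f, x ∈ s J' → x ∈ s J := by
    intro J J' hJ
    have h1 : ∀ᶠ x in f, ∀ j ∈ g J', x ∈ b j → ∃ k ∈ g J, x ∈ b k :=
      (eventually_countable_ball (hg2 J')).2 fun j hj => hg3 J j fun h => hg1 J' hj (hJ h)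
    filter_upwards [h1] with x hx hxs
    obtain ⟨j, hj, hxj⟩ := hxs
    exact hx j hj hxj
  -- the essential infimum
  obtain ⟨𝓙, -, h𝓙c, h𝓙⟩ := idx hf (fun J : {J : Set ι // J.Countable} => (s J.1)ᶜ)
    (fun J => (hs J.1).compl) Set.univ
  let J₀ : Set ι := ⋃ J ∈ 𝓙, J.1
  have hJ₀ : J₀.Countable := h𝓙c.biUnion fun J _ => J.2
  have hmin : ∀ J : Set ι, J.Countable → ∀ᶠ x in f, x ∈ s J₀ → x ∈ s J := by
    intro J hJ
    have h1 : ∀ᶠ x in f, ∀ J' ∈ 𝓙, x ∈ s J₀ → x ∈ s J'.1 :=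
      (eventually_countable_ball h𝓙c).2 fun J' hJ' =>
        mono J'.1 J₀ (Set.subset_biUnion_of_mem hJ')
    filter_upwards [h1, h𝓙 ⟨J, hJ⟩ trivial] with x h1 h2 hx
    by_contra h3
    obtain ⟨J', hJ', h4⟩ := h2 h3
    exact h4 (h1 J' hJ' hx)
  have hfr : ∃ᶠ x in f, x ∈ s J₀ := by
    obtain ⟨i, hi⟩ : ∃ i, i ∉ J₀ := by
      by_contra h
      push Not at h
      apply hι
      have h1 : J₀ = Set.univ := Set.eq_univ_of_forall h
      rw [h1] at hJ₀
      exact Set.countable_univ_iff.1 hJ₀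
    exact (hpos i).mp (hg3 J₀ i hi)
  -- the sequence of disjoint countable sets
  let K : ℕ → Set ι := fun n => Nat.rec J₀ (fun _ J => J ∪ g J) n
  have hK0 : K 0 = J₀ := rfl
  have hK1 : ∀ n, K (n + 1) = K n ∪ g (K n) := fun n => rfl
  have hKc : ∀ n, (K n).Countable := by
    intro n
    induction n with
    | zero => exact hJ₀
    | succ n ih => rw [hK1]; exact ih.union (hg2 _)
  have hKm : Monotone K := monotone_nat_of_le_succ fun n => by
    rw [hK1]
    exact Set.subset_union_left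
  refine ⟨⋃ n, g (K n), Set.countable_iUnion fun n => hg2 _, ?_⟩
  have hall : ∀ᶠ x in f, ∀ n, x ∈ s J₀ → x ∈ s (K n) :=
    eventually_countable_forall.2 fun n => hmin _ (hKc n)
  refine hfr.mp ?_
  filter_upwards [hall] with x hx hx0
  have h1 : ∀ n, ∃ j ∈ g (K n), x ∈ b j := fun n => hx n hx0
  choose j hj hxj using h1
  have hinj : Function.Injective j := by
    have key : ∀ m n, m < n → j m ≠ j n := by
      intro m n hmn h
      have h2 : j m ∈ K n := by
        have h3 : j m ∈ K (m + 1) := by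
          rw [hK1]
          exact Or.inr (hj m)
        exact hKm hmn h3
      rw [h] at h2
      exact hg1 (K n) (hj n) h2
    intro m n h
    rcases lt_trichotomy m n with h1 | h1 | h1
    · exact absurd h (key m n h1)
    · exact h1
    · exact absurd h.symm (key n m h1)
  refine (Set.infinite_range_of_injective hinj).mono ?_
  rintro _ ⟨n, rfl⟩
  exact ⟨Set.mem_iUnion.2 ⟨n, hj n⟩, hxj n⟩

end INF_

/-- `T_INF` -/
theorem p_INF : T_INF := by
  intro X _ f hf ι b hι hb hpos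
  exact INF_.main hf b hι hb hpos

end Pool.Agent.SNC
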