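import Pool.Agent.SNC.T1

/-! # SNC-LVL: the levels -/

set_option autoImplicit false
set_option linter.unusedVariables false

open scoped Classical ENNReal MeasureTheory
open Filter CofSN

noncomputable section

namespace Pool.Agent.SNC

theorem p_LVL (hEME : T_EME) (hEMS : T_EMS) (hCNT : T_CNT) (hCSO : T_CSO) : T_LVL := by
  intro X _ f hf K T _ ν hν L _ _ S hS hk hb
  have hO : CS (Om X T) (NN f ν) := hCSO X f hf K T ν hν
  obtain ⟨e1, e2⟩ := hEMS (Om X T) (NN f ν) hO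
  obtain ⟨c1, c2⟩ := hCNT X K T
  have hsub : ∀ (A : Set K) (E : Set (Om X T)), MeasurableSet[sig X T A] E → MeasurableSet E :=
    fun A E hE => c1 A Set.univ (Set.subset_univ A) E hE
  refine ⟨{ Lv := fun i => {U | ∃ E, MeasurableSet[sig X T (S i)] E ∧ U = em (NN f ν) E},
            mono := ?_, sup := ?_, cpl := ?_, all := ?_, bdd := hb }, fun i => rfl⟩
  · rintro i j hij U ⟨E, hE, rfl⟩
    exact ⟨E, c1 (S i) (S j) (hS hij) E hE, rfl⟩
  · intro i S' hS'
    obtain ⟨G, hG, hGc, hsup⟩ := e1 {E | MeasurableSet[sig X T (S i)] E ∧ em (NN f ν) E ∈ S'}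
      (fun E hE => hsub _ E hE.1)
    refine ⟨⋃₀ G, ?_, ?_⟩
    · exact MeasurableSet.sUnion hGc fun E hE => (hG hE).1
    · rw [← hsup]
      congr 1
      ext U
      constructor
      · intro hU
        obtain ⟨E, hE, rfl⟩ := hS' hU
        exact ⟨E, ⟨hE, hU⟩, rfl⟩
      · rintro ⟨E, ⟨hE, hU⟩, rfl⟩
        exact hU
  · rintro i U ⟨E, hE, rfl⟩
    refine ⟨Eᶜ, hE.compl, ?_⟩
    exact (hEME (Om X T) (NN f ν) hO).2.1 E (hsub _ E hE)
  · intro U
    obtain ⟨E, hE, rfl⟩ := e2 U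
    obtain ⟨C, -, hC, hEC⟩ := c2 Set.univ E hE
    choose ind hind using hk
    have hC' : (ind '' C).Countable := hC.image ind
    obtain ⟨b, hbb⟩ : ∃ b, ∀ i ∈ ind '' C, i ≤ b := by
      rcases Set.eq_empty_or_nonempty (ind '' C) with h0 | h0
      · obtain ⟨b⟩ := (inferInstance : Nonempty L)
        exact ⟨b, fun i hi => by rw [h0] at hi; exact absurd hi (Set.notMem_empty i)⟩
      · obtain ⟨s, hs⟩ := hC'.exists_eq_range h0
        obtain ⟨b, hb'⟩ := hb s
        refine ⟨b, fun i hi => ?_⟩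
        rw [hs] at hi
        obtain ⟨n, rfl⟩ := hi
        exact hb' n
    refine ⟨b, E, c1 C (S b) ?_ E hEC, rfl⟩
    intro k hkC
    exact hS (hbb _ ⟨k, hkC, rfl⟩) (hind k)

end Pool.Agent.SNC
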