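import Pool.Agent.SNC.T1

/-!
# MP_3e8648_lc, case b, Part II: MOD, the model (helper58)
-/

set_option autoImplicit false
set_option linter.unusedVariables false

open scoped Classical ENNReal MeasureTheory
open Filter CofSN

noncomputable section

namespace Pool.Agent.SNC

namespace MOD_

lemma em_top {Ω : Type} [MeasurableSpace Ω] {f : Filter Ω} {E : Set Ω}
    (h : ∀ᶠ ω in f, ω ∈ E) : em f E = ⊤ := by
  rw [RO.eq_top_iff']
  intro p
  refine RO.mem_gen.2 fun q _ => ⟨q, le_rfl, q, ?_, le_rfl⟩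
  exact h.mono fun ω hω _ => hω

lemma em_inf_le {Ω : Type} [MeasurableSpace Ω] {f : Filter Ω} {A B C : Set Ω}
    (h : ∀ᶠ ω in f, ω ∈ A → ω ∈ B → ω ∈ C) : em f A ⊓ em f B ≤ em f C := by
  intro p hp
  rw [RO.mem_inf] at hp
  refine RO.mem_gen.2 fun q hq => ?_
  obtain ⟨r, hr, s, hs, hrs⟩ := RO.mem_gen.1 hp.1 q hq
  obtain ⟨r', hr', s', hs', hrs'⟩ := RO.mem_gen.1 hp.2 r (hr.trans hq)
  refine ⟨r', hr'.trans hr, r', ?_, le_rfl⟩
  have h1 : r' ≤ s := hr'.trans hrs
  have h2 := Po.le_def.1 h1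
  have h3 := Po.le_def.1 hrs'
  have hs1 : ∀ᶠ ω in f, ω ∈ s.1 → ω ∈ A := hs
  have hs2 : ∀ᶠ ω in f, ω ∈ s'.1 → ω ∈ B := hs'
  filter_upwards [h, h2, h3, hs1, hs2] with ω a1 a2 a3 a4 a5 hω
  exact a1 (a4 (a2 hω)) (a5 (a3 hω))

/-- consecutive intervals -/
def cc (N : ℕ → ℕ) : ℕ → ℕ
  | 0 => 0
  | j + 1 => cc N j + (N j + 1)

lemma le_cc (N : ℕ → ℕ) (j : ℕ) : j ≤ cc N j := by
  induction j with
  | zero => exact le_rfl
  | succ j ih => simp only [cc]; omega

def II (N : ℕ → ℕ) (j : ℕ) : Finset ℕ := Finset.Ico (cc N j) (cc N (j + 1))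

lemma card_II (N : ℕ → ℕ) (j : ℕ) : N j ≤ (II N j).card := by
  simp only [II, cc, Nat.card_Ico]; omega

lemma le_of_mem_II {N : ℕ → ℕ} {j n : ℕ} (h : n ∈ II N j) : j ≤ n :=
  (le_cc N j).trans (Finset.mem_Ico.1 h).1

lemma Mf_sup {X : Type} [MeasurableSpace X] {F : X → ℕ → ℕ} (hF : Mf inferInstance F)
    (I : ℕ → Finset ℕ) : Mf inferInstance (fun x j => (I j).sup (F x)) := by
  have hm : ∀ n, Measurable (fun x => F x n) := fun n => measurable_to_countable' fun a => hF n a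
  have key : ∀ s : Finset ℕ, Measurable (fun x => s.sup (F x)) := by
    intro s
    induction s using Finset.induction_on with
    | empty => simp only [Finset.sup_empty]; exact measurable_const
    | insert a s ha ih =>
      simp only [Finset.sup_insert]
      exact (hm a).sup ih
  intro j a
  exact (key (I j)) (measurableSet_singleton a)

lemma ev_fst {X K : Type} {T : K → Type} {f : Filter X} {ν : Set (Pt T) → ℝ} {p : X → Prop}
    (h : ∀ᶠ x in f, p x) : ∀ᶠ ω in NN f ν, p (ω : Om X T).1 := by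
  rw [mem_NN]
  filter_upwards [h] with x hx
  have : {z : Pt T | ¬ p ((x, z) : Om X T).1} = ∅ := by
    ext z
    simpa using hx
  rw [this, MeasureTheory.measure_empty]

lemma sig_le {X : Type} [MeasurableSpace X] {K : Type} {T : K → Type} (S : Set K) :
    sig X T S ≤ (inferInstance : MeasurableSpace (Om X T)) := by
  refine MeasurableSpace.generateFrom_mono ?_
  rintro E (h | ⟨k, hk, t, rfl⟩)
  · exact Or.inl h
  · exact Or.inr ⟨k, Set.mem_univ k, t, rfl⟩

end MOD_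

open MOD_

theorem p_MOD (hEMS : T_EMS) (hRPX : T_RPX) (hEVL : T_EVL) (hEME : T_EME) (hCSO : T_CSO)
    (hLVL : T_LVL) (hDOM : T_DOM) (hHTG : T_HTG) (hZFM : T_ZFM) (hSNA : T_SNA) : T_MOD := by
  intro L _ _ _ _ hL X _ f hG ν N hν hN
  have hcs : CS (Om X (TW L)) (NN f ν) := hCSO X f hG.cs (KK L) (TW L) ν hν
  obtain ⟨hev1, hev2, hev3, hev4⟩ := hEVL _ _ hcs
  -- names have representations
  have rep : ∀ (α : Type) [Countable α] [Nonempty α] (x : Nm (RO (Po (NN f ν))) α),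
      ∃ F : Om X (TW L) → ℕ → α, Mf inferInstance F ∧ Rep x F := by
    intro α _ _ x
    refine (hRPX _ α _ hcs).1 x _ le_rfl fun n a => ?_
    exact (hEMS _ _ hcs).2 (x.v n a)
  have nam : ∀ (α : Type) [Countable α] [Nonempty α] (F : Om X (TW L) → ℕ → α),
      Mf inferInstance F → ∃ x : Nm (RO (Po (NN f ν))) α, Rep x F := by
    intro α _ _ F hF
    exact (hRPX _ α _ hcs).2 F hF
  have i0 : L := Classical.arbitrary L
  -- the dominating family
  let D : Set (Nm (RO (Po (NN f ν))) ℕ) :=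
    {n | ∃ F : X → ℕ → ℕ, Mf inferInstance F ∧ Rep n (fun ω : Om X (TW L) => F ω.1)}
  have nD : ∀ F : X → ℕ → ℕ, Mf inferInstance F → ∃ n ∈ D, Rep n (fun ω : Om X (TW L) => F ω.1) := by
    intro F hF
    obtain ⟨n, hn⟩ := nam ℕ (fun ω : Om X (TW L) => F ω.1) (hZFM L X i0 F hF).1
    exact ⟨n, ⟨F, hF, hn⟩, hn⟩
  refine ⟨(hEME _ _ hcs).2.2.2.2.2.2.2.2.2.2, ?_, ?_⟩
  · obtain ⟨Λ, hΛ⟩ := hLVL X f hG.cs (KK L) (TW L) ν hν L SL
      (by
        intro i j hij k hk
        exact lt_of_lt_of_le hk hij)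
      (by
        intro k
        obtain ⟨i, hi⟩ := exists_gt (ofLex k).1
        exact ⟨i, hi⟩) hL
    refine hSNA L _ Λ D ?_ ?_ ?_
    · intro n
      obtain ⟨F, hF, hr⟩ := rep ℕ n
      obtain ⟨G, hG', hd⟩ := hDOM X f hG.cs (KK L) (TW L) ν hν F hF
      obtain ⟨m, hm, hr'⟩ := nD G hG'
      refine ⟨m, hm, ?_⟩
      have e := hev2 n m F (fun ω : Om X (TW L) => G ω.1) hF (hZFM L X i0 G hG').1 hr hr'
      rw [e]
      exact em_top hd
    · intro g hg
      have hg' : ∀ i, ∃ F : X → ℕ → ℕ, Mf inferInstance F ∧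
        Rep (g i) (fun ω : Om X (TW L) => F ω.1) := hg
      choose F hF hr using hg'
      obtain ⟨G, hG', hd⟩ := hG.bnd F hF
      obtain ⟨m, hm, hr'⟩ := nD G hG'
      refine ⟨m, hm, fun i => ?_⟩
      have e := hev2 (g i) m (fun ω : Om X (TW L) => F i ω.1) (fun ω : Om X (TW L) => G ω.1)
        (hZFM L X i0 (F i) (hF i)).1 (hZFM L X i0 G hG').1 (hr i) hr'
      rw [e]
      have hd' : ∀ᶠ ω in NN f ν, ∀ᶠ n in atTop, F i (ω : Om X (TW L)).1 n ≤ G ω.1 n :=
        ev_fst (p := fun x => ∀ᶠ n in atTop, F i x n ≤ G x n) (hd i)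
      exact em_top hd'
    · rintro i n ⟨F, hF, hr⟩
      obtain ⟨hz1, hz2, hz3⟩ := hZFM L X i F hF
      obtain ⟨z, hz⟩ := nam (List Bool) (Zf (X := X) i F) hz2
      refine ⟨z, ?_, ?_⟩
      · have e := (hev3 n z (fun ω : Om X (TW L) => F ω.1) (Zf (X := X) i F) hz1 hz2 hr hz).1
        rw [e]
        refine em_top (Eventually.of_forall fun ω k => ?_)
        rw [hz3 ω k]
      · have hF' := Mf_sup hF (II N)
        obtain ⟨n', hn', hr'⟩ := nD _ hF'
        refine ⟨n', hn', fun σ hσ x => ?_⟩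
        obtain ⟨S, hS, hSr⟩ := (hRPX _ (List Bool) _ hcs).1 σ (sig X (TW L) (SL i)) (sig_le (SL i))
          (by
            intro k a
            have := hσ k a
            rw [hΛ i] at this
            exact this)
        have hS' : Mf (inferInstance : MeasurableSpace (Om X (TW L))) S :=
          fun k a => sig_le (SL i) _ (hS k a)
        obtain ⟨Z, hZ, hZr⟩ := rep Bool x
        have e1 := (hev3 n' σ (fun ω : Om X (TW L) => fun j => (II N j).sup (F ω.1)) S
          (hZFM L X i _ hF').1 hS' hr' hSr).2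
        have e2 := hev4 σ x S Z hS' hZ hSr hZr
        have e3 := hev4 z x (Zf (X := X) i F) Z hz2 hZ hz hZr
        rw [e1, e2, e3]
        refine em_inf_le ?_
        have hH := hHTG L X f hG.cs ν N hν hN i F hF S hS (II N) (card_II N)
        filter_upwards [hH] with ω h1 h2 h3
        have h2' : ∀ᶠ j in atTop, (II N j).sup (F ω.1) ≤ (S ω j).length := h2
        have h3' : ∃ᶠ j in atTop, Pre (S ω j) (Z ω) := h3
        show ∃ᶠ j in atTop, Pre (Zf i F ω j) (Z ω)
        have h4 := (h3'.and_eventually (h1.and h2'))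
        rw [frequently_atTop] at h4 ⊢
        intro a
        obtain ⟨j, hj, hp, hq, hl⟩ := h4 a
        obtain ⟨k, hk, he⟩ := hq fun k hk => (Finset.le_sup (f := F ω.1) hk).trans hl
        refine ⟨k, hj.trans (le_of_mem_II hk), ?_⟩
        rw [he]
        intro m hm
        rw [List.getElem_take]
        exact hp m _
  · intro g
    choose F hF hr using fun i => rep ℕ (g i)
    choose G hG1 hG2 using fun i => hDOM X f hG.cs (KK L) (TW L) ν hν (F i) (hF i)
    obtain ⟨H, hH1, hH2⟩ := hG.bnd G hG1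
    obtain ⟨m, hm, hr'⟩ := nD H hH1
    refine ⟨m, fun i => ?_⟩
    have e := hev2 (g i) m (F i) (fun ω : Om X (TW L) => H ω.1) (hF i) (hZFM L X i0 H hH1).1
      (hr i) hr'
    rw [e]
    refine em_top ?_
    have hd' : ∀ᶠ ω in NN f ν, ∀ᶠ n in atTop, G i (ω : Om X (TW L)).1 n ≤ H ω.1 n :=
      ev_fst (p := fun x => ∀ᶠ n in atTop, G i x n ≤ H x n) (hH2 i)
    filter_upwards [hG2 i, hd'] with ω h1 h2
    show ∀ᶠ n in atTop, F i ω n ≤ H ω.1 n
    filter_upwards [h1, h2] with n a b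
    exact a.trans b

end Pool.Agent.SNC
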