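import Pool.Agent.SNC.T1

/-!
# SNC-MUC (helper17): the outer measure extends the submeasure
-/

set_option autoImplicit false
set_option linter.unusedVariables false

open scoped Classical ENNReal MeasureTheory
open Filter CofSN

noncomputable section

namespace Pool.Agent.SNC

namespace MUC_

variable {K : Type} {T : K → Type}

/-- the weight of the covers -/
def m (ν : Set (Pt T) → ℝ) (a : Set (Pt T)) : ℝ≥0∞ :=
  if a = ∅ then 0 else if Cl Set.univ a then ENNReal.ofReal (ν a) else ⊤

lemma m_cl {ν : Set (Pt T) → ℝ} (hν : ν ∅ = 0) {a : Set (Pt T)} (ha : Cl Set.univ a) :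
    m ν a = ENNReal.ofReal (ν a) := by
  unfold m
  by_cases h : a = ∅
  · rw [if_pos h, h, hν, ENNReal.ofReal_zero]
  · rw [if_neg h, if_pos ha]

lemma fin_le (h_ALG : T_ALG) (ν : Set (Pt T) → ℝ) (hν : SubM T ν) (b : ℕ → Set (Pt T))
    (hb : ∀ n, Cl Set.univ (b n)) (N : ℕ) :
    Cl Set.univ (⋃ n ∈ Finset.range N, b n) ∧
      ν (⋃ n ∈ Finset.range N, b n) ≤ ∑ n ∈ Finset.range N, ν (b n) := by
  induction N with
  | zero =>
    have h : (⋃ n ∈ Finset.range 0, b n) = ∅ := by simp
    rw [h, hν.empty, Finset.sum_range_zero]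
    exact ⟨(h_ALG K T Set.univ).1.1, le_refl _⟩
  | succ N ih =>
    have h : (⋃ n ∈ Finset.range (N + 1), b n) = (⋃ n ∈ Finset.range N, b n) ∪ b N := by
      ext z
      simp only [Set.mem_iUnion, Finset.mem_range, Set.mem_union, exists_prop]
      constructor
      · rintro ⟨n, hn, hz⟩
        rcases Nat.lt_succ_iff_lt_or_eq.1 hn with h1 | h1
        · exact Or.inl ⟨n, h1, hz⟩
        · exact Or.inr (h1 ▸ hz)
      · rintro (⟨n, hn, hz⟩ | hz)
        · exact ⟨n, by omega, hz⟩
        · exact ⟨N, by omega, hz⟩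
    rw [h, Finset.sum_range_succ]
    refine ⟨((h_ALG K T Set.univ).2.2.1 _ _ ih.1 (hb N)).1, ?_⟩
    exact (hν.add _ _ ih.1 (hb N)).trans (by linarith [ih.2])

end MUC_

open MUC_

/-- `T_MUC` -/
theorem p_MUC (h_CPC : T_CPC) (h_ALG : T_ALG) : T_MUC := by
  intro K T _ ν hν a ha
  refine le_antisymm ?_ ?_
  · refine (MeasureTheory.OuterMeasure.ofFunction_le a).trans ?_
    exact le_of_eq (m_cl hν.empty ha)
  · have e : mu ν a = ⨅ (t : ℕ → Set (Pt T)) (_ : a ⊆ ⋃ i, t i), ∑' n, m ν (t n) :=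
      MeasureTheory.OuterMeasure.ofFunction_apply _ _ a
    rw [e]
    refine le_iInf₂ fun t ht => ?_
    by_cases htop : ∑' n, m ν (t n) = ⊤
    · rw [htop]
      exact le_top
    · have hcl : ∀ n, Cl Set.univ (t n) := by
        intro n
        by_contra hc
        have h1 : m ν (t n) = ⊤ := by
          unfold m
          have h2 : t n ≠ ∅ := by
            intro h2
            rw [h2] at hc
            exact hc (h_ALG K T Set.univ).1.1
          rw [if_neg h2, if_neg hc]
        exact ENNReal.ne_top_of_tsum_ne_top htop n h1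
      obtain ⟨N, hN⟩ := h_CPC K T a t ha hcl ht
      obtain ⟨h1, h2⟩ := fin_le h_ALG ν hν t hcl N
      have h3 := (hν.mono _ _ ha h1 hN).trans h2
      calc ENNReal.ofReal (ν a) ≤ ENNReal.ofReal (∑ n ∈ Finset.range N, ν (t n)) :=
            ENNReal.ofReal_le_ofReal h3
        _ = ∑ n ∈ Finset.range N, ENNReal.ofReal (ν (t n)) :=
            ENNReal.ofReal_sum_of_nonneg fun n _ => hν.nonneg _ (hcl n)
        _ = ∑ n ∈ Finset.range N, m ν (t n) :=
            Finset.sum_congr rfl fun n _ => (m_cl hν.empty (hcl n)).symm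
        _ ≤ ∑' n, m ν (t n) := ENNReal.sum_le_tsum _

end Pool.Agent.SNC
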