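import Pool.Agent.SNC.T1

/-!
# SNC: RAS, Rasiowa-Sikorski
-/

set_option autoImplicit false
set_option linter.unusedVariables false

open scoped Classical
open CofSN

noncomputable section

namespace Pool.Agent.SNC

namespace RAS_

/-- the ultrafilter generated by a descending sequence of conditions -/
lemma ext {P : Type} [Preorder P] (p : ℕ → P) (hp : ∀ n, p (n + 1) ≤ p n) :
    ∃ x : St0 P, ∀ (U : RO P) (n : ℕ), p n ∈ U → U ∈ x.c := by
  have hanti : Antitone p := antitone_nat_of_succ_le hp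
  have hF : Order.IsPFilter {U : RO P | ∃ n, p n ∈ U} := by
    refine Order.IsPFilter.of_def ⟨⊤, 0, RO.mem_top _⟩ ?_ ?_
    · rintro U ⟨n, hn⟩ V ⟨m, hm⟩
      refine ⟨U ⊓ V, ⟨max n m, ?_⟩, inf_le_left, inf_le_right⟩
      exact ⟨RO.mem_down hn (hanti (le_max_left _ _)), RO.mem_down hm (hanti (le_max_right _ _))⟩
    · rintro U V hUV ⟨n, hn⟩
      exact ⟨n, hUV _ hn⟩
  have hdis : Disjoint ((hF.toPFilter : Order.PFilter (RO P)) : Set (RO P))
      ((Order.Ideal.principal (⊥ : RO P) : Order.Ideal (RO P)) : Set (RO P)) := by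
    rw [Set.disjoint_left]
    rintro U ⟨n, hn⟩ hU
    have h1 : U ≤ ⊥ := hU
    exact RO.notMem_bot _ (h1 _ hn)
  obtain ⟨J, hJ, -, hJF⟩ := DistribLattice.prime_ideal_of_disjoint_filter_ideal hdis
  refine ⟨⟨{U | U ∉ J}, ?_, ?_, ?_, ?_, ?_⟩, ?_⟩
  · exact fun h => Set.disjoint_left.1 hJF (show (⊤ : RO P) ∈ _ from ⟨0, RO.mem_top _⟩) h
  · exact fun h => h (J.bot_mem)
  · exact fun U V hU hUV hV => hU (J.lower hUV hV)
  · exact fun U V hU hV h => (hJ.mem_or_mem h).elim hU hV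
  · intro U
    by_contra h
    rw [not_or] at h
    have h1 : U ∈ J := not_not.1 h.1
    have h2 : Uᶜ ∈ J := not_not.1 h.2
    have h3 : U ⊔ Uᶜ ∈ J := Order.Ideal.sup_mem h1 h2
    rw [sup_compl_eq_top] at h3
    exact Set.disjoint_left.1 hJF (show (⊤ : RO P) ∈ _ from ⟨0, RO.mem_top _⟩) h3
  · exact fun U n hn h => Set.disjoint_left.1 hJF (show U ∈ _ from ⟨n, hn⟩) h

end RAS_

/-- `T_RAS` -/
theorem p_RAS : T_RAS := by
  intro P _ C hC U hU
  obtain ⟨p0, hp0⟩ : ∃ p, p ∈ U := by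
    by_contra h
    push Not at h
    exact hU (RO.ext_mem fun p => ⟨fun h' => absurd h' (h p), fun h' => absurd h' (RO.notMem_bot p)⟩)
  have hstep : ∀ (n : ℕ) (p : P), ∃ q ≤ p, ∃ V ∈ C n, q ∈ V := by
    intro n p
    have h : p ∈ sSup (C n) := by rw [hC n]; exact RO.mem_top p
    exact RO.mem_sSup.1 h p le_rfl
  choose q hq V hV hqV using hstep
  let s : ℕ → P := fun n => Nat.rec p0 (fun n p => q n p) n
  have hs : ∀ n, s (n + 1) = q n (s n) := fun n => rfl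
  obtain ⟨x, hx⟩ := RAS_.ext s fun n => by rw [hs]; exact hq n (s n)
  refine ⟨x, hx U 0 hp0, fun n => ⟨V n (s n), hV n (s n), hx _ (n + 1) ?_⟩⟩
  rw [hs]
  exact hqV n (s n)

end Pool.Agent.SNC
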