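import Pool.Agent.SNC.T1

/-!
# MP_3e8648_lc, case b, Part II: RPX (names and measurable functions), helper43
-/

set_option autoImplicit false
set_option linter.unusedVariables false

open scoped Classical ENNReal MeasureTheory
open Filter CofSN

noncomputable section

namespace Pool.Agent.SNC

namespace RPX_

section pick

variable {Ω α : Type}

/-- the first `a` with `ω ∈ E n a`, in the enumeration `g` -/
def pick (g : α → ℕ) (a0 : α) (E : ℕ → α → Set Ω) : Ω → ℕ → α := fun ω n =>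
  if h : ∃ k, ∃ a, g a = k ∧ ω ∈ E n a then Classical.choose (Nat.find_spec h) else a0

theorem pick_iff (g : α → ℕ) (hg : Function.Injective g) (a0 : α) (E : ℕ → α → Set Ω)
    (ω : Ω) (n : ℕ) (a : α) : pick g a0 E ω n = a ↔
      (ω ∈ E n a ∧ ∀ b, g b < g a → ω ∉ E n b) ∨ (a = a0 ∧ ∀ b, ω ∉ E n b) := by
  unfold pick
  by_cases h : ∃ k, ∃ a, g a = k ∧ ω ∈ E n a
  · rw [dif_pos h]
    have hs := Classical.choose_spec (Nat.find_spec h)
    set c := Classical.choose (Nat.find_spec h) with hc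
    have hmin : ∀ b, ω ∈ E n b → g c ≤ g b := fun b hb => by
      rw [hs.1]
      exact Nat.find_min' h ⟨b, rfl, hb⟩
    constructor
    · intro hca
      left
      rw [← hca]
      exact ⟨hs.2, fun b hb hb' => absurd (hmin b hb') (not_le.2 hb)⟩
    · rintro (⟨h1, h2⟩ | ⟨-, h2⟩)
      · apply hg
        refine le_antisymm (hmin a h1) ?_
        by_contra hlt
        exact h2 c (not_le.1 hlt) hs.2
      · exact absurd hs.2 (h2 c)
  · rw [dif_neg h]
    have h' : ∀ b, ω ∉ E n b := fun b hb => h ⟨g b, b, rfl, hb⟩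
    constructor
    · intro ha
      exact Or.inr ⟨ha.symm, h'⟩
    · rintro (⟨h1, -⟩ | ⟨h1, -⟩)
      · exact absurd h1 (h' a)
      · exact h1.symm

theorem pick_meas [Countable α] (m' : MeasurableSpace Ω) (g : α → ℕ)
    (hg : Function.Injective g) (a0 : α) (E : ℕ → α → Set Ω)
    (hE : ∀ n a, MeasurableSet[m'] (E n a)) : Mf m' (pick g a0 E) := by
  intro n a
  have h : {ω | pick g a0 E ω n = a} =
      (E n a ∩ ⋂ b : α, ⋂ _ : g b < g a, (E n b)ᶜ) ∪ ({ω | a = a0} ∩ ⋂ b : α, (E n b)ᶜ) := by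
    ext ω
    rw [Set.mem_ofPred_eq, pick_iff g hg]
    simp only [Set.mem_union, Set.mem_inter_iff, Set.mem_iInter, Set.mem_compl_iff,
      Set.mem_ofPred_eq]
  rw [h]
  refine MeasurableSet.union ?_ ?_
  · refine (hE n a).inter (MeasurableSet.iInter fun b => MeasurableSet.iInter fun _ => ?_)
    exact (hE n b).compl
  · refine (MeasurableSet.const _).inter (MeasurableSet.iInter fun b => ?_)
    exact (hE n b).compl

end pick

theorem ae_pick {Ω α : Type} [Countable α] {f : Filter Ω} [CountableInterFilter f] (g : α → ℕ)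
    (hg : Function.Injective g) (a0 : α) (E : ℕ → α → Set Ω) (n : ℕ)
    (h1 : ∀ᶠ ω in f, ∃ a, ω ∈ E n a)
    (h2 : ∀ a b, a ≠ b → ∀ᶠ ω in f, ¬ (ω ∈ E n a ∧ ω ∈ E n b)) :
    ∀ a, ∀ᶠ ω in f, (ω ∈ E n a ↔ pick g a0 E ω n = a) := by
  intro a
  have h3 : ∀ᶠ ω in f, ∀ b, a ≠ b → ¬ (ω ∈ E n a ∧ ω ∈ E n b) := by
    rw [eventually_countable_forall]
    intro b
    by_cases hab : a = b
    · exact Eventually.of_forall fun ω h => absurd hab h
    · exact (h2 a b hab).mono fun ω h _ => h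
  refine (h1.and h3).mono fun ω h => ?_
  obtain ⟨⟨c, hc⟩, h3⟩ := h
  rw [pick_iff g hg]
  constructor
  · intro ha
    left
    refine ⟨ha, fun b hb hb' => ?_⟩
    have hne : a ≠ b := by
      rintro rfl
      exact absurd hb (lt_irrefl _)
    exact h3 b hne ⟨ha, hb'⟩
  · rintro (⟨ha, -⟩ | ⟨-, h4⟩)
    · exact ha
    · exact absurd hc (h4 c)

end RPX_

open RPX_

theorem p_RPX (hEME : T_EME) : T_RPX := by
  intro Ω α m _ _ f cs
  have := cs.ci
  obtain ⟨-, -, hle, hsup, -, hinf, huniv, hempty, htop, hbot, -⟩ := hEME Ω f cs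
  obtain ⟨g, hg⟩ := exists_injective_nat α
  obtain ⟨a0⟩ := (inferInstance : Nonempty α)
  have heq : ∀ E F : Set Ω, MeasurableSet E → MeasurableSet F →
      (∀ᶠ ω in f, (ω ∈ E ↔ ω ∈ F)) → em f E = em f F := by
    intro E F hE hF h
    exact le_antisymm ((hle E F hE hF).2 (h.mono fun ω h => h.1))
      ((hle F E hF hE).2 (h.mono fun ω h => h.2))
  have key : ∀ (x : Nm (RO (Po f)) α) (E : ℕ → α → Set Ω), (∀ n a, MeasurableSet (E n a)) →
      (∀ n a, x.v n a = em f (E n a)) →
      ∀ n a, ∀ᶠ ω in f, (ω ∈ E n a ↔ pick g a0 E ω n = a) := by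
    intro x E hm hv n
    refine ae_pick g hg a0 E n ?_ ?_
    · have h := x.tot n
      simp only [hv] at h
      rw [hsup α (E n) (hm n)] at h
      have h' := (htop _ (MeasurableSet.iUnion fun a => hm n a)).1 h
      exact h'.mono fun ω hω => Set.mem_iUnion.1 hω
    · intro a b hab
      have h := x.disj n a b hab
      rw [hv, hv, hinf _ _ (hm n a) (hm n b)] at h
      exact (hbot _ ((hm n a).inter (hm n b))).1 h
  have hXm : ∀ E : ℕ → α → Set Ω, (∀ n a, MeasurableSet (E n a)) →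
      ∀ n a, MeasurableSet {ω | pick g a0 E ω n = a} :=
    fun E hE => pick_meas m g hg a0 E hE
  have hrep : ∀ (x : Nm (RO (Po f)) α) (E : ℕ → α → Set Ω), (∀ n a, MeasurableSet (E n a)) →
      (∀ n a, x.v n a = em f (E n a)) → Rep x (pick g a0 E) := by
    intro x E hm hv n a
    rw [hv]
    exact heq _ _ (hm n a) (hXm E hm n a) (key x E hm hv n a)
  refine ⟨?_, ?_⟩
  · intro x m' hm' h
    choose E hEm hEv using h
    exact ⟨pick g a0 E, pick_meas m' g hg a0 E hEm,
      hrep x E (fun n a => hm' _ (hEm n a)) hEv⟩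
  · intro X hX
    refine ⟨⟨fun n a => em f {ω | X ω n = a}, ?_, ?_⟩, fun n a => rfl⟩
    · intro n a b hab
      rw [hinf _ _ (hX n a) (hX n b)]
      have h0 : {ω | X ω n = a} ∩ {ω | X ω n = b} = (∅ : Set Ω) := by
        ext ω
        simp only [Set.mem_inter_iff, Set.mem_ofPred_eq, Set.mem_empty_iff_false, iff_false]
        rintro ⟨h1, h2⟩
        exact hab (h1.symm.trans h2)
      rw [h0, hempty]
    · intro n
      rw [hsup α (fun a => {ω | X ω n = a}) (hX n)]
      have h0 : (⋃ a, {ω | X ω n = a}) = (Set.univ : Set Ω) := by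
        ext ω
        simp
      rw [h0, huniv]

end Pool.Agent.SNC
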