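import Pool.Agent.SNC.T1

/-!
# Target SMS: almost all sections are approximable
-/

set_option autoImplicit false

open scoped Classical ENNReal MeasureTheory
open Filter CofSN

noncomputable section

namespace Pool.Agent.SNC

theorem p_SMS (h : T_APX) : T_SMS := by
  intro X _ f hf K T _ ν hν S E hE
  have := hf.ci
  have key : ∀ m : ℕ, ∀ᶠ x in f, ∃ a : Set (Pt T), Cl S a ∧
      mu ν (symmDiff (sec E x) a) ≤ ((m : ℝ≥0∞) + 1)⁻¹ := by
    intro m
    obtain ⟨a, _, h2, _, h4⟩ := h X f hf K T ν hν S E hE (((m : ℝ≥0∞) + 1)⁻¹) (by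
      rw [ENNReal.inv_pos]
      exact ENNReal.add_ne_top.mpr ⟨ENNReal.natCast_ne_top m, ENNReal.one_ne_top⟩)
    exact h4.mono fun x hx => ⟨a x, h2 x, hx⟩
  have key2 := eventually_countable_forall.mpr key
  refine key2.mono fun x hx ε hε => ?_
  obtain ⟨n, hn⟩ := ENNReal.exists_inv_nat_lt hε.ne'
  obtain ⟨a, ha, hb⟩ := hx n
  refine ⟨a, ha, hb.trans (le_trans ?_ hn.le)⟩
  exact ENNReal.inv_le_inv.mpr le_self_add

end Pool.Agent.SNC
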