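import Pool.Agent.SNC.T1
import Pool.Agent.CofSN.COF
import Pool.Agent.CofSN.MIX
import Pool.Agent.CofSN.SNI
import Pool.Agent.CofSN.INX

/-!
# SNC-SNA: the abstract theorem on the cofinality of the strong measure zero sets (helper44)
-/

set_option autoImplicit false

open CofSN

noncomputable section

namespace Pool.Agent.SNC

namespace SNA_

variable {P : Type} [Preorder P]

/-- a name computed coordinatewise from two names -/
def map2 {α β γ : Type} (G : α → β → γ) (x : Nm (RO P) α) (y : Nm (RO P) β) :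
    Nm (RO P) γ where
  v n c := Nm.rel (fun a b => G a b = c) x y n n
  disj n c d hcd := by
    refine le_antisymm (fun p hp => ?_) bot_le
    obtain ⟨q, hq, a, ha⟩ := x.decide n p
    obtain ⟨r, hr, b, hb⟩ := y.decide n q
    have h1 := Nm.mem_rel.1 hp.1 r (hr.trans hq) a b (RO.mem_down ha hr) hb
    have h2 := Nm.mem_rel.1 hp.2 r (hr.trans hq) a b (RO.mem_down ha hr) hb
    exact absurd (h1.symm.trans h2) hcd
  tot n := by
    rw [RO.eq_top_iff']
    intro p
    refine RO.mem_iSup.2 fun q _ => ?_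
    obtain ⟨r, hr, a, ha⟩ := x.decide n q
    obtain ⟨s, hs, b, hb⟩ := y.decide n r
    refine ⟨s, hs.trans hr, G a b, Nm.mem_rel.2 fun t ht a' b' ha' hb' => ?_⟩
    rw [Nm.uniq ha' (RO.mem_down ha (ht.trans hs)), Nm.uniq hb' (RO.mem_down hb ht)]

theorem mem_map2 {α β γ : Type} {G : α → β → γ} {x : Nm (RO P) α} {y : Nm (RO P) β}
    {n : ℕ} {a : α} {b : β} {p : P} (ha : p ∈ x.v n a) (hb : p ∈ y.v n b) :
    p ∈ (map2 G x y).v n (G a b) := by
  refine Nm.mem_rel.2 fun t ht a' b' ha' hb' => ?_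
  rw [Nm.uniq ha' (RO.mem_down ha ht), Nm.uniq hb' (RO.mem_down hb ht)]

/-- lengthen the word `s` if it is shorter than `k` -/
def lg (s : List Bool) (k : ℕ) : List Bool := if k ≤ s.length then s else s ++ List.replicate k false

theorem le_lg (s : List Bool) (k : ℕ) : k ≤ (lg s k).length := by
  unfold lg
  split_ifs with h
  · exact h
  · rw [List.length_append, List.length_replicate]
    omega

theorem lg_eq {s : List Bool} {k : ℕ} (h : k ≤ s.length) : lg s k = s := if_pos h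

theorem ht_lg (z : Nm (RO P) (List Bool)) (h : Nm (RO P) ℕ) : ht h (map2 lg z h) = ⊤ := by
  rw [RO.eq_top_iff']
  intro p
  unfold ht
  refine RO.mem_iInf.2 fun n => Nm.mem_rel.2 fun q hq a b ha hb => ?_
  obtain ⟨r, hr, s, hs⟩ := z.decide n q
  have h1 := Nm.uniq (RO.mem_down hb hr) (mem_map2 (G := lg) hs (RO.mem_down ha hr))
  rw [h1]
  exact le_lg s a

theorem infv_le_lg (z : Nm (RO P) (List Bool)) (g h : Nm (RO P) ℕ) (hz : ht g z = ⊤)
    (hg : Nm.leS h g = ⊤) (x : Nm (RO P) Bool) : infv z x ≤ ⨆ n, cyl (map2 lg z h) n x := by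
  intro p hp
  refine RO.mem_iSup.2 fun q hq => ?_
  have h1 : q ∈ Nm.leS h g := by rw [hg]; exact RO.mem_top q
  obtain ⟨r, hr, m, hm⟩ := Nm.mem_leS.1 h1 q le_rfl
  have h2 : r ∈ ⨆ n, ⨆ (_ : m ≤ n), cyl z n x :=
    RO.mem_down (RO.mem_iInf.1 hp m) (hr.trans hq)
  obtain ⟨r1, hr1, n, hn⟩ := RO.mem_iSup.1 h2 r le_rfl
  obtain ⟨r2, hr2, hmn, hc⟩ := RO.mem_iSup.1 hn r1 le_rfl
  obtain ⟨r3, hr3, s, hs⟩ := RO.mem_iSup.1 hc r2 le_rfl
  obtain ⟨r4, hr4, k, hk⟩ := h.decide n r3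
  obtain ⟨r5, hr5, l, hl⟩ := g.decide n r4
  have hle : r5 ≤ r := hr5.trans (hr4.trans (hr3.trans (hr2.trans hr1)))
  have e1 : k ≤ l := hm n hmn r5 hle k l (RO.mem_down hk hr5) hl
  have h3 : r5 ∈ ht g z := by rw [hz]; exact RO.mem_top r5
  have e2 : l ≤ s.length :=
    Nm.mem_rel.1 (RO.mem_iInf.1 h3 n) r5 le_rfl l s hl (RO.mem_down hs.1 (hr5.trans hr4))
  refine ⟨r5, hle.trans hr, n, ?_⟩
  unfold cyl
  refine RO.mem_iSup.2 fun t ht => ⟨t, le_rfl, s, ?_, RO.mem_down hs.2 (ht.trans (hr5.trans hr4))⟩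
  have h4 := mem_map2 (G := lg) (RO.mem_down hs.1 (ht.trans (hr5.trans hr4)))
    (RO.mem_down hk (ht.trans hr5))
  rwa [lg_eq (e1.trans e2)] at h4

end SNA_

open SNA_ in
theorem p_SNA : T_SNA := by
  intro L P _ _ Λ D hD hB hZ
  choose z hz f' hf' hzf using hZ
  let Y : L → BSet (RO P) := fun i =>
    { v := fun x => ⨅ f, ⨅ (hf : f ∈ D), infv (z i f hf) x
      ext := by
        intro x y
        refine le_iInf fun f => le_iInf fun hf => ?_
        exact (inf_le_inf_right _ ((iInf_le _ f).trans (iInf_le _ hf))).trans COF_.infv_ext }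
  have hY : ∀ (i : L) (x : Nm (RO P) Bool),
      (Y i).v x = ⨅ f, ⨅ (hf : f ∈ D), infv (z i f hf) x := fun i x => rfl
  refine ⟨Y, fun i => ?_, fun X => ?_⟩
  · rw [eq_top_iff]
    unfold SN
    refine le_iInf fun h => ?_
    obtain ⟨g, hgD, hg⟩ := hD h
    refine le_iSup_of_le (map2 lg (z i g hgD) h) ?_
    rw [ht_lg, top_inf_eq]
    refine le_iInf fun x => ?_
    rw [le_himp_iff, top_inf_eq, hY]
    exact ((iInf_le _ g).trans (iInf_le _ hgD)).trans
      (infv_le_lg _ g h (hz i g hgD) hg x)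
  · have hgood : ∀ f : Nm (RO P) ℕ, ∃ δ : L, ∃ σ : Nm (RO P) (List Bool), Λ.In δ σ ∧
        SN X ≤ ht f σ ⊓ SubI X σ := by
      intro f
      obtain ⟨σ, hσ⟩ := p_SNI p_MIX P X f
      obtain ⟨δ, hδ⟩ := p_INX L P Λ (List Bool) σ
      exact ⟨δ, σ, hδ, hσ⟩
    choose l σ hl hσ using hgood
    have hclaim : ∃ i : L, ∀ g ∈ D, ∃ f ∈ D, l f ≤ i ∧ Nm.leS g f = ⊤ := by
      by_contra hcon
      push Not at hcon
      choose G hG1 hG2 using hcon
      obtain ⟨h, hh, hb⟩ := hB G hG1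
      exact hG2 (l h) h hh le_rfl (hb (l h))
    obtain ⟨i, hi⟩ := hclaim
    refine le_iSup_of_le i ?_
    unfold CofSN.Sub
    refine le_iInf fun x => ?_
    rw [le_himp_iff, hY]
    refine le_iInf fun f => le_iInf fun hf => ?_
    obtain ⟨f2, hf2, hl2, hle⟩ := hi (f' i f hf) (hf' i f hf)
    refine le_trans ?_ (hzf i f hf (σ f2) (COF_.In.mono hl2 (hl f2)) x)
    refine le_inf (inf_le_left.trans ((hσ f2).trans (inf_le_left.trans ?_))) ?_
    · exact COF_.ht_le.trans (COF_.htS_mono hle)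
    · rw [← le_himp_iff]
      exact (hσ f2).trans (inf_le_right.trans (iInf_le _ x))

end Pool.Agent.SNC
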