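import Pool.Agent.SNC.T1

/-!
# SNC-STC: the filter on the Stone space
-/

set_option autoImplicit false

open scoped Classical
open Filter CofSN

noncomputable section

namespace Pool.Agent.SNC

theorem STC_ci (P : Type) [Preorder P] : CountableInterFilter (gF P) := by
  refine ⟨fun S hS h => ?_⟩
  rcases S.eq_empty_or_nonempty with rfl | hne
  · rw [Set.sInter_empty]; exact univ_mem
  obtain ⟨s, rfl⟩ := hS.exists_eq_range hne
  have h1 : ∀ n, ∃ C : ℕ → Set (RO P), (∀ n, sSup (C n) = ⊤) ∧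
      ∀ x : St0 P, (∀ n, ∃ U ∈ C n, U ∈ x.c) → x ∈ s n := fun n => h (s n) ⟨n, rfl⟩
  choose C hC hx using h1
  refine ⟨fun n => C (Nat.unpair n).1 (Nat.unpair n).2, fun n => hC _ _, fun x h2 => ?_⟩
  rw [Set.mem_sInter]
  rintro _ ⟨n, rfl⟩
  refine hx n x fun m => ?_
  have h3 := h2 (Nat.pair n m)
  simp only [Nat.unpair_pair] at h3
  exact h3

theorem STC_compl {P : Type} [Preorder P] (x : St0 P) (U : RO P) : Uᶜ ∈ x.c ↔ U ∉ x.c := by
  constructor
  · intro h h'
    have h1 := x.inf U Uᶜ h' h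
    rw [inf_compl_eq_bot] at h1
    exact x.bot h1
  · intro h
    exact (x.or U).resolve_left h

theorem p_STC (h : T_RAS) : T_STC := by
  intro P _
  refine ⟨STC_ci P, fun U hU h1 => ?_, STC_compl, fun 𝓤 => ?_⟩
  · obtain ⟨C, hC, hx⟩ := h1
    obtain ⟨x, hxU, hxC⟩ := h P C hC U hU
    exact hx x hxC hxU
  · refine ⟨fun _ => 𝓤 ∪ {(sSup 𝓤)ᶜ}, fun _ => ?_, fun x hx => ?_⟩
    · rw [sSup_union, sSup_singleton, sup_compl_eq_top]
    · show sSup 𝓤 ∈ x.c ↔ ∃ U ∈ 𝓤, U ∈ x.c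
      constructor
      · intro h1
        obtain ⟨U, hU, hUx⟩ := hx 0
        rcases hU with hU | hU
        · exact ⟨U, hU, hUx⟩
        · rw [Set.mem_singleton_iff] at hU
          rw [hU] at hUx
          exact absurd h1 ((STC_compl x _).1 hUx)
      · rintro ⟨U, hU, hUx⟩
        exact x.up U _ hUx (le_sSup hU)

end Pool.Agent.SNC
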