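import Pool.Agent.SNC.T1

/-!
# SNC, ZFM: measurability of the generic words
-/

set_option autoImplicit false

open scoped Classical ENNReal MeasureTheory
open Filter CofSN

noncomputable section

namespace Pool.Agent.SNC

theorem p_ZFM : T_ZFM := by
  intro L _ X _ i F hF
  have h1 : ∀ n s, MeasurableSet {ω : Om X (TW L) | F ω.1 n = s} := by
    intro n s
    exact MeasurableSpace.measurableSet_generateFrom (Or.inl ⟨{x | F x n = s}, hF n s, rfl⟩)
  have h2 : ∀ (k : KK L) (t : TW L k), MeasurableSet {ω : Om X (TW L) | ω.2 k = t} := by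
    intro k t
    exact MeasurableSpace.measurableSet_generateFrom (Or.inr ⟨k, Set.mem_univ k, t, rfl⟩)
  have h3 : ∀ (k : KK L) (w : List Bool),
      MeasurableSet {ω : Om X (TW L) | List.ofFn (ω.2 k) = w} := by
    intro k w
    have e : {ω : Om X (TW L) | List.ofFn (ω.2 k) = w} =
        ⋃ t : TW L k, {ω : Om X (TW L) | ω.2 k = t ∧ List.ofFn t = w} := by
      ext ω
      simp only [Set.mem_setOf_eq, Set.mem_iUnion]
      constructor
      · intro h
        exact ⟨ω.2 k, rfl, h⟩
      · rintro ⟨t, ht, h⟩
        rw [ht]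
        exact h
    rw [e]
    haveI : Countable (TW L k) := inferInstance
    refine MeasurableSet.iUnion fun t => ?_
    by_cases h : List.ofFn t = w
    · simpa [h] using h2 k t
    · simp [h]
  refine ⟨fun n a => h1 n a, fun n w => ?_, fun ω n => ?_⟩
  · have e : {ω : Om X (TW L) | Zf i F ω n = w} =
        ⋃ s : ℕ, {ω : Om X (TW L) | F ω.1 n = s} ∩
          {ω : Om X (TW L) | List.ofFn (ω.2 (kk i n s)) = w} := by
      ext ω
      simp only [Set.mem_setOf_eq, Set.mem_iUnion, Set.mem_inter_iff]
      constructor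
      · intro h
        exact ⟨F ω.1 n, rfl, h⟩
      · rintro ⟨s, hs, h⟩
        subst hs
        exact h
    rw [e]
    exact MeasurableSet.iUnion fun s => (h1 n s).inter (h3 _ w)
  · unfold Zf
    rw [List.length_ofFn]
    rfl

end Pool.Agent.SNC
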