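import Pool.Agent.SNC.BR
import Pool.Agent.SNC.P_ALG
import Pool.Agent.SNC.P_APX
import Pool.Agent.SNC.P_CNT
import Pool.Agent.SNC.P_CON
import Pool.Agent.SNC.P_CPC
import Pool.Agent.SNC.P_CSO
import Pool.Agent.SNC.P_DOM
import Pool.Agent.SNC.P_EME
import Pool.Agent.SNC.P_EMS
import Pool.Agent.SNC.P_EVL
import Pool.Agent.SNC.P_FIB
import Pool.Agent.SNC.P_GRD
import Pool.Agent.SNC.P_HTG
import Pool.Agent.SNC.P_INF
import Pool.Agent.SNC.P_LVL
import Pool.Agent.SNC.P_MEX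
import Pool.Agent.SNC.P_MOD
import Pool.Agent.SNC.P_MUC
import Pool.Agent.SNC.P_RAS
import Pool.Agent.SNC.P_RPX
import Pool.Agent.SNC.P_SMS
import Pool.Agent.SNC.P_SNA
import Pool.Agent.SNC.P_STC
import Pool.Agent.SNC.P_ZFM
import Pool.Agent.CofSN2.BZ
import Pool.Agent.CofSN2.PTG
import Pool.Agent.CofSN2.WOG
import Pool.Agent.CofSN2.CCS
import Pool.Agent.CofSN2.DMN
import Pool.Agent.CofSN2.EPS
import Pool.Agent.CofSN2.EXD
import Pool.Agent.CofSN2.EXL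
import Pool.Agent.CofSN2.GMN
import Pool.Agent.CofSN2.IMN
import Pool.Agent.CofSN2.PTE
import Pool.Agent.CofSN2.PTR
import Pool.Agent.CofSN2.TDM
import Pool.Agent.CofSN2.TGM
import Pool.Agent.CofSN2.TWE
import Pool.Agent.CofSN.CMH
import Pool.Agent.CofSN.WOR

/-!
# MP_3e8648_lc, case b, Part II: assembly
-/

set_option autoImplicit false

namespace Pool.Agent.SNC

open CofSN CofSN2

theorem bz : T_BZ := by
  have hTWE : T_TWE := p_TWE p_EPS
  have hTGM : T_TGM := p_TGM p_PTE hTWE p_IMN p_GMN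
  have hTDM : T_TDM := p_TDM p_PTE hTWE p_EPS (p_DMN p_EXD)
  exact p_BZ p_WOG (p_PTG p_WOR) p_PTE hTWE hTGM (p_CCS p_EXL) p_PTR hTDM p_CMH

/-- `cof(SN) < b` in the Boolean valued universe of some complete Boolean algebra -/
theorem fib (h : SNB.T_SUBM) : T_FIB := by
  have hEME := p_EME
  have hEVL := p_EVL hEME
  have hMUC := p_MUC p_CPC p_ALG
  have hMEX := p_MEX hMUC p_ALG
  have hCON := p_CON hMEX p_ALG
  have hAPX := p_APX hCON p_ALG hMUC
  have hSMS := p_SMS hAPX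
  have hCSO := p_CSO p_INF hAPX hSMS hMEX hMUC
  have hEMS := p_EMS hEME
  have hLVL := p_LVL hEME hEMS p_CNT hCSO
  have hDOM := p_DOM hAPX hCON hSMS
  have hMOD := p_MOD hEMS (p_RPX hEME) hEVL hEME hCSO hLVL hDOM (p_HTG hSMS hMUC) p_ZFM p_SNA
  exact p_FIB hMOD (p_GRD (p_STC p_RAS)) (bridge h) bz p_WOR

end Pool.Agent.SNC
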