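import Pool.Agent.SNC.Defs
import Pool.Agent.CofSN2.TargetsB0

/-!
# MP_3e8648_lc, case b, Part II: targets
-/

set_option autoImplicit false
set_option linter.unusedVariables false

open scoped Classical ENNReal MeasureTheory
open Filter CofSN

noncomputable section

namespace Pool.Agent.SNC

/-! ## ccc spaces and their Boolean algebras -/

/-- EME.  The map `em` on measurable sets.  Proof: `em f E` is defined by `RO.gen`; for measurable
`E`, if `F` is in it and `F \ E` were not null, then `F \ E` would be a condition below `F`, with an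
extension `r ≤ s`, `s ⊆ E` a.e.: then `r` is null, a contradiction.  The other statements follow from
the first one (`RO.mem_compl`, `RO.mem_iSup`, `RO.mem_iInf`, `RO.mem_inf`): e.g. `F ≤ ⋃ E i` implies
for `q ≤ F` that some `q ∩ E i` is not null (countable intersections of `f`). -/
def T_EME : Prop := ∀ (Ω : Type) [MeasurableSpace Ω] (f : Filter Ω), CS Ω f →
  (∀ E, MeasurableSet E → ∀ F : Po f, F ∈ em f E ↔ ∀ᶠ ω in f, ω ∈ F.1 → ω ∈ E) ∧
  (∀ E, MeasurableSet E → (em f E)ᶜ = em f Eᶜ) ∧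
  (∀ E F, MeasurableSet E → MeasurableSet F →
    (em f E ≤ em f F ↔ ∀ᶠ ω in f, ω ∈ E → ω ∈ F)) ∧
  (∀ (ι : Type) [Countable ι] (E : ι → Set Ω), (∀ i, MeasurableSet (E i)) →
    ⨆ i, em f (E i) = em f (⋃ i, E i)) ∧
  (∀ (ι : Type) [Countable ι] (E : ι → Set Ω), (∀ i, MeasurableSet (E i)) →
    ⨅ i, em f (E i) = em f (⋂ i, E i)) ∧
  (∀ E F, MeasurableSet E → MeasurableSet F → em f E ⊓ em f F = em f (E ∩ F)) ∧
  em f Set.univ = ⊤ ∧ em f ∅ = ⊥ ∧
  (∀ E, MeasurableSet E → (em f E = ⊤ ↔ ∀ᶠ ω in f, ω ∈ E)) ∧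
  (∀ E, MeasurableSet E → (em f E = ⊥ ↔ ∀ᶠ ω in f, ω ∉ E)) ∧ (⊥ : RO (Po f)) ≠ ⊤

/-- EMS (from EME).  Countable subfamilies.  Proof: by Zorn's lemma take a maximal set `M` of
non null measurable sets, pairwise with null intersections, each contained in a member of `𝓕`; by
ccc `M` is countable; choose members of `𝓕` containing them: this is `𝓖`.  If `F ∈ 𝓕` and
`F \ ⋃₀ 𝓖` is not null it could be added to `M`.  So `em F ≤ em (⋃₀ 𝓖)` for all `F ∈ 𝓕`.  For the
second part let `𝓕` be the set of the `F.1`, `F ∈ U`; `U = sSup (em f '' 𝓕)`. -/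
def T_EMS : Prop := ∀ (Ω : Type) [MeasurableSpace Ω] (f : Filter Ω), CS Ω f →
  (∀ 𝓕 : Set (Set Ω), (∀ E ∈ 𝓕, MeasurableSet E) → ∃ 𝓖 ⊆ 𝓕, 𝓖.Countable ∧
    sSup (em f '' 𝓕) = em f (⋃₀ 𝓖)) ∧
  ∀ U : RO (Po f), ∃ E, MeasurableSet E ∧ U = em f E

/-- RPX (from EME).  Names and measurable functions.  Proof of (a): let `E n a` be measurable (for
`m'`) with `x.v n a = em (E n a)`; let `X ω n` be the first `a` (in an enumeration of `α`) with
`ω ∈ E n a`, and a fixed element if there is none; as the `E n a` (`n` fixed) have null pairwise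
intersections (`disj`) and their union is co-null (`tot`), `{X ω n = a}` and `E n a` are equal a.e.
(b): let `x.v n a = em {X ω n = a}`. -/
def T_RPX : Prop := ∀ (Ω α : Type) [m : MeasurableSpace Ω] [Countable α] [Nonempty α]
  (f : Filter Ω), CS Ω f →
  (∀ (x : Nm (RO (Po f)) α) (m' : MeasurableSpace Ω), m' ≤ m →
    (∀ n a, ∃ E, MeasurableSet[m'] E ∧ x.v n a = @em Ω m f E) →
      ∃ X : Ω → ℕ → α, Mf m' X ∧ @Rep Ω α m f x X) ∧
  ∀ X : Ω → ℕ → α, Mf m X → ∃ x : Nm (RO (Po f)) α, Rep x X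

/-- EVL (from EME).  Boolean values of countable formulas are computed pointwise. -/
def T_EVL : Prop := ∀ (Ω : Type) [MeasurableSpace Ω] (f : Filter Ω), CS Ω f →
  (∀ (α β : Type) [Countable α] [Countable β] (R : α → β → Prop) (x : Nm (RO (Po f)) α)
    (y : Nm (RO (Po f)) β) (X : Ω → ℕ → α) (Y : Ω → ℕ → β), Mf inferInstance X →
    Mf inferInstance Y → Rep x X → Rep y Y → ∀ n m,
      Nm.rel R x y n m = em f {ω | R (X ω n) (Y ω m)}) ∧
  (∀ (x y : Nm (RO (Po f)) ℕ) (X Y : Ω → ℕ → ℕ), Mf inferInstance X → Mf inferInstance Y →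
    Rep x X → Rep y Y → Nm.leS x y = em f {ω | ∀ᶠ n in atTop, X ω n ≤ Y ω n}) ∧
  (∀ (x : Nm (RO (Po f)) ℕ) (σ : Nm (RO (Po f)) (List Bool)) (X : Ω → ℕ → ℕ)
    (S : Ω → ℕ → List Bool), Mf inferInstance X → Mf inferInstance S → Rep x X → Rep σ S →
    ht x σ = em f {ω | ∀ n, X ω n ≤ (S ω n).length} ∧
    htS x σ = em f {ω | ∀ᶠ n in atTop, X ω n ≤ (S ω n).length}) ∧
  ∀ (σ : Nm (RO (Po f)) (List Bool)) (x : Nm (RO (Po f)) Bool) (S : Ω → ℕ → List Bool)
    (X : Ω → ℕ → Bool), Mf inferInstance S → Mf inferInstance X → Rep σ S → Rep x X →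
    infv σ x = em f {ω | ∃ᶠ n in atTop, Pre (S ω n) (X ω)}

/-- INF.  In a ccc space, uncountably many non null sets.  Proof: for a family of measurable sets
there is an essential supremum (the union of a countable subfamily, see EMS).  For countable
`J ⊆ ι` let `s(J)` be the essential supremum of the `b i`, `i ∉ J`; it decreases (a.e.) with `J`.
By ccc (essential infimum, i.e. EMS for the complements) there is a countable `J₀` with
`s(J₀) ⊆ s(J)` a.e. for all countable `J`; `c = s(J₀)` is not null as `J₀ ≠ ι`.  Choose disjoint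
countable `J₁', J₂', …` outside of `J₀` with `⋃ (i ∈ J_n') b i = c` a.e.; let `J` be their union:
almost every `x ∈ c` is in some `b i`, `i ∈ J_n'`, for every `n`. -/
def T_INF : Prop := ∀ (X : Type) [MeasurableSpace X] (f : Filter X), CS X f →
  ∀ (ι : Type) (b : ι → Set X), ¬ Countable ι → (∀ i, MeasurableSet (b i)) →
    (∀ i, ∃ᶠ x in f, x ∈ b i) →
    ∃ J : Set ι, J.Countable ∧ ∃ᶠ x in f, {i | i ∈ J ∧ x ∈ b i}.Infinite

/-! ## the submeasure -/

/-- CPC.  Compactness of the product.  Proof: give each `T k` the discrete topology; `Pt T` is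
compact (`Pi.compactSpace`), sets with `Cl` are clopen. -/
def T_CPC : Prop := ∀ (K : Type) (T : K → Type) [∀ k, Fintype (T k)] (a : Set (Pt T))
  (b : ℕ → Set (Pt T)), Cl Set.univ a → (∀ n, Cl Set.univ (b n)) → a ⊆ ⋃ n, b n →
  ∃ N, a ⊆ ⋃ n ∈ Finset.range N, b n

/-- ALG.  Boolean operations. -/
def T_ALG : Prop := ∀ (K : Type) (T : K → Type) (S : Set K),
  (Cl S (∅ : Set (Pt T)) ∧ Cl S (Set.univ : Set (Pt T))) ∧
  (∀ a : Set (Pt T), Cl S a → Cl S aᶜ) ∧
  (∀ a b : Set (Pt T), Cl S a → Cl S b → Cl S (a ∪ b) ∧ Cl S (a ∩ b) ∧ Cl S (a \ b)) ∧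
  (∀ (S' : Set K) (a : Set (Pt T)), S ⊆ S' → Cl S a → Cl S' a) ∧
  (∀ k ∈ S, ∀ t : T k, Cl S {z : Pt T | z k = t}) ∧
  (∀ (ν : Set (Pt T) → ℝ) (S' : Set K) (E : Set (Pt T)), S ⊆ S' → Ms ν S E → Ms ν S' E) ∧
  (∀ (ν : Set (Pt T) → ℝ) (a : Set (Pt T)), Cl S a → Ms ν S a) ∧
  (∀ (ν : Set (Pt T) → ℝ) (E : Set (Pt T)), Ms ν S E → Ms ν S Eᶜ) ∧
  ∀ (ν : Set (Pt T) → ℝ) (E F : Set (Pt T)), Ms ν S E → Ms ν S F →
    Ms ν S (E ∪ F) ∧ Ms ν S (E ∩ F) ∧ Ms ν S (E \ F)

/-- MUC (from CPC).  The outer measure extends `ν`.  Proof: `≤`: the cover `a, ∅, ∅, …`.  `≥`: a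
cover with finite value consists of clopen sets; by compactness finitely many suffice, and `ν` is
monotone and subadditive. -/
def T_MUC : Prop := ∀ (K : Type) (T : K → Type) [∀ k, Fintype (T k)] (ν : Set (Pt T) → ℝ),
  SubM T ν → ∀ a, Cl Set.univ a → mu ν a = ENNReal.ofReal (ν a)

/-- MEX (from MUC, ALG).  `mu` is exhaustive on the approximable sets.  Proof: first let the `E i`
be disjoint (replace `E i` by `E i \ ⋃ (j < i) E j`: this changes the values by `0`).  Let `a i` be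
clopen with `mu (E i ∆ a i) ≤ δ 2 ^ (- i - 4)`, `b i = a i \ ⋃ (j < i) a j`: disjoint clopen sets, so
`ν (b i) ≤ δ / 4` for large `i`.  `E i ⊆ (E i \ a i) ∪ b i ∪ (a i ∩ ⋃ (j < i) a j)`, and
`a i ∩ a j ⊆ (a i ∆ E i) ∪ (a j ∆ E j)` as `E i ∩ E j = ∅`.  So `mu (E i) ≤ δ`. -/
def T_MEX : Prop := ∀ (K : Type) (T : K → Type) [∀ k, Fintype (T k)] (ν : Set (Pt T) → ℝ),
  SubM T ν → ∀ E : ℕ → Set (Pt T), (∀ i, Ms ν Set.univ (E i)) →
    (∀ i j, i ≠ j → mu ν (E i ∩ E j) = 0) → ∀ δ : ℝ≥0∞, 0 < δ → ∃ i₀, ∀ i ≥ i₀, mu ν (E i) ≤ δ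

/-- CON (from MEX, ALG).  Continuity.  Proof of (a): for every `η > 0` there is `N` with
`mu (F M \ F N) ≤ η` for all `M ≥ N` (otherwise there are infinitely many disjoint sets
`F M \ F N` of value `> η`).  Take `N_0 < N_1 < …` for `η = ε 2 ^ (- j - 1)`; then
`⋃ F \ F N_0 ⊆ ⋃_j (F N_(j+1) \ F N_j)`.  (b) follows: `mu (⋃ F) ≤ mu (F N) + mu (⋃ F \ F N)`. -/
def T_CON : Prop := ∀ (K : Type) (T : K → Type) [∀ k, Fintype (T k)] (ν : Set (Pt T) → ℝ),
  SubM T ν → ∀ F : ℕ → Set (Pt T), Monotone F → (∀ i, Ms ν Set.univ (F i)) →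
    (∀ ε : ℝ≥0∞, 0 < ε → ∃ N, mu ν ((⋃ n, F n) \ F N) ≤ ε) ∧
    ∀ c : ℝ≥0∞, (∀ n, mu ν (F n) ≤ c) → mu ν (⋃ n, F n) ≤ c

/-- APX (from CON, ALG, MUC).  Measurable approximation by clopen sets.  Proof: induction
(`MeasurableSpace.generateFrom_induction`) over the statement (for all `ε`); we may take
`ε = 2 ^ (- m)`.  Generators: constant on pieces.  Complements: the complements of the `a x`.  Union
of `E n`: let `F N = ⋃ (n < N) E n` and let `a_N` be an approximation of `F N` up to `2 ^ (- m)` (from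
approximations of the `E n`, `n < N`).  For almost all `x` all these are valid and the sections of
all `F N` are in `Ms`.  Let `N(x)` be the least `N` with `ν (a_M x \ a_N x) ≤ 3 * 2 ^ (- m)` for all
`M ≥ N`: it exists by CON (a) (`mu (F M \ F N) ≤ 2 ^ (- m)` for `M ≥ N`), and conversely
`mu (F M \ F N(x)) ≤ 5 * 2 ^ (- m)` for all `M`, so `mu (⋃ E \ F N(x)) ≤ 5 * 2 ^ (- m)` by CON (b).
`a x = a_(N(x)) x` works for `6 * 2 ^ (- m)`; it is measurable, since the `a_N` have countable range. -/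
def T_APX : Prop := ∀ (X : Type) [MeasurableSpace X] (f : Filter X), CS X f →
  ∀ (K : Type) (T : K → Type) [∀ k, Fintype (T k)] (ν : Set (Pt T) → ℝ), SubM T ν →
  ∀ (S : Set K) (E : Set (Om X T)), MeasurableSet[sig X T S] E → ∀ ε : ℝ≥0∞, 0 < ε →
  ∃ a : X → Set (Pt T), (Set.range a).Countable ∧ (∀ x, Cl S (a x)) ∧
    (∀ b, MeasurableSet {x | a x = b}) ∧ ∀ᶠ x in f, mu ν (symmDiff (sec E x) (a x)) ≤ ε

/-- SMS (from APX).  Almost all sections are approximable. (`ε = 1 / m`.) -/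
def T_SMS : Prop := ∀ (X : Type) [MeasurableSpace X] (f : Filter X), CS X f →
  ∀ (K : Type) (T : K → Type) [∀ k, Fintype (T k)] (ν : Set (Pt T) → ℝ), SubM T ν →
  ∀ (S : Set K) (E : Set (Om X T)), MeasurableSet[sig X T S] E → ∀ᶠ x in f, Ms ν S (sec E x)

/-- CSO (from INF, APX, SMS, MEX, MUC).  The space of the model is ccc.  Proof: countable
intersections: `mu` is countably subadditive; `NeBot`: `mu univ ≥ 1`.  ccc: let `E i` (`i : ι`,
`ι` uncountable) be measurable, not null, with null pairwise intersections.  For each `i` there is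
`m` such that `∃ᶠ x, mu (sec (E i) x) > 2 ^ (- m)`; for uncountably many `i` the same `m`.  Let `a i` be
approximations (APX) up to `2 ^ (- m - 2)`, `b i = {x | ν (a i x) ≥ 2 ^ (- m - 1)}`: measurable, not
null.  INF: for non null many `x` there are infinitely many `i ∈ J` (`J` countable) with `x ∈ b i`,
so `mu (sec (E i) x) ≥ 2 ^ (- m - 2)`; almost all `x` satisfy also `mu (sec (E i) x ∩ sec (E j) x) = 0`
for all `i ≠ j` in `J`, and the sections are in `Ms`: this contradicts MEX. -/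
def T_CSO : Prop := ∀ (X : Type) [MeasurableSpace X] (f : Filter X), CS X f →
  ∀ (K : Type) (T : K → Type) [∀ k, Fintype (T k)] (ν : Set (Pt T) → ℝ), SubM T ν →
  CS (Om X T) (NN f ν)

/-- CNT.  Measurable sets depend on countably many coordinates. -/
def T_CNT : Prop := ∀ (X : Type) [MeasurableSpace X] (K : Type) (T : K → Type),
  (∀ S S' : Set K, S ⊆ S' → sig X T S ≤ sig X T S') ∧
  ∀ (S : Set K) (E : Set (Om X T)), MeasurableSet[sig X T S] E →
    ∃ C ⊆ S, C.Countable ∧ MeasurableSet[sig X T C] E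

/-- LVL (from EME, EMS, CNT, CSO).  The levels.  `Lv i` is the set of the `em E`, `E` measurable
for `sig (S i)`.  Proof: `sup`: EMS; `all`: EMS and CNT, a countable set of coordinates is contained
in some `S i` by the last hypothesis and `mono`. -/
def T_LVL : Prop := ∀ (X : Type) [MeasurableSpace X] (f : Filter X), CS X f →
  ∀ (K : Type) (T : K → Type) [∀ k, Fintype (T k)] (ν : Set (Pt T) → ℝ), SubM T ν →
  ∀ (L : Type) [LinearOrder L] [Nonempty L] (S : L → Set K), Monotone S →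
    (∀ k, ∃ i, k ∈ S i) → (∀ s : ℕ → L, ∃ b, ∀ n, s n ≤ b) →
    ∃ Λ : Lev L (Po (NN f ν)), ∀ i, Λ.Lv i = {U | ∃ E, MeasurableSet[sig X T (S i)] E ∧
      U = em (NN f ν) E}

/-- DOM (from APX, CON, MUC, SMS).  Functions of the extension are bounded by functions of the
ground space.  Proof: let `a_(n,M)` be an approximation of `{F ω n > M}` up to `2 ^ (- n - 1)` (APX);
`G x n` is the least `M` with `ν (a_(n,M) x) ≤ 2 ^ (- n)` if there is one, otherwise `0`.  For almost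
all `x` there is one, since `mu (sec {F ω n > M} x) → 0` (`M → ∞`) by CON (complements).  So
`mu {z | F (x, z) n > G x n} ≤ 2 ^ (- n + 1)`, and `mu` is countably subadditive (Borel-Cantelli). -/
def T_DOM : Prop := ∀ (X : Type) [MeasurableSpace X] (f : Filter X), CS X f →
  ∀ (K : Type) (T : K → Type) [∀ k, Fintype (T k)] (ν : Set (Pt T) → ℝ), SubM T ν →
  ∀ F : Om X T → ℕ → ℕ, Mf inferInstance F → ∃ G : X → ℕ → ℕ, Mf inferInstance G ∧
    ∀ᶠ ω in NN f ν, ∀ᶠ n in atTop, F ω n ≤ G ω.1 n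

/-- HTG (from SMS, MUC, ALG).  Hitting.  Proof: let `A_j` be the set of the `ω` with
`F ω.1 n ≤ |S ω j|` and `Zf i F ω n ≠ (S ω j).take (F ω.1 n)` for all `n ∈ I j`.  For almost all `x`
all sections at `x` of the sets `{ω | (S ω j).take (F ω.1 n) = w}` (which are measurable for
`sig (SL i)`) are in `Ms ν (SL i)`.  Fix such an `x` and `j`.  For `n ∈ I j` and a word `w` of length
`F x n` choose `a_w` clopen with coordinates in `SL i`, close to the section, up to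
`2 ^ (- j) / (2 ^ (F x n) * |I j|)`; let `τ z` be the first `w` with `z ∈ a_w` (a fixed word if there is
none).  `τ z ≠ (S (x, z) j).take (F x n)` only on the union of the symmetric differences.  The
coordinates `kk i n (F x n)`, `n ∈ I j`, are distinct and `SL i` is before them; so by `Hit` and `MUC`
`mu (sec A_j x) ≤ 2 ^ (- j) + 2 ^ (- j)`.  Borel-Cantelli. -/
def T_HTG : Prop := ∀ (L : Type) [LinearOrder L] (X : Type) [MeasurableSpace X] (f : Filter X),
  CS X f → ∀ (ν : Set (Pt (TW L)) → ℝ) (N : ℕ → ℕ), SubM (TW L) ν → Hit (TW L) ν N →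
  ∀ (i : L) (F : X → ℕ → ℕ), Mf inferInstance F →
  ∀ S : Om X (TW L) → ℕ → List Bool, Mf (sig X (TW L) (SL i)) S →
  ∀ I : ℕ → Finset ℕ, (∀ j, N j ≤ (I j).card) →
  ∀ᶠ ω in NN f ν, ∀ᶠ j in atTop, (∀ n ∈ I j, F ω.1 n ≤ (S ω j).length) →
    ∃ n ∈ I j, Zf i F ω n = (S ω j).take (F ω.1 n)

/-- ZFM.  Measurability: pullbacks of functions of the ground space, and the functions `Zf`. -/
def T_ZFM : Prop := ∀ (L : Type) [LinearOrder L] (X : Type) [MeasurableSpace X] (i : L)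
  (F : X → ℕ → ℕ), Mf inferInstance F →
  Mf (inferInstance : MeasurableSpace (Om X (TW L))) (fun ω => F ω.1) ∧
  Mf (inferInstance : MeasurableSpace (Om X (TW L))) (Zf (X := X) i F) ∧
  ∀ ω : Om X (TW L), ∀ n, (Zf i F ω n).length = F ω.1 n

/-! ## strong measure zero sets -/

/-- SNA (from MIX, SNI, INX: proved, `p_MIX`, `p_SNI`, `p_INX` in `CofSN`).  The abstract theorem.
Proof: choose `z i f`, `f' i f`.  Let `Y i` have the values `⨅ f ∈ D, infv (z i f) x`.  `SN (Y i) = ⊤`: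
given a name `h`, take `g ∈ D` with `leS h g = ⊤`; let `σ n` be `z n` if `|z n| ≥ h n` and otherwise
`z n` followed by `h n` zeros; then `ht h σ = ⊤`, and as `|z n| ≥ g n ≥ h n` for almost all `n`,
`infv z x ≤ ⨆ n, cyl σ n x`.  Cofinality: for `f ∈ D` take `σ f` with `SN X ≤ ht f σ ⊓ SubI X σ`
(`SNI`), of level `l f` (`INX`).  CLAIM: there is `i` such that every `g ∈ D` has `f ∈ D` with
`l f ≤ i`, `leS g f = ⊤`.  Otherwise there are `g i ∈ D` without such an `f`; a common bound `h ∈ D`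
contradicts the choice of `g (l h)`.  For this `i`: `SN X ≤ Sub X (Y i)`: let `f ∈ D`, take `f'' ∈ D`
with `l f'' ≤ i` and `leS (f' i f) f'' = ⊤`; then
`SN X ⊓ X.v x ≤ htS (f' i f) (σ f'') ⊓ infv (σ f'') x ≤ infv (z i f) x`. -/
def T_SNA : Prop := ∀ (L P : Type) [LinearOrder L] [Preorder P] (Λ : Lev L P)
  (D : Set (Nm (RO P) ℕ)), (∀ f, ∃ g ∈ D, Nm.leS f g = ⊤) →
  (∀ g : L → Nm (RO P) ℕ, (∀ i, g i ∈ D) → ∃ h ∈ D, ∀ i, Nm.leS (g i) h = ⊤) →
  (∀ i, ∀ f ∈ D, ∃ z : Nm (RO P) (List Bool), ht f z = ⊤ ∧ ∃ f' ∈ D,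
    ∀ σ, Λ.In i σ → ∀ x, htS f' σ ⊓ infv σ x ≤ infv z x) →
  ∃ Y : L → BSet (RO P), (∀ i, SN (Y i) = ⊤) ∧ ∀ X : BSet (RO P), SN X ≤ ⨆ i, Sub X (Y i)

/-- MOD (from SNA, LVL, DOM, HTG, ZFM, EVL, RPX, EMS, CSO).  The model.  Proof: `D` is the set of the
names `f` with `Rep f (fun ω => F ω.1)` for some `F : X → ℕ → ℕ` with `Mf F`.  First hypothesis of
SNA: RPX (with EMS), DOM, EVL.  Second: `Gr.bnd` and EVL.  Third: `Λ` from LVL with `S i = SL i`;
for `f ∈ D` given by `F`, `z` is represented by `Zf i F` (ZFM, RPX); let `I j` be consecutive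
intervals of `N j + 1` elements, `f'` represented by `x ↦ (j ↦ sup (n ∈ I j) F x n)`.  `σ` of level
`i` is represented by `S` measurable for `sig (SL i)` (RPX with `m' = sig (SL i)`).  By EVL the claim
is about almost all `ω`: if `F' ω.1 j ≤ |S ω j|` for almost all `j`, and `Pre (S ω j) (x ω)` for
infinitely many `j`, then by HTG for infinitely many `j` there is `n ∈ I j` (`n ≥ j`) such that
`Zf i F ω n` is an initial segment of `S ω j`, so `Pre (Zf i F ω n) (x ω)`.  Last statement: for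
given `g` take bounds in `D` (DOM), then `Gr.bnd`. -/
def T_MOD : Prop := ∀ (L : Type) [LinearOrder L] [WellFoundedLT L] [NoMaxOrder L] [Nonempty L],
  (∀ s : ℕ → L, ∃ b, ∀ n, s n ≤ b) → ∀ (X : Type) [MeasurableSpace X] (f : Filter X), Gr L X f →
  ∀ (ν : Set (Pt (TW L)) → ℝ) (N : ℕ → ℕ), SubM (TW L) ν → Hit (TW L) ν N →
  (⊥ : RO (Po (NN f ν))) ≠ ⊤ ∧
  (∃ Y : L → BSet (RO (Po (NN f ν))), (∀ i, SN (Y i) = ⊤) ∧
    ∀ X' : BSet (RO (Po (NN f ν))), SN X' ≤ ⨆ i, Sub X' (Y i)) ∧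
  ∀ g : L → Nm (RO (Po (NN f ν))) ℕ, ∃ h, ∀ i, Nm.leS (g i) h = ⊤

/-! ## the ground space -/

/-- RAS.  Rasiowa-Sikorski.  Proof: choose `U = U_0 ≥ U_1 ≥ …`, nonzero, `U_(n+1) ≤` some member of
`C n` (`U_n = ⨆ (U_n ⊓ V)`); extend the filter generated by the `U_n` to an ultrafilter (Zorn, or the
prime ideal theorem in Mathlib, `DistribLattice.prime_ideal_of_disjoint_filter_ideal`). -/
def T_RAS : Prop := ∀ (P : Type) [Preorder P] (C : ℕ → Set (RO P)), (∀ n, sSup (C n) = ⊤) →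
  ∀ U : RO P, U ≠ ⊥ → ∃ x : St0 P, U ∈ x.c ∧ ∀ n, ∃ V ∈ C n, V ∈ x.c

/-- STC (from RAS).  The filter `gF`.  (4): the cover `𝓤 ∪ {(sSup 𝓤)ᶜ}`. -/
def T_STC : Prop := ∀ (P : Type) [Preorder P],
  CountableInterFilter (gF P) ∧ (∀ U : RO P, U ≠ ⊥ → ∃ᶠ x in gF P, U ∈ x.c) ∧
  (∀ (x : St0 P) (U : RO P), Uᶜ ∈ x.c ↔ U ∉ x.c) ∧
  ∀ 𝓤 : Set (RO P), ∀ᶠ x in gF P, (sSup 𝓤 ∈ x.c ↔ ∃ U ∈ 𝓤, U ∈ x.c)

/-- GRD (from STC).  The ground space of a poset.  Proof: `X = St0 P`, `f = gF P`; measurable sets: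
the `E` such that for some `U` almost all `x` satisfy `x ∈ E ↔ U ∈ x.c` (a σ-algebra by STC).  ccc:
the `U` of the `E i` are nonzero and disjoint, choose conditions in them, use `CCC P`.  `bnd`: a
measurable function `F i` gives the name with `v n a = U` for `E = {x | F i x n = a}` (`disj`, `tot` by
STC); let `h` be a name with `leS (g i) h = ⊤` for all `i`; let `G x n` be the least `a` with
`h.v n a ∈ x.c` (or `0`); expand `leS` with STC. -/
def T_GRD : Prop := ∀ (L P : Type) [Preorder P] [Nonempty P], CCC P →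
  (∀ g : L → Nm (RO P) ℕ, ∃ f : Nm (RO P) ℕ, ∀ i, Nm.leS (g i) f = ⊤) →
  ∃ (X : Type) (_ : MeasurableSpace X) (f : Filter X), Gr L X f

/-! ## the end -/

/-- SUBM: the result of Part I -/
def T_SUBM : Prop := ∀ (K : Type) [LinearOrder K] [WellFoundedLT K] (T : K → Type)
  [∀ k, Fintype (T k)] [∀ k, Nonempty (T k)],
  ∃ (ν : Set (Pt T) → ℝ) (N : ℕ → ℕ), SubM T ν ∧ Hit T ν N

/-- FIB: the model for case b (from MOD, GRD, SUBM, `T_BZ` and `T_WOR`). -/
def T_FIB : Prop := ∃ (B : Type) (_ : CompleteBooleanAlgebra B) (I : Type), (⊥ : B) ≠ ⊤ ∧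
  (∃ Y : I → BSet B, (∀ i, SN (Y i) = ⊤) ∧ ∀ X : BSet B, SN X ≤ ⨆ i, Sub X (Y i)) ∧
  ∀ g : I → Nm B ℕ, ∃ h : Nm B ℕ, ∀ i, Nm.leS (g i) h = ⊤

end Pool.Agent.SNC
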