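import Pool.Agent.SNC.T1
import Pool.Agent.SNB.Targets2

/-!
# MP_3e8648_lc, case b: the interface between Part I and Part II
-/

set_option autoImplicit false

namespace Pool.Agent.SNC

namespace BR_

lemma cl_iff {K : Type} [LinearOrder K] {T : K → Type} (S : Set K) (X : Set (Pt T)) :
    Cl S X ↔ SNB.Cl S X := by
  constructor
  · rintro ⟨F, hF, h⟩
    exact ⟨F, fun l hl => hF hl, fun z w hzw => h z w fun k hk => hzw k hk⟩
  · rintro ⟨F, hF, h⟩
    exact ⟨F, fun l hl => hF l hl, fun z w hzw => h z w fun k hk => hzw k hk⟩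

end BR_

open BR_

theorem bridge (h : SNB.T_SUBM) : T_SUBM := by
  intro K _ _ T _ _
  obtain ⟨μ, h0, h8, hb, hm, ha, he, hh⟩ := h K T
  refine ⟨μ, fun j => 2 ^ SNB.parD j, ⟨fun a _ => (hb a).1, h0, fun a b _ _ hab => hm a b hab,
    fun a b _ _ => ha a b, by linarith, ?_⟩, ?_⟩
  · intro E hE hd δ hδ
    obtain ⟨N, hN⟩ := he E (fun i => (cl_iff _ _).1 (hE i)) hd δ hδ
    exact ⟨N, fun i hi => (hN i hi).le⟩
  · intro j I hI τ hτ
    refine hh j I τ hI fun i hi z y hzy => ?_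
    obtain ⟨F, hF, hF2⟩ := hτ i hi (τ i y)
    exact (hF2 z y fun k hk => hzy k (hF hk)).2 rfl

end Pool.Agent.SNC
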