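import Pool.Agent.CofSN.Targets

/-!
# MP_3e8648_lc, case b, Part II: the model.  Definitions

Part II derives the consistency of `cof(SN) < b` from an exhaustive submeasure `ν` with the hitting
property on the clopen sets of a product of finite sets (Part I) and from a ccc poset which forces
that every family of `ω₁` functions is bounded (Part B_0).

The complete Boolean algebra is `RO (Po g)`: `Po g` is the set of the measurable sets which are
not null of a space `Om X T = X × ∏ T k` with a σ-algebra and a filter `g = NN f ν` closed under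
countable intersections (the filter of the co-null sets), with the countable chain condition.  All
names are represented by measurable functions, all Boolean values of formulas with countable
quantifiers are computed pointwise.
-/

set_option autoImplicit false
set_option linter.unusedVariables false

open scoped Classical ENNReal MeasureTheory
open Filter CofSN

noncomputable section

namespace Pool.Agent.SNC

/-! ## ccc spaces -/

/-- a ccc space: a set with a σ-algebra and a filter closed under countable intersections -/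
structure CS (Ω : Type) [MeasurableSpace Ω] (f : Filter Ω) : Prop where
  nb : f.NeBot
  ci : CountableInterFilter f
  ccc : ∀ (ι : Type) (E : ι → Set Ω), (∀ i, MeasurableSet (E i)) →
    (∀ i j, i ≠ j → ∀ᶠ ω in f, ¬ (ω ∈ E i ∧ ω ∈ E j)) → (∀ i, ∃ᶠ ω in f, ω ∈ E i) → Countable ι

/-- the measurable sets which are not null -/
def Po {Ω : Type} [MeasurableSpace Ω] (f : Filter Ω) : Type :=
  {E : Set Ω // MeasurableSet E ∧ ∃ᶠ ω in f, ω ∈ E}

instance {Ω : Type} [MeasurableSpace Ω] (f : Filter Ω) : Preorder (Po f) where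
  le E F := ∀ᶠ ω in f, ω ∈ E.1 → ω ∈ F.1
  le_refl E := Eventually.of_forall fun _ h => h
  le_trans A B C h1 h2 := (h1.and h2).mono fun _ h h' => h.2 (h.1 h')

lemma Po.le_def {Ω : Type} [MeasurableSpace Ω] {f : Filter Ω} {E F : Po f} :
    E ≤ F ↔ ∀ᶠ ω in f, ω ∈ E.1 → ω ∈ F.1 := Iff.rfl

/-- the class of a set of points (for a measurable set `E`: all `F` with `F ≤ E`) -/
def em {Ω : Type} [MeasurableSpace Ω] (f : Filter Ω) (E : Set Ω) : RO (Po f) :=
  RO.gen {F | ∀ᶠ ω in f, ω ∈ F.1 → ω ∈ E}

/-- measurable functions with values in the sequences of elements of `α` (`α` countable) -/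
def Mf {Ω α : Type} (m : MeasurableSpace Ω) (X : Ω → ℕ → α) : Prop :=
  ∀ n a, MeasurableSet[m] {ω | X ω n = a}

/-- the function `X` represents the name `x` -/
def Rep {Ω α : Type} [MeasurableSpace Ω] {f : Filter Ω} (x : Nm (RO (Po f)) α)
    (X : Ω → ℕ → α) : Prop := ∀ n a, x.v n a = em f {ω | X ω n = a}

/-- the word `s` is an initial segment of `x` -/
def Pre (s : List Bool) (x : ℕ → Bool) : Prop := ∀ (j : ℕ) (h : j < s.length), x j = s[j]

/-! ## products of finite sets -/

section

variable {K : Type} {T : K → Type}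

/-- the points of the product -/
abbrev Pt (T : K → Type) : Type := ∀ k, T k

/-- `X` depends only on finitely many coordinates, all in `S` -/
def Cl (S : Set K) (X : Set (Pt T)) : Prop :=
  ∃ F : Finset K, (F : Set K) ⊆ S ∧ ∀ z w : Pt T, (∀ k ∈ F, z k = w k) → (z ∈ X ↔ w ∈ X)

/-- an exhaustive submeasure on the clopen sets -/
structure SubM (T : K → Type) (ν : Set (Pt T) → ℝ) : Prop where
  nonneg : ∀ a, Cl Set.univ a → 0 ≤ ν a
  empty : ν ∅ = 0
  mono : ∀ a b, Cl Set.univ a → Cl Set.univ b → a ⊆ b → ν a ≤ ν b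
  add : ∀ a b, Cl Set.univ a → Cl Set.univ b → ν (a ∪ b) ≤ ν a + ν b
  one : 1 ≤ ν Set.univ
  exh : ∀ E : ℕ → Set (Pt T), (∀ i, Cl Set.univ (E i)) → (∀ i j, i ≠ j → Disjoint (E i) (E j)) →
    ∀ δ > 0, ∃ i₀, ∀ i ≥ i₀, ν (E i) ≤ δ

/-- the hitting property -/
def Hit [LinearOrder K] (T : K → Type) (ν : Set (Pt T) → ℝ) (N : ℕ → ℕ) : Prop :=
  ∀ (j : ℕ) (I : Finset K), N j ≤ I.card → ∀ τ : (k : K) → Pt T → T k,
    (∀ k ∈ I, ∀ t, Cl {l | l < k} {z | τ k z = t}) →
    ν {z | ∀ k ∈ I, z k ≠ τ k z} ≤ (1 / 2) ^ j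

/-- the outer measure (it is not additive) given by `ν` -/
def mu (ν : Set (Pt T) → ℝ) : MeasureTheory.OuterMeasure (Pt T) :=
  MeasureTheory.OuterMeasure.ofFunction
    (fun a => if a = ∅ then 0 else if Cl Set.univ a then ENNReal.ofReal (ν a) else ⊤) (by simp)

/-- sets approximated by clopen sets with coordinates in `S` -/
def Ms (ν : Set (Pt T) → ℝ) (S : Set K) (E : Set (Pt T)) : Prop :=
  ∀ ε : ℝ≥0∞, 0 < ε → ∃ a, Cl S a ∧ mu ν (symmDiff E a) ≤ ε

end

/-! ## the space of the model -/

/-- the product of the ground space and of `∏ T k` -/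
def Om (X : Type) {K : Type} (T : K → Type) : Type := X × Pt T

section

variable {X K : Type} {T : K → Type}

/-- the σ-algebra of the coordinates in `S` -/
@[reducible] def sig (X : Type) [MeasurableSpace X] {K : Type} (T : K → Type) (S : Set K) :
    MeasurableSpace (Om X T) :=
  MeasurableSpace.generateFrom {E | (∃ A : Set X, MeasurableSet A ∧ E = {p | p.1 ∈ A}) ∨
    ∃ k ∈ S, ∃ t : T k, E = {p | p.2 k = t}}

instance [MeasurableSpace X] : MeasurableSpace (Om X T) := sig X T Set.univ

/-- the section at `x` -/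
def sec (E : Set (Om X T)) (x : X) : Set (Pt T) := {z | ((x, z) : Om X T) ∈ E}

/-- the filter of the co-null sets -/
def NN (f : Filter X) (ν : Set (Pt T) → ℝ) : Filter (Om X T) where
  sets := {G | ∀ᶠ x in f, mu ν (sec G x)ᶜ = 0}
  univ_sets := Eventually.of_forall fun x => by
    have h : (sec (Set.univ : Set (Om X T)) x)ᶜ = ∅ := by
      rw [Set.compl_empty_iff]
      exact Set.eq_univ_of_forall fun z => trivial
    rw [h, MeasureTheory.measure_empty]
  sets_of_superset := by
    intro A B hA hAB
    refine Eventually.mono (f := f) hA fun x hx => ?_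
    exact MeasureTheory.measure_mono_null (Set.compl_subset_compl.2 fun z hz => hAB hz) hx
  inter_sets := by
    intro A B hA hB
    refine (Filter.Eventually.and (f := f) hA hB).mono fun x hx => ?_
    have h : (sec (A ∩ B) x)ᶜ ⊆ (sec A x)ᶜ ∪ (sec B x)ᶜ := by
      intro z hz
      by_contra h
      rw [Set.mem_union, not_or, Set.notMem_compl_iff, Set.notMem_compl_iff] at h
      exact hz ⟨h.1, h.2⟩
    refine MeasureTheory.measure_mono_null h ?_
    rw [MeasureTheory.measure_union_null_iff]
    exact hx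

lemma mem_NN {f : Filter X} {ν : Set (Pt T) → ℝ} {p : Om X T → Prop} :
    (∀ᶠ ω in NN f ν, p ω) ↔ ∀ᶠ x in f, mu ν {z | ¬ p ((x, z) : Om X T)} = 0 := Iff.rfl

end

/-! ## the index set and the finite sets of the model -/

/-- coordinates `(i, n, s)`, in lexicographic order -/
abbrev KK (L : Type) : Type := L ×ₗ (ℕ ×ₗ ℕ)

/-- the coordinate `(i, n, s)` -/
def kk {L : Type} (i : L) (n s : ℕ) : KK L := toLex (i, toLex (n, s))

/-- the words of length `s` -/
abbrev TW (L : Type) (k : KK L) : Type := Fin (ofLex (ofLex k).2).2 → Bool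

/-- the coordinates before `(i, 0, 0)` -/
def SL {L : Type} [LinearOrder L] (i : L) : Set (KK L) := {k | (ofLex k).1 < i}

/-- the `n`-th word given by the coordinates `(i, n, F x n)` -/
def Zf {X L : Type} (i : L) (F : X → ℕ → ℕ) : Om X (TW L) → ℕ → List Bool :=
  fun ω n => List.ofFn (ω.2 (kk i n (F ω.1 n)))

/-- the ground space: a ccc space where every family of measurable functions indexed by `L` is
bounded -/
structure Gr (L : Type) (X : Type) [MeasurableSpace X] (f : Filter X) : Prop where
  cs : CS X f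
  bnd : ∀ F : L → X → ℕ → ℕ, (∀ i, Mf inferInstance (F i)) →
    ∃ G : X → ℕ → ℕ, Mf inferInstance G ∧ ∀ i, ∀ᶠ x in f, ∀ᶠ n in atTop, F i x n ≤ G x n

/-! ## the Stone space of `RO P` -/

/-- ultrafilters of `RO P` -/
structure St0 (P : Type) [Preorder P] where
  c : Set (RO P)
  top : ⊤ ∈ c
  bot : ⊥ ∉ c
  up : ∀ U V, U ∈ c → U ≤ V → V ∈ c
  inf : ∀ U V, U ∈ c → V ∈ c → U ⊓ V ∈ c
  or : ∀ U, U ∈ c ∨ Uᶜ ∈ c

/-- the sets containing all ultrafilters which meet countably many given covers -/
def gF (P : Type) [Preorder P] : Filter (St0 P) where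
  sets := {G | ∃ C : ℕ → Set (RO P), (∀ n, sSup (C n) = ⊤) ∧
    ∀ x : St0 P, (∀ n, ∃ U ∈ C n, U ∈ x.c) → x ∈ G}
  univ_sets := ⟨fun _ => {⊤}, fun _ => sSup_singleton, fun _ _ => trivial⟩
  sets_of_superset := by
    rintro A B ⟨C, hC, h⟩ hAB
    exact ⟨C, hC, fun x hx => hAB (h x hx)⟩
  inter_sets := by
    rintro A B ⟨C, hC, h⟩ ⟨C', hC', h'⟩
    refine ⟨fun n => if n % 2 = 0 then C (n / 2) else C' (n / 2), fun n => ?_, fun x hx => ?_⟩
    · by_cases hn : n % 2 = 0
      · simp only [hn, if_true]; exact hC _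
      · simp only [hn, if_false]; exact hC' _
    · refine ⟨h x fun n => ?_, h' x fun n => ?_⟩
      · have := hx (2 * n)
        simpa using this
      · have := hx (2 * n + 1)
        have h1 : (2 * n + 1) % 2 ≠ 0 := by omega
        have h2 : (2 * n + 1) / 2 = n := by omega
        simpa [h1, h2] using this

end Pool.Agent.SNC
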