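import Pool.Agent.SNC.T1

/-!
# MP_3e8648_lc, case b, Part II: `mu` is exhaustive on the approximable sets (T_MEX, helper5)
-/

set_option autoImplicit false
set_option linter.unusedVariables false

open scoped Classical ENNReal MeasureTheory
open Filter CofSN

noncomputable section

namespace Pool.Agent.SNC

namespace MEX_

variable {K : Type} {T : K → Type}

/-- the union of the sets before `i` -/
def cum (a : ℕ → Set (Pt T)) (i : ℕ) : Set (Pt T) := {z | ∃ j < i, z ∈ a j}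

theorem cl_cum (h_ALG : T_ALG) (a : ℕ → Set (Pt T)) (ha : ∀ i, Cl Set.univ (a i)) (i : ℕ) :
    Cl Set.univ (cum a i) := by
  obtain ⟨⟨h0, -⟩, -, h2, -⟩ := h_ALG K T Set.univ
  induction i with
  | zero =>
    have h : cum a 0 = ∅ := by
      ext z
      simp [cum]
    rw [h]
    exact h0
  | succ i ih =>
    have h : cum a (i + 1) = cum a i ∪ a i := by
      ext z
      constructor
      · rintro ⟨j, hj, hz⟩
        rcases Nat.lt_succ_iff_lt_or_eq.1 hj with h | h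
        · exact Or.inl ⟨j, h, hz⟩
        · exact Or.inr (h ▸ hz)
      · rintro (⟨j, hj, hz⟩ | hz)
        · exact ⟨j, Nat.lt_succ_of_lt hj, hz⟩
        · exact ⟨i, Nat.lt_succ_self i, hz⟩
    rw [h]
    exact (h2 _ _ ih (ha i)).1

theorem disj (a : ℕ → Set (Pt T)) (i j : ℕ) (hij : i ≠ j) :
    Disjoint (a i \ cum a i) (a j \ cum a j) := by
  rw [Set.disjoint_left]
  rintro z ⟨h1, h2⟩ ⟨h3, h4⟩
  rcases lt_or_gt_of_ne hij with h | h
  · exact h4 ⟨i, h, h1⟩
  · exact h2 ⟨j, h, h3⟩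

theorem cover (E a : ℕ → Set (Pt T)) (i : ℕ) : E i ⊆ (a i \ cum a i) ∪
    ((⋃ j ∈ Finset.range (i + 1), symmDiff (E j) (a j)) ∪
      ⋃ j ∈ Finset.range i, E i ∩ E j) := by
  intro z hz
  by_cases h1 : z ∈ a i
  · by_cases h2 : z ∈ cum a i
    · obtain ⟨j, hj, hza⟩ := h2
      right
      by_cases h3 : z ∈ E j
      · right
        rw [Set.mem_iUnion₂]
        exact ⟨j, Finset.mem_range.2 hj, hz, h3⟩
      · left
        rw [Set.mem_iUnion₂]
        exact ⟨j, Finset.mem_range.2 (by omega), Or.inr ⟨hza, h3⟩⟩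
    · exact Or.inl ⟨h1, h2⟩
  · right
    left
    rw [Set.mem_iUnion₂]
    exact ⟨i, Finset.mem_range.2 (by omega), Or.inl ⟨hz, h1⟩⟩

end MEX_

open MEX_ in
theorem p_MEX (h_MUC : T_MUC) (h_ALG : T_ALG) : T_MEX := by
  intro K T _ ν hν E hE hEE δ hδ
  rcases eq_or_ne δ ⊤ with rfl | htop
  · exact ⟨0, fun i _ => le_top⟩
  have hδ2 : δ / 2 ≠ 0 := (ENNReal.half_pos hδ.ne').ne'
  have hδt : δ / 2 ≠ ⊤ := by
    rw [Ne, ENNReal.div_eq_top]
    push Not
    exact ⟨fun _ => by simp, fun h => absurd h htop⟩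
  obtain ⟨η, hη1, hη2⟩ := ENNReal.exists_pos_sum_of_countable' hδ2 ℕ
  choose a ha1 ha2 using fun i => hE i (η i) (hη1 i)
  have hb : ∀ i, Cl Set.univ (a i \ cum a i) := fun i =>
    ((h_ALG K T Set.univ).2.2.1 _ _ (ha1 i) (cl_cum h_ALG a ha1 i)).2.2
  obtain ⟨i₀, hi₀⟩ := hν.exh (fun i => a i \ cum a i) hb (disj a) (δ / 2).toReal
    (ENNReal.toReal_pos hδ2 hδt)
  refine ⟨i₀, fun i hi => ?_⟩
  have h1 : mu ν (a i \ cum a i) ≤ δ / 2 := by
    rw [h_MUC K T ν hν _ (hb i), ← ENNReal.ofReal_toReal hδt]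
    exact ENNReal.ofReal_le_ofReal (hi₀ i hi)
  have h2 : mu ν (⋃ j ∈ Finset.range (i + 1), symmDiff (E j) (a j)) ≤ δ / 2 := by
    calc mu ν (⋃ j ∈ Finset.range (i + 1), symmDiff (E j) (a j))
        ≤ ∑ j ∈ Finset.range (i + 1), mu ν (symmDiff (E j) (a j)) :=
          MeasureTheory.measure_biUnion_finset_le _ _
      _ ≤ ∑ j ∈ Finset.range (i + 1), η j := Finset.sum_le_sum fun j _ => ha2 j
      _ ≤ ∑' j, η j := ENNReal.sum_le_tsum _
      _ ≤ δ / 2 := hη2.le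
  have h3 : mu ν (⋃ j ∈ Finset.range i, E i ∩ E j) = 0 := by
    refine le_antisymm ?_ zero_le
    calc mu ν (⋃ j ∈ Finset.range i, E i ∩ E j) ≤ ∑ j ∈ Finset.range i, mu ν (E i ∩ E j) :=
          MeasureTheory.measure_biUnion_finset_le _ _
      _ = 0 := Finset.sum_eq_zero fun j hj => hEE i j (Finset.mem_range.1 hj).ne'
  calc mu ν (E i) ≤ mu ν ((a i \ cum a i) ∪
        ((⋃ j ∈ Finset.range (i + 1), symmDiff (E j) (a j)) ∪
          ⋃ j ∈ Finset.range i, E i ∩ E j)) := MeasureTheory.measure_mono (cover E a i)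
    _ ≤ mu ν (a i \ cum a i) + mu ν ((⋃ j ∈ Finset.range (i + 1), symmDiff (E j) (a j)) ∪
          ⋃ j ∈ Finset.range i, E i ∩ E j) := MeasureTheory.measure_union_le _ _
    _ ≤ δ / 2 + (mu ν (⋃ j ∈ Finset.range (i + 1), symmDiff (E j) (a j)) +
          mu ν (⋃ j ∈ Finset.range i, E i ∩ E j)) :=
        add_le_add h1 (MeasureTheory.measure_union_le _ _)
    _ ≤ δ / 2 + (δ / 2 + 0) := add_le_add le_rfl (add_le_add h2 h3.le)
    _ = δ := by rw [add_zero, ENNReal.add_halves]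

end Pool.Agent.SNC
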